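import Pool.Agent.H99.Seif.Defs

/-!
# The weights

`om (m + 1) = (4 m + 6) om m`, `W A m = om m * A ^ m`, so `W A (m + 1) = A (4 m + 6) W A m`.
`W_mul_le` is log-convexity: the ratios `W (m + 1) / W m` increase, so moving one step from the
smaller index to the larger one does not decrease the product (induction on `i - R`, wlog `i ≤ j`
is not needed if one shows `W (R + t) * W j ≤ W R * W (j + t)` for `R ≤ j` by induction on `t`).
`W_geom`: `θ ^ m * W A m ≤ C * W A (m - R)`: the quotient is `θ ^ m` times a product of `R` factors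
`A (4 i + 6)`, `i < m`, so at most `θ ^ m (A (4 m + 6)) ^ R`, which is bounded.
`W_conv`: `ρ ^ m ≤ C (1/2) ^ m W A m`: `(2 ρ / A) ^ m / om m` is bounded because `om m ≥ m!`.
-/

open PowerSeries Finset

namespace Pool.Agent.H99.Seif

theorem om_pos (m : ℕ) : 0 < om m := by
  unfold om
  positivity

theorem om_succ (m : ℕ) : om (m + 1) = (4 * m + 6) * om m := by
  unfold om
  have h1 : (2 * (m + 1) + 1).factorial = (2 * m + 3) * ((2 * m + 2) * (2 * m + 1).factorial) := by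
    have : 2 * (m + 1) + 1 = (2 * m + 1) + 1 + 1 := by ring
    rw [this, Nat.factorial_succ, Nat.factorial_succ]
  have h2 : (m + 1).factorial = (m + 1) * m.factorial := Nat.factorial_succ m
  rw [h1, h2]
  push_cast
  have h3 : (m.factorial : ℝ) ≠ 0 := by exact_mod_cast Nat.factorial_ne_zero m
  have h4 : (m : ℝ) + 1 ≠ 0 := by positivity
  field_simp
  ring

theorem W_pos {A : ℝ} (hA : 0 < A) (m : ℕ) : 0 < W A m :=
  mul_pos (om_pos m) (pow_pos hA m)

theorem W_succ (A : ℝ) (m : ℕ) : W A (m + 1) = A * (4 * m + 6) * W A m := by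
  unfold W
  rw [om_succ, pow_succ]
  ring

private theorem W_mul_aux {A : ℝ} (hA : 0 < A) {R j : ℕ} (hj : R ≤ j) (t : ℕ) :
    W A (R + t) * W A j ≤ W A R * W A (j + t) := by
  induction t with
  | zero => simp
  | succ t ih =>
    have h1 : W A (R + (t + 1)) = A * (4 * ((R + t : ℕ) : ℝ) + 6) * W A (R + t) :=
      W_succ A (R + t)
    have h2 : W A (j + (t + 1)) = A * (4 * ((j + t : ℕ) : ℝ) + 6) * W A (j + t) :=
      W_succ A (j + t)
    rw [h1, h2]
    have h3 : ((R + t : ℕ) : ℝ) ≤ ((j + t : ℕ) : ℝ) := by exact_mod_cast Nat.add_le_add_right hj t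
    have h4 : (0 : ℝ) ≤ ((R + t : ℕ) : ℝ) := Nat.cast_nonneg _
    have h5 : 0 ≤ W A R * W A (j + t) := (mul_pos (W_pos hA _) (W_pos hA _)).le
    calc A * (4 * ((R + t : ℕ) : ℝ) + 6) * W A (R + t) * W A j
        = (A * (4 * ((R + t : ℕ) : ℝ) + 6)) * (W A (R + t) * W A j) := by ring
      _ ≤ (A * (4 * ((R + t : ℕ) : ℝ) + 6)) * (W A R * W A (j + t)) :=
          mul_le_mul_of_nonneg_left ih (by positivity)
      _ ≤ (A * (4 * ((j + t : ℕ) : ℝ) + 6)) * (W A R * W A (j + t)) := by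
          refine mul_le_mul_of_nonneg_right (mul_le_mul_of_nonneg_left ?_ hA.le) h5
          linarith
      _ = W A R * (A * (4 * ((j + t : ℕ) : ℝ) + 6) * W A (j + t)) := by ring

theorem W_mul_le {A : ℝ} (hA : 0 < A) {R i j : ℕ} (hi : R ≤ i) (hj : R ≤ j) :
    W A i * W A j ≤ W A R * W A (i + j - R) := by
  obtain ⟨t, rfl⟩ := Nat.exists_eq_add_of_le hi
  have h1 := W_mul_aux hA hj t
  have h2 : R + t + j - R = j + t := by omega
  rw [h2]
  exact h1

theorem W_step {A : ℝ} (hA : 0 < A) : ∃ C : ℝ, 0 < C ∧ ∀ m : ℕ, 1 ≤ m →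
    (m : ℝ) * W A (m - 1) ≤ C * W A m := by
  refine ⟨1 / A, by positivity, fun m hm => ?_⟩
  obtain ⟨n, rfl⟩ := Nat.exists_eq_add_of_le hm
  have h1 : 1 + n - 1 = n := by omega
  rw [h1, Nat.add_comm 1 n, W_succ]
  have h2 : 1 / A * (A * (4 * (n : ℝ) + 6) * W A n) = (4 * (n : ℝ) + 6) * W A n := by
    field_simp
  rw [h2]
  refine mul_le_mul_of_nonneg_right ?_ (W_pos hA n).le
  push_cast
  have : (0 : ℝ) ≤ n := Nat.cast_nonneg n
  linarith

private theorem W_shift_aux {A : ℝ} (hA : 0 < A) (d : ℕ) : ∃ C : ℝ, 0 < C ∧ ∀ n : ℕ,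
    W A n ≤ C * W A (n + d) := by
  induction d with
  | zero => exact ⟨1, one_pos, fun n => by simp⟩
  | succ d ih =>
    obtain ⟨C, hC0, hC⟩ := ih
    refine ⟨C * (1 / (6 * A)), by positivity, fun n => ?_⟩
    have h1 : W A (n + (d + 1)) = A * (4 * ((n + d : ℕ) : ℝ) + 6) * W A (n + d) :=
      W_succ A (n + d)
    have h4 : (0 : ℝ) ≤ ((n + d : ℕ) : ℝ) := Nat.cast_nonneg _
    have h5 := (W_pos hA (n + d)).le
    have h6 : W A (n + d) ≤ 1 / (6 * A) * W A (n + (d + 1)) := by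
      rw [h1, div_mul_eq_mul_div, one_mul, le_div_iff₀ (by positivity)]
      have h7 : 0 ≤ A * (4 * ((n + d : ℕ) : ℝ)) * W A (n + d) := by positivity
      linarith
    calc W A n ≤ C * W A (n + d) := hC n
      _ ≤ C * (1 / (6 * A) * W A (n + (d + 1))) := mul_le_mul_of_nonneg_left h6 hC0.le
      _ = _ := by ring

theorem W_shift {A : ℝ} (hA : 0 < A) {k l : ℕ} (hkl : k ≤ l) : ∃ C : ℝ, 0 < C ∧ ∀ m ≥ l,
    W A (m - l) ≤ C * W A (m - k) := by
  obtain ⟨C, hC0, hC⟩ := W_shift_aux hA (l - k)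
  refine ⟨C, hC0, fun m hm => ?_⟩
  have h1 : m - k = (m - l) + (l - k) := by omega
  rw [h1]
  exact hC _

private theorem geom_aux {θ : ℝ} (h0 : 0 < θ) (h1 : θ < 1) : ∃ C : ℝ, 0 < C ∧
    ∀ m : ℕ, (4 * (m : ℝ) + 6) * θ ^ m ≤ C := by
  have h2 := (tendsto_self_mul_const_pow_of_lt_one h0.le h1).bddAbove_range
  obtain ⟨B, hB⟩ := h2
  have hB' : ∀ m : ℕ, (m : ℝ) * θ ^ m ≤ B := fun m => hB ⟨m, rfl⟩
  refine ⟨4 * |B| + 6, by positivity, fun m => ?_⟩
  have h3 := (hB' m).trans (le_abs_self B)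
  have h4 : θ ^ m ≤ 1 := pow_le_one₀ h0.le h1.le
  linarith

theorem W_geom {A θ : ℝ} (hA : 0 < A) (h0 : 0 < θ) (h1 : θ < 1) (R : ℕ) : ∃ C : ℝ, 0 < C ∧
    ∀ m ≥ R, θ ^ m * W A m ≤ C * W A (m - R) := by
  induction R generalizing θ with
  | zero =>
    refine ⟨1, one_pos, fun m _ => ?_⟩
    rw [Nat.sub_zero]
    exact mul_le_mul_of_nonneg_right (pow_le_one₀ h0.le h1.le) (W_pos hA m).le
  | succ R ih =>
    have hs0 : 0 < Real.sqrt θ := Real.sqrt_pos.mpr h0
    have hs1 : Real.sqrt θ < 1 := by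
      rw [Real.sqrt_lt' one_pos]; simpa using h1
    have hss : Real.sqrt θ * Real.sqrt θ = θ := Real.mul_self_sqrt h0.le
    obtain ⟨C, hC0, hC⟩ := ih hs0 hs1
    obtain ⟨D, hD0, hD⟩ := geom_aux hs0 hs1
    refine ⟨C * (A * D), by positivity, fun m hm => ?_⟩
    have hm1 : m ≥ R := by omega
    have h3 := hC m hm1
    have h4 : m - R = (m - (R + 1)) + 1 := by omega
    have h5 : W A (m - R) = A * (4 * ((m - (R + 1) : ℕ) : ℝ) + 6) * W A (m - (R + 1)) := by
      rw [h4]; exact W_succ A _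
    have h6 : (4 * ((m - (R + 1) : ℕ) : ℝ) + 6) ≤ 4 * (m : ℝ) + 6 := by
      have : ((m - (R + 1) : ℕ) : ℝ) ≤ (m : ℝ) := by exact_mod_cast Nat.sub_le _ _
      linarith
    have h7 := (W_pos hA (m - (R + 1))).le
    have h8 : 0 ≤ Real.sqrt θ ^ m := by positivity
    have h9 : θ ^ m = Real.sqrt θ ^ m * Real.sqrt θ ^ m := by rw [← mul_pow, hss]
    calc θ ^ m * W A m = Real.sqrt θ ^ m * (Real.sqrt θ ^ m * W A m) := by rw [h9]; ring
      _ ≤ Real.sqrt θ ^ m * (C * W A (m - R)) := mul_le_mul_of_nonneg_left h3 h8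
      _ = C * (A * ((4 * ((m - (R + 1) : ℕ) : ℝ) + 6) * Real.sqrt θ ^ m)) *
          W A (m - (R + 1)) := by rw [h5]; ring
      _ ≤ C * (A * D) * W A (m - (R + 1)) := by
          refine mul_le_mul_of_nonneg_right (mul_le_mul_of_nonneg_left
            (mul_le_mul_of_nonneg_left ?_ hA.le) hC0.le) h7
          exact (mul_le_mul_of_nonneg_right h6 h8).trans (hD m)

private theorem fact_le_om (m : ℕ) : (m.factorial : ℝ) ≤ om m := by
  induction m with
  | zero => unfold om; norm_num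
  | succ m ih =>
    rw [om_succ, Nat.factorial_succ]
    push_cast
    have h1 : (0 : ℝ) ≤ m := Nat.cast_nonneg m
    have h2 : (0 : ℝ) ≤ m.factorial := Nat.cast_nonneg _
    exact mul_le_mul (by linarith) ih h2 (by linarith)

theorem W_conv {A : ℝ} (hA : 0 < A) (ρ : ℝ) : ∃ C : ℝ, 0 < C ∧ ∀ m, |ρ| ^ m ≤
    C * (1 / 2) ^ m * W A m := by
  refine ⟨Real.exp (2 * |ρ| / A), Real.exp_pos _, fun m => ?_⟩
  have hx : 0 ≤ 2 * |ρ| / A := by positivity
  have h1 := Real.pow_div_factorial_le_exp (2 * |ρ| / A) hx m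
  have hf : (0 : ℝ) < m.factorial := by exact_mod_cast Nat.factorial_pos m
  rw [div_le_iff₀ hf] at h1
  have h2 : |ρ| ^ m = (2 * |ρ| / A) ^ m * (A / 2) ^ m := by
    rw [← mul_pow]
    congr 1
    field_simp
  have h3 : (0 : ℝ) ≤ (A / 2) ^ m := by positivity
  calc |ρ| ^ m = (2 * |ρ| / A) ^ m * (A / 2) ^ m := h2
    _ ≤ (Real.exp (2 * |ρ| / A) * m.factorial) * (A / 2) ^ m :=
        mul_le_mul_of_nonneg_right h1 h3
    _ ≤ (Real.exp (2 * |ρ| / A) * om m) * (A / 2) ^ m :=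
        mul_le_mul_of_nonneg_right
          (mul_le_mul_of_nonneg_left (fact_le_om m) (Real.exp_pos _).le) h3
    _ = Real.exp (2 * |ρ| / A) * (1 / 2) ^ m * W A m := by
        unfold W
        rw [div_pow, one_div, inv_pow]
        ring

end Pool.Agent.H99.Seif
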