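import Pool.Agent.H99.Seif.Poles
import Pool.Agent.H99.Seif.Wt

/-!
# Distinct Seifert invariants have distinct quotients

Let `p, p'` be different with the same product `P`, `N = p.card`, `N' = p'.card`, and suppose
`(∑ k ≤ N - 3, q k X ^ (K - k)) * V p' = (∑ k ≤ N' - 3, q' k X ^ (K - k)) * V p`. The coefficient
`m + K` (`m ≥ 0`) says `∑ k, q k * V p' (m + k) = ∑ k, q' k * V p (m + k)`. As
`V p (m + k) = phi_p (m + k) om m (∏ i < k, (4 (m + i) + 6)) (-P) ^ (m + k)`, dividing by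
`om m (-P) ^ m`: `∑ k, α k (m) phi_p' (m + k) = ∑ k, β k (m) phi_p (m + k)` with
`α k (m) = q k (-P) ^ k ∏ i < k, (4 (m + i) + 6)`, a polynomial in `m` of degree at most `k`, exactly
`N - 3` for `k = N - 3` (same for `β`, `q'`, `N'`).
Let `J ≥ 1` and take `Q` for `p`, `Q'` for `p'` from `poles`. Then
`∑ j ∈ Icc 1 J, Π j (m) (pt j)⁻¹ ^ m = O (r ^ (-m))` with some `r > |pt J|` (any `r` between
`4 π ^ 2 J ^ 2` and `4 π ^ 2 (J + 1) ^ 2`), where
`Π j (m) = ∑ k, α k (m) Q' j (m + k) (pt j)⁻¹ ^ k - ∑ k, β k (m) Q j (m + k) (pt j)⁻¹ ^ k`.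
By dominance (multiply by `(pt 1) ^ m`, a polynomial which tends to `0` along `ℕ` is zero; then
`j = 2, ...`) all `Π j` vanish, in particular `Π J = 0`. The first sum in `Π J` is `0` if `Q' J = 0`
and has degree exactly `N - 3 + natDegree (Q' J)` otherwise (only `k = N - 3` reaches it), the second
one is `0` if `Q J = 0` and has degree exactly `N' - 3 + natDegree (Q J)` otherwise. So
`Q J = 0 ↔ Q' J = 0`, and if they are not zero then `zn p J = zn p' J` (by the degrees in `poles`).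
For `J ∈ p`: `zn p J = 1` (pairwise coprime, `≥ 2`). If `N ≥ 4` then `Q J ≠ 0` and so
`zn p' J = 1`; if `N = 3` then `Q J = 0`, so `Q' J = 0` and `zn p' J ≥ N' - 2 ≥ 1`. In both cases some
`l ∈ p'` divides `J`. By symmetry every `l ∈ p'` is divisible by some `k ∈ p`. So `k ∣ l ∣ J`, `k = J`,
`l = J`: `p ⊆ p'`, and by symmetry `p = p'`, a contradiction.
-/

open PowerSeries Finset

namespace Pool.Agent.H99.Seif

private theorem Dist_poly_geom (Q : Polynomial ℝ) {r : ℝ} (hr : |r| < 1) :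
    Filter.Tendsto (fun m : ℕ => Q.eval (m : ℝ) * r ^ m) Filter.atTop (nhds 0) := by
  induction Q using Polynomial.induction_on' with
  | add p q hp hq =>
    have h := hp.add hq
    simp only [add_zero] at h
    refine h.congr fun m => ?_
    rw [Polynomial.eval_add, add_mul]
  | monomial n a =>
    have h := (tendsto_pow_const_mul_const_pow_of_abs_lt_one n hr).const_mul a
    simp only [mul_zero] at h
    refine h.congr fun m => ?_
    rw [Polynomial.eval_monomial, mul_assoc]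

private theorem Dist_poly_zero (Q : Polynomial ℝ)
    (h : Filter.Tendsto (fun m : ℕ => Q.eval (m : ℝ)) Filter.atTop (nhds 0)) : Q = 0 := by
  by_cases hd : 0 < Q.degree
  · exfalso
    have h1 := (Polynomial.abs_tendsto_atTop Q hd).comp (tendsto_natCast_atTop_atTop (R := ℝ))
    have h4 : Filter.Tendsto ((fun x => |Polynomial.eval x Q|) ∘ (Nat.cast : ℕ → ℝ)) Filter.atTop
        (nhds 0) := by simpa [Function.comp_def] using h.abs
    exact not_tendsto_nhds_of_tendsto_atTop h1 _ h4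
  · have h2 : Q = Polynomial.C (Q.coeff 0) := Polynomial.eq_C_of_degree_le_zero (not_lt.1 hd)
    rw [h2] at h
    simp only [Polynomial.eval_C] at h
    have h3 : Q.coeff 0 = 0 := tendsto_nhds_unique tendsto_const_nhds h
    rw [h2, h3, map_zero]

/-- The polynomials `α k`. -/
private noncomputable def Dist_al (q : ℕ → ℝ) (P : ℝ) (k : ℕ) : Polynomial ℝ :=
  Polynomial.C (q k * (-P) ^ k) *
    ∏ i ∈ range k, (Polynomial.C 4 * Polynomial.X + Polynomial.C (4 * (i : ℝ) + 6))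

private theorem Dist_prod_degree (k : ℕ) :
    (∏ i ∈ range k, (Polynomial.C (4 : ℝ) * Polynomial.X +
      Polynomial.C (4 * (i : ℝ) + 6))).degree = (k : WithBot ℕ) := by
  rw [Polynomial.degree_prod]
  simp only [Polynomial.degree_linear (show (4 : ℝ) ≠ 0 by norm_num)]
  simp

private theorem Dist_al_degree_le (q : ℕ → ℝ) (P : ℝ) (k : ℕ) : (Dist_al q P k).degree ≤ k := by
  unfold Dist_al
  rw [Polynomial.degree_mul, Dist_prod_degree]
  calc (Polynomial.C (q k * (-P) ^ k)).degree + (k : WithBot ℕ) ≤ 0 + (k : WithBot ℕ) := by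
        gcongr
        exact Polynomial.degree_C_le
    _ = k := zero_add _

private theorem Dist_al_degree {q : ℕ → ℝ} {P : ℝ} {k : ℕ} (hq : q k ≠ 0) (hP : P ≠ 0) :
    (Dist_al q P k).degree = k := by
  unfold Dist_al
  rw [Polynomial.degree_mul, Dist_prod_degree, Polynomial.degree_C, zero_add]
  exact mul_ne_zero hq (pow_ne_zero _ (neg_ne_zero.2 hP))

private theorem Dist_al_eval (q : ℕ → ℝ) (P : ℝ) (k m : ℕ) :
    om m * (Dist_al q P k).eval (m : ℝ) = q k * (-P) ^ k * om (m + k) := by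
  unfold Dist_al
  rw [Polynomial.eval_mul, Polynomial.eval_C]
  have h : om m * (∏ i ∈ range k, (Polynomial.C (4 : ℝ) * Polynomial.X +
      Polynomial.C (4 * (i : ℝ) + 6))).eval (m : ℝ) = om (m + k) := by
    induction k with
    | zero => simp
    | succ k ih =>
      rw [prod_range_succ, Polynomial.eval_mul, ← mul_assoc, ih, ← add_assoc, om_succ]
      simp only [Polynomial.eval_add, Polynomial.eval_mul, Polynomial.eval_C, Polynomial.eval_X]
      push_cast
      ring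
  rw [← h]
  ring

private noncomputable def Dist_S (q : ℕ → ℝ) (P c : ℝ) (n : ℕ) (Q : Polynomial ℝ) :
    Polynomial ℝ :=
  ∑ k ∈ range n, Dist_al q P k * Polynomial.taylor (k : ℝ) Q * Polynomial.C (c ^ k)

private theorem Dist_S_zero (q : ℕ → ℝ) (P c : ℝ) (n : ℕ) : Dist_S q P c n 0 = 0 := by
  unfold Dist_S
  simp

private theorem Dist_S_degree {q : ℕ → ℝ} {P c : ℝ} {n : ℕ} (hq : q n ≠ 0) (hP : P ≠ 0)
    (hc : c ≠ 0) {Q : Polynomial ℝ} (hQ : Q ≠ 0) :
    (Dist_S q P c (n + 1) Q).degree = (n + Q.natDegree : ℕ) := by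
  have hterm : ∀ k, (Dist_al q P k * Polynomial.taylor (k : ℝ) Q * Polynomial.C (c ^ k)).degree =
      (Dist_al q P k).degree + (Q.natDegree : WithBot ℕ) := by
    intro k
    rw [Polynomial.degree_mul, Polynomial.degree_mul, Polynomial.degree_C (pow_ne_zero _ hc),
      add_zero, Polynomial.degree_taylor, Polynomial.degree_eq_natDegree hQ]
  unfold Dist_S
  rw [sum_range_succ]
  have h1 : (Dist_al q P n * Polynomial.taylor (n : ℝ) Q * Polynomial.C (c ^ n)).degree =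
      (n + Q.natDegree : ℕ) := by
    rw [hterm, Dist_al_degree hq hP]
    push_cast
    rfl
  rw [Polynomial.degree_add_eq_right_of_degree_lt, h1]
  rw [h1]
  refine (Polynomial.degree_sum_le _ _).trans_lt ?_
  rw [Finset.sup_lt_iff (WithBot.bot_lt_coe _)]
  intro k hk
  rw [hterm]
  calc (Dist_al q P k).degree + (Q.natDegree : WithBot ℕ) ≤ (k : WithBot ℕ) + (Q.natDegree : WithBot ℕ) := by
        gcongr
        exact Dist_al_degree_le q P k
    _ < ((n + Q.natDegree : ℕ) : WithBot ℕ) := by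
        have := mem_range.1 hk
        exact_mod_cast (by omega : k + Q.natDegree < n + Q.natDegree)

private theorem Dist_err (A : Polynomial ℝ) {R : ℕ → ℝ} {r x C₀ : ℝ} (k : ℕ) (hr : 0 < r)
    (hx : |x| < r) (hR : ∀ m, |R m| * r ^ m ≤ C₀) :
    Filter.Tendsto (fun m : ℕ => A.eval (m : ℝ) * R (m + k) * x ^ m) Filter.atTop (nhds 0) := by
  have hlt : |(|x| / r)| < 1 := by
    rw [abs_of_nonneg (div_nonneg (abs_nonneg _) hr.le), div_lt_one hr]
    exact hx
  have h1 := ((Dist_poly_geom A hlt).abs).mul_const (C₀ / r ^ k)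
  simp only [abs_zero, zero_mul] at h1
  refine squeeze_zero_norm (fun m => ?_) h1
  rw [Real.norm_eq_abs, abs_mul, abs_mul, abs_mul, abs_pow, abs_pow, abs_div, abs_abs,
    abs_of_pos hr]
  have h2 : |R (m + k)| ≤ C₀ / r ^ (m + k) := by
    rw [le_div_iff₀ (pow_pos hr _)]
    exact hR _
  have h3 : |A.eval (m : ℝ)| * (|x| / r) ^ m * (C₀ / r ^ k) =
      |A.eval (m : ℝ)| * (C₀ / r ^ (m + k)) * |x| ^ m := by
    rw [div_pow, pow_add]
    field_simp
  rw [h3]
  gcongr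

private theorem Dist_dom (Pg : ℕ → Polynomial ℝ) (c : ℕ → ℝ) (J : ℕ)
    (hc : ∀ j ∈ Icc 1 J, c j ≠ 0) (hlt : ∀ i ∈ Icc 1 J, ∀ j ∈ Icc 1 J, i < j → |c j| < |c i|)
    (h : ∀ j ∈ Icc 1 J, Filter.Tendsto (fun m : ℕ => ∑ i ∈ Icc 1 J, (Pg i).eval (m : ℝ) *
      c i ^ m * (c j)⁻¹ ^ m) Filter.atTop (nhds 0)) : ∀ j ∈ Icc 1 J, Pg j = 0 := by
  intro j
  induction j using Nat.strong_induction_on with
  | _ j ih =>
    intro hj
    refine Dist_poly_zero _ ?_
    have h2 : Filter.Tendsto (fun m : ℕ => ∑ i ∈ (Icc 1 J).erase j, (Pg i).eval (m : ℝ) *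
        c i ^ m * (c j)⁻¹ ^ m) Filter.atTop (nhds 0) := by
      have h3 : Filter.Tendsto (fun m : ℕ => ∑ i ∈ (Icc 1 J).erase j, (Pg i).eval (m : ℝ) *
        c i ^ m * (c j)⁻¹ ^ m) Filter.atTop (nhds (∑ i ∈ (Icc 1 J).erase j, 0)) := by
        refine tendsto_finsetSum _ fun i hi => ?_
        rw [mem_erase] at hi
        rcases lt_or_gt_of_ne hi.1 with hij | hij
        · rw [ih i hij hi.2]
          simp
        · have h4 : |c i * (c j)⁻¹| < 1 := by
            rw [abs_mul, abs_inv, ← div_eq_mul_inv, div_lt_one (abs_pos.2 (hc j hj))]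
            exact hlt j hj i hi.2 hij
          refine (Dist_poly_geom (Pg i) h4).congr fun m => ?_
          rw [mul_pow]
          ring
      simpa using h3
    have h5 := (h j hj).sub h2
    rw [sub_zero] at h5
    refine h5.congr fun m => ?_
    rw [← Finset.add_sum_erase _ _ hj, add_sub_cancel_right, mul_assoc, ← mul_pow,
      mul_inv_cancel₀ (hc j hj), one_pow, mul_one]

private theorem Dist_coeff {p p' : Finset ℕ} {K n : ℕ} (hn : n ≤ K + 1) (q : ℕ → ℝ) (m : ℕ)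
    (hP : ∏ k ∈ p, k = ∏ k ∈ p', k) :
    coeff (m + K) ((∑ k ∈ range n, C (q k) * X ^ (K - k)) * V (-1) p') =
      om m * (-(∏ k ∈ p, (k : ℝ))) ^ m *
        ∑ k ∈ range n, (Dist_al q (∏ k ∈ p, (k : ℝ)) k).eval (m : ℝ) * coeff (m + k) (phi p') := by
  have hPR : ∏ k ∈ p, (k : ℝ) = ∏ k ∈ p', (k : ℝ) := by
    rw [← Nat.cast_prod, ← Nat.cast_prod, hP]
  rw [sum_mul, map_sum, mul_sum]
  refine sum_congr rfl fun k hk => ?_
  have hkK : k ≤ K := by have := mem_range.1 hk; omega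
  rw [mul_assoc, coeff_C_mul]
  have h1 : m + K = (m + k) + (K - k) := by omega
  rw [h1, coeff_X_pow_mul]
  unfold V
  rw [coeff_mk, ← hPR, neg_one_mul]
  have h2 := Dist_al_eval q (∏ k ∈ p, (k : ℝ)) k m
  set P := ∏ k ∈ p, (k : ℝ)
  calc q k * (coeff (m + k) (phi p') * om (m + k) * (-P) ^ (m + k))
      = (q k * (-P) ^ k * om (m + k)) * (-P) ^ m * coeff (m + k) (phi p') := by
        rw [pow_add]; ring
    _ = _ := by rw [← h2]; ring

private theorem Dist_key {p p' : Finset ℕ} (hp : IsSeif p) (hp' : IsSeif p')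
    (hP : ∏ k ∈ p, k = ∏ k ∈ p', k) {K : ℕ} (hK : p.card ≤ K) (hK' : p'.card ≤ K) {q q' : ℕ → ℝ}
    (hq : q (p.card - 3) ≠ 0) (hq' : q' (p'.card - 3) ≠ 0)
    (h : (∑ k ∈ range (p.card - 2), C (q k) * X ^ (K - k)) * V (-1) p' =
      (∑ k ∈ range (p'.card - 2), C (q' k) * X ^ (K - k)) * V (-1) p) :
    ∀ J ∈ p, ∃ l ∈ p', l ∣ J := by
  intro J hJ
  have hJ2 : 2 ≤ J := hp.2.1 J hJ
  have hJI : J ∈ Icc 1 J := mem_Icc.2 ⟨by omega, le_rfl⟩
  obtain ⟨Q, hQh, hQ⟩ := poles hp J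
  obtain ⟨Q', hQh', hQ'⟩ := poles hp' J
  set P : ℝ := ∏ k ∈ p, (k : ℝ) with hPdef
  have hP0 : P ≠ 0 := by
    rw [hPdef, prod_ne_zero_iff]
    intro k hk
    have := hp.2.1 k hk
    exact_mod_cast (by omega : k ≠ 0)
  have hPR : P = ∏ k ∈ p', (k : ℝ) := by
    rw [hPdef, ← Nat.cast_prod, ← Nat.cast_prod, hP]
  -- coefficients
  have hcoef : ∀ m : ℕ, ∑ k ∈ range (p.card - 2), (Dist_al q P k).eval (m : ℝ) *
      coeff (m + k) (phi p') = ∑ k ∈ range (p'.card - 2), (Dist_al q' P k).eval (m : ℝ) *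
      coeff (m + k) (phi p) := by
    intro m
    have h1 := congrArg (coeff (m + K)) h
    rw [Dist_coeff (by omega) q m hP, Dist_coeff (by omega) q' m hP.symm, ← hPdef, ← hPR] at h1
    refine mul_left_cancel₀ (mul_ne_zero (om_pos m).ne' (pow_ne_zero m (neg_ne_zero.2 hP0))) h1
  -- the remainders
  set ρ : ℝ := 4 * Real.pi ^ 2 * ((J : ℝ) + 1) ^ 2 with hρ
  set R : ℕ → ℝ := fun m => coeff m (phi p - PowerSeries.mk fun m =>
      ∑ j ∈ Icc 1 J, (Q j).eval (m : ℝ) * ((pt j)⁻¹) ^ m) with hR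
  set R' : ℕ → ℝ := fun m => coeff m (phi p' - PowerSeries.mk fun m =>
      ∑ j ∈ Icc 1 J, (Q' j).eval (m : ℝ) * ((pt j)⁻¹) ^ m) with hR'
  have hphi : ∀ m, coeff m (phi p) = ∑ j ∈ Icc 1 J, (Q j).eval (m : ℝ) * ((pt j)⁻¹) ^ m + R m := by
    intro m
    simp only [hR, map_sub, coeff_mk]
    ring
  have hphi' : ∀ m, coeff m (phi p') =
      ∑ j ∈ Icc 1 J, (Q' j).eval (m : ℝ) * ((pt j)⁻¹) ^ m + R' m := by
    intro m
    simp only [hR', map_sub, coeff_mk]
    ring
  have hpi : 0 < Real.pi := Real.pi_pos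
  have hpi2 : 0 < 4 * Real.pi ^ 2 := by positivity
  have hptabs : ∀ j : ℕ, |pt j| = 4 * Real.pi ^ 2 * (j : ℝ) ^ 2 := by
    intro j
    unfold pt
    rw [abs_neg, abs_of_nonneg (by positivity)]
  have hptne : ∀ j ∈ Icc 1 J, pt j ≠ 0 := by
    intro j hj
    have h1 : 1 ≤ j := (mem_Icc.1 hj).1
    have h2 : (0 : ℝ) < j := by exact_mod_cast (by omega : 0 < j)
    rw [← abs_pos, hptabs]
    positivity
  set r : ℝ := 4 * Real.pi ^ 2 * ((J : ℝ) ^ 2 + 1) with hr
  have hr0 : 0 < r := by positivity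
  have hrρ : r < ρ := by
    rw [hr, hρ]
    have : (0 : ℝ) < J := by exact_mod_cast (by omega : 0 < J)
    gcongr
    nlinarith
  obtain ⟨C₁, hC₁⟩ := hQh r hr0 hrρ
  obtain ⟨C₂, hC₂⟩ := hQh' r hr0 hrρ
  have hptr : ∀ j ∈ Icc 1 J, |pt j| < r := by
    intro j hj
    rw [hptabs, hr]
    have h1 : (j : ℝ) ≤ J := by exact_mod_cast (mem_Icc.1 hj).2
    have h2 : (j : ℝ) ^ 2 ≤ (J : ℝ) ^ 2 := by gcongr
    gcongr
    linarith
  -- the polynomials
  set Pg : ℕ → Polynomial ℝ := fun j => Dist_S q P (pt j)⁻¹ (p.card - 2) (Q' j) -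
    Dist_S q' P (pt j)⁻¹ (p'.card - 2) (Q j) with hPi
  have hSev : ∀ (a : ℕ → ℝ) (n : ℕ) (T : ℕ → Polynomial ℝ) (m : ℕ),
      ∑ k ∈ range n, (Dist_al a P k).eval (m : ℝ) *
        ∑ j ∈ Icc 1 J, (T j).eval ((m + k : ℕ) : ℝ) * ((pt j)⁻¹) ^ (m + k) =
      ∑ j ∈ Icc 1 J, (Dist_S a P (pt j)⁻¹ n (T j)).eval (m : ℝ) * (pt j)⁻¹ ^ m := by
    intro a n T m
    simp only [mul_sum]
    rw [sum_comm]
    refine sum_congr rfl fun j _ => ?_
    unfold Dist_S
    rw [Polynomial.eval_finsetSum, sum_mul]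
    refine sum_congr rfl fun k _ => ?_
    rw [Polynomial.eval_mul, Polynomial.eval_mul, Polynomial.eval_C, Polynomial.taylor_eval,
      pow_add]
    push_cast
    ring
  have hmain : ∀ m : ℕ, ∑ j ∈ Icc 1 J, (Pg j).eval (m : ℝ) * (pt j)⁻¹ ^ m =
      ∑ k ∈ range (p'.card - 2), (Dist_al q' P k).eval (m : ℝ) * R (m + k) -
        ∑ k ∈ range (p.card - 2), (Dist_al q P k).eval (m : ℝ) * R' (m + k) := by
    intro m
    have h1 := hcoef m
    simp only [hphi, hphi', mul_add, sum_add_distrib] at h1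
    rw [hSev q (p.card - 2) Q' m, hSev q' (p'.card - 2) Q m] at h1
    simp only [hPi, Polynomial.eval_sub, sub_mul, sum_sub_distrib]
    linarith
  have hPi0 : Pg J = 0 := by
    refine Dist_dom Pg (fun j => (pt j)⁻¹) J (fun j hj => inv_ne_zero (hptne j hj)) ?_ ?_ J hJI
    · intro i hi j hj hij
      simp only [abs_inv]
      rw [hptabs, hptabs]
      have h1 : 1 ≤ i := (mem_Icc.1 hi).1
      have h2 : (0 : ℝ) < i := by exact_mod_cast (by omega : 0 < i)
      have h3 : (i : ℝ) < j := by exact_mod_cast hij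
      gcongr
    · intro j hj
      have h1 : Filter.Tendsto (fun m : ℕ =>
          ∑ k ∈ range (p'.card - 2), (Dist_al q' P k).eval (m : ℝ) * R (m + k) * (pt j) ^ m -
          ∑ k ∈ range (p.card - 2), (Dist_al q P k).eval (m : ℝ) * R' (m + k) * (pt j) ^ m)
          Filter.atTop (nhds (∑ k ∈ range (p'.card - 2), 0 - ∑ k ∈ range (p.card - 2), 0)) := by
        refine Filter.Tendsto.sub (tendsto_finsetSum _ fun k _ => ?_)
          (tendsto_finsetSum _ fun k _ => ?_)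
        · exact Dist_err _ k hr0 (hptr j hj) hC₁
        · exact Dist_err _ k hr0 (hptr j hj) hC₂
      simp only [sum_const_zero, sub_zero] at h1
      refine h1.congr fun m => ?_
      rw [← sum_mul, ← sum_mul, ← sub_mul, ← hmain m, sum_mul]
      refine sum_congr rfl fun i _ => ?_
      rw [inv_inv]
  -- degrees
  obtain ⟨n, hn⟩ : ∃ n, p.card = n + 3 := ⟨p.card - 3, by have := hp.1; omega⟩
  obtain ⟨n', hn'⟩ : ∃ n', p'.card = n' + 3 := ⟨p'.card - 3, by have := hp'.1; omega⟩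
  have hSeq : Dist_S q P (pt J)⁻¹ (n + 1) (Q' J) = Dist_S q' P (pt J)⁻¹ (n' + 1) (Q J) := by
    have h1 : Pg J = Dist_S q P (pt J)⁻¹ (p.card - 2) (Q' J) -
      Dist_S q' P (pt J)⁻¹ (p'.card - 2) (Q J) := rfl
    rw [hPi0, hn, hn'] at h1
    exact (sub_eq_zero.1 h1.symm)
  have hqn : q n ≠ 0 := by rw [hn] at hq; simpa using hq
  have hqn' : q' n' ≠ 0 := by rw [hn'] at hq'; simpa using hq'
  have hc0 : (pt J)⁻¹ ≠ 0 := inv_ne_zero (hptne J hJI)
  obtain ⟨hQ1, hQ2⟩ := hQ J hJI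
  obtain ⟨hQ1', hQ2'⟩ := hQ' J hJI
  have hiff : Q J = 0 ↔ Q' J = 0 := by
    constructor
    · intro h0
      by_contra h1
      have h2 := Dist_S_degree hqn hP0 hc0 h1
      rw [hSeq, h0, Dist_S_zero, Polynomial.degree_zero] at h2
      exact WithBot.bot_ne_coe h2
    · intro h0
      by_contra h1
      have h2 := Dist_S_degree hqn' hP0 hc0 h1
      rw [← hSeq, h0, Dist_S_zero, Polynomial.degree_zero] at h2
      exact WithBot.bot_ne_coe h2
  have hzn1 : zn p J = 1 := by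
    unfold zn
    rw [card_eq_one]
    refine ⟨J, ?_⟩
    ext k
    rw [mem_filter, mem_singleton]
    constructor
    · rintro ⟨hk, hkJ⟩
      by_contra hne
      have h1 := hp.2.2 hk hJ hne
      have h2 : k = 1 := Nat.eq_one_of_dvd_coprimes h1 dvd_rfl hkJ
      have := hp.2.1 k hk
      omega
    · rintro rfl
      exact ⟨hJ, dvd_rfl⟩
  have hpos : 0 < zn p' J := by
    by_cases hN : n = 0
    · have h0 : Q J = 0 := hQ1 (by rw [hzn1, hn, hN])
      have h0' := hiff.1 h0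
      by_contra hz
      exact (hQ2' (by omega)).1 h0'
    · have h0 := hQ2 (by rw [hzn1, hn]; omega)
      have h0' : Q' J ≠ 0 := fun h => h0.1 (hiff.2 h)
      have h1 : zn p' J < p'.card - 2 := by
        by_contra hge
        exact h0' (hQ1' (not_lt.1 hge))
      have h2 := (hQ2' h1).2
      have h3 := Dist_S_degree hqn hP0 hc0 h0'
      rw [hSeq, Dist_S_degree hqn' hP0 hc0 h0.1] at h3
      have h4 : n' + (Q J).natDegree = n + (Q' J).natDegree := by exact_mod_cast h3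
      have h5 := h0.2
      omega
  unfold zn at hpos
  obtain ⟨l, hl⟩ := card_pos.1 hpos
  rw [mem_filter] at hl
  exact ⟨l, hl.1, hl.2⟩

theorem dist {p p' : Finset ℕ} (hp : IsSeif p) (hp' : IsSeif p') (hne : p ≠ p')
    (hP : ∏ k ∈ p, k = ∏ k ∈ p', k) {K : ℕ} (hK : p.card ≤ K) (hK' : p'.card ≤ K) {q q' : ℕ → ℝ}
    (hq : q (p.card - 3) ≠ 0) (hq' : q' (p'.card - 3) ≠ 0) :
    (∑ k ∈ range (p.card - 2), C (q k) * X ^ (K - k)) * V (-1) p' ≠
      (∑ k ∈ range (p'.card - 2), C (q' k) * X ^ (K - k)) * V (-1) p := by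
  intro h
  apply hne
  have h1 := Dist_key hp hp' hP hK hK' hq hq' h
  have h2 := Dist_key hp' hp hP.symm hK' hK hq' hq h.symm
  have aux : ∀ {s t : Finset ℕ}, IsSeif s → (∀ J ∈ s, ∃ l ∈ t, l ∣ J) →
      (∀ J ∈ t, ∃ l ∈ s, l ∣ J) → s ⊆ t := by
    intro s t hs hst hts J hJ
    obtain ⟨l, hl, hlJ⟩ := hst J hJ
    obtain ⟨k, hk, hkl⟩ := hts l hl
    have hkJ : k = J := by
      by_contra hne
      have h1 := hs.2.2 hk hJ hne
      have h2 : k = 1 := Nat.eq_one_of_dvd_coprimes h1 dvd_rfl (hkl.trans hlJ)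
      have := hs.2.1 k hk
      omega
    have hlJ' : l = J := Nat.dvd_antisymm hlJ (hkJ ▸ hkl)
    exact hlJ' ▸ hl
  exact Finset.Subset.antisymm (aux hp h1 h2) (aux hp' h2 h1)

end Pool.Agent.H99.Seif
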