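import Pool.Agent.H99.Seif.Wt

/-!
# Asymptotic expansions of factorially divergent series: linear properties

`hasExp_unique`: by subtraction `HasExp A 0 a b` (with the differences); by induction on `k` the
coefficients `k` of `a` and `b` vanish: with `R = k + 1` the expansion has the single term
`(a_k + (-1) ^ m b_k) W (m - k)`, which is `≤ C W (m - k - 1)`, and
`W (m - k - 1) / W (m - k) → 0`; take even and odd `m`.
`hasExp_of_small`: from `W_geom`; `hasExp_of_geom`: from `W_conv` and `hasExp_of_small`.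
`hasExp_rescale`: `coeff m (rescale (-1) f) = (-1) ^ m coeff m f`, and
`(-1) ^ m (a_k + (-1) ^ m b_k) = b_k + (-1) ^ m a_k`.
-/

open PowerSeries Finset

namespace Pool.Agent.H99.Seif

theorem hasExp_add {A : ℝ} {f g a b a' b' : ℝ⟦X⟧} (hf : HasExp A f a b) (hg : HasExp A g a' b') :
    HasExp A (f + g) (a + a') (b + b') := by
  intro R
  obtain ⟨C₁, h₁⟩ := hf R
  obtain ⟨C₂, h₂⟩ := hg R
  refine ⟨C₁ + C₂, fun m hm => ?_⟩
  have e : coeff m (f + g) - ∑ k ∈ range R, (coeff k (a + a') + (-1) ^ m * coeff k (b + b')) *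
      W A (m - k) =
      (coeff m f - ∑ k ∈ range R, (coeff k a + (-1) ^ m * coeff k b) * W A (m - k)) +
      (coeff m g - ∑ k ∈ range R, (coeff k a' + (-1) ^ m * coeff k b') * W A (m - k)) := by
    have e1 : ∑ k ∈ range R, (coeff k (a + a') + (-1) ^ m * coeff k (b + b')) * W A (m - k) =
        ∑ k ∈ range R, (coeff k a + (-1) ^ m * coeff k b) * W A (m - k) +
        ∑ k ∈ range R, (coeff k a' + (-1) ^ m * coeff k b') * W A (m - k) := by
      rw [← sum_add_distrib]
      refine sum_congr rfl fun k _ => ?_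
      rw [map_add, map_add]
      ring
    rw [e1, map_add]
    ring
  rw [e, add_mul]
  exact (abs_add_le _ _).trans (add_le_add (h₁ m hm) (h₂ m hm))

theorem hasExp_C_mul {A : ℝ} {f a b : ℝ⟦X⟧} (hf : HasExp A f a b) (c : ℝ) :
    HasExp A (C c * f) (C c * a) (C c * b) := by
  intro R
  obtain ⟨C₁, h₁⟩ := hf R
  refine ⟨|c| * C₁, fun m hm => ?_⟩
  have e : coeff m (C c * f) - ∑ k ∈ range R, (coeff k (C c * a) + (-1) ^ m *
      coeff k (C c * b)) * W A (m - k) =
      c * (coeff m f - ∑ k ∈ range R, (coeff k a + (-1) ^ m * coeff k b) * W A (m - k)) := by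
    rw [mul_sub, mul_sum, coeff_C_mul]
    congr 1
    refine sum_congr rfl fun k _ => ?_
    rw [coeff_C_mul, coeff_C_mul]
    ring
  rw [e, abs_mul, mul_assoc]
  exact mul_le_mul_of_nonneg_left (h₁ m hm) (abs_nonneg c)

theorem hasExp_sub {A : ℝ} {f g a b a' b' : ℝ⟦X⟧} (hf : HasExp A f a b) (hg : HasExp A g a' b') :
    HasExp A (f - g) (a - a') (b - b') := by
  have h := hasExp_add hf (hasExp_C_mul hg (-1))
  have e : ∀ x y : ℝ⟦X⟧, x + C (-1 : ℝ) * y = x - y := by
    intro x y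
    rw [map_neg, map_one]
    ring
  rwa [e, e, e] at h

private theorem hasExp_zero_of_bdd {x D : ℝ} (h : ∀ n : ℕ, |x| * n ≤ D) : x = 0 := by
  by_contra hx
  have hx' : 0 < |x| := abs_pos.2 hx
  obtain ⟨n, hn⟩ := exists_nat_gt (D / |x|)
  rw [div_lt_iff₀ hx'] at hn
  have := h n
  linarith [mul_comm (n : ℝ) |x|]

private theorem hasExp_zero {A : ℝ} (hA : 0 < A) {a b : ℝ⟦X⟧} (hf : HasExp A 0 a b) :
    ∀ k, coeff k a = 0 ∧ coeff k b = 0 := by
  intro k
  induction k using Nat.strong_induction_on with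
  | _ k ih =>
    obtain ⟨C₁, h₁⟩ := hf (k + 1)
    obtain ⟨C₂, hC₂, h₂⟩ := W_step hA
    have hb : ∀ m ≥ k + 1, |coeff k a + (-1) ^ m * coeff k b| * ((m - k : ℕ) : ℝ) ≤
        |C₁| * C₂ := by
      intro m hm
      have h3 := h₁ m hm
      rw [sum_range_succ, sum_eq_zero (fun j hj => by
        rw [(ih j (mem_range.1 hj)).1, (ih j (mem_range.1 hj)).2]
        ring), zero_add, map_zero, zero_sub, abs_neg, abs_mul, abs_of_pos (W_pos hA _)] at h3
      have h4 := h₂ (m - k) (by omega)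
      have e1 : m - (k + 1) = m - k - 1 := by omega
      rw [e1] at h3
      have hW1 := W_pos hA (m - k)
      have hW2 := W_pos hA (m - k - 1)
      have h5 : |coeff k a + (-1) ^ m * coeff k b| * W A (m - k) ≤ |C₁| * W A (m - k - 1) :=
        h3.trans (mul_le_mul_of_nonneg_right (le_abs_self _) hW2.le)
      have h6 : (|coeff k a + (-1) ^ m * coeff k b| * ((m - k : ℕ) : ℝ)) * W A (m - k) ≤
          (|C₁| * C₂) * W A (m - k) := by
        calc (|coeff k a + (-1) ^ m * coeff k b| * ((m - k : ℕ) : ℝ)) * W A (m - k)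
            = (|coeff k a + (-1) ^ m * coeff k b| * W A (m - k)) * ((m - k : ℕ) : ℝ) := by ring
          _ ≤ (|C₁| * W A (m - k - 1)) * ((m - k : ℕ) : ℝ) :=
              mul_le_mul_of_nonneg_right h5 (Nat.cast_nonneg _)
          _ = |C₁| * (((m - k : ℕ) : ℝ) * W A (m - k - 1)) := by ring
          _ ≤ |C₁| * (C₂ * W A (m - k)) := mul_le_mul_of_nonneg_left h4 (abs_nonneg _)
          _ = (|C₁| * C₂) * W A (m - k) := by ring
      exact le_of_mul_le_mul_right h6 hW1
    have hplus : coeff k a + coeff k b = 0 := by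
      apply hasExp_zero_of_bdd (D := |C₁| * C₂)
      intro n
      have h3 := hb (2 * (n + k + 1)) (by omega)
      rw [pow_mul, neg_one_sq, one_pow, one_mul] at h3
      refine le_trans (mul_le_mul_of_nonneg_left ?_ (abs_nonneg _)) h3
      exact_mod_cast (by omega : n ≤ 2 * (n + k + 1) - k)
    have hminus : coeff k a - coeff k b = 0 := by
      apply hasExp_zero_of_bdd (D := |C₁| * C₂)
      intro n
      have h3 := hb (2 * (n + k + 1) + 1) (by omega)
      rw [pow_succ, pow_mul, neg_one_sq, one_pow, one_mul] at h3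
      have e2 : coeff k a + -1 * coeff k b = coeff k a - coeff k b := by ring
      rw [e2] at h3
      refine le_trans (mul_le_mul_of_nonneg_left ?_ (abs_nonneg _)) h3
      exact_mod_cast (by omega : n ≤ 2 * (n + k + 1) + 1 - k)
    constructor <;> linarith

theorem hasExp_unique {A : ℝ} (hA : 0 < A) {f a b a' b' : ℝ⟦X⟧} (hf : HasExp A f a b)
    (hf' : HasExp A f a' b') : a = a' ∧ b = b' := by
  have h := hasExp_sub hf hf'
  rw [sub_self] at h
  have h2 := hasExp_zero hA h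
  constructor
  · ext k
    have h3 := (h2 k).1
    rw [map_sub] at h3
    linarith
  · ext k
    have h3 := (h2 k).2
    rw [map_sub] at h3
    linarith

theorem hasExp_of_small {A θ K : ℝ} (hA : 0 < A) (h0 : 0 < θ) (h1 : θ < 1) {f : ℝ⟦X⟧}
    (hf : ∀ m, |coeff m f| ≤ K * θ ^ m * W A m) : HasExp A f 0 0 := by
  intro R
  obtain ⟨C₁, hC₁, h⟩ := W_geom hA h0 h1 R
  refine ⟨|K| * C₁, fun m hm => ?_⟩
  have e : ∑ k ∈ range R, (coeff k (0 : ℝ⟦X⟧) + (-1) ^ m * coeff k (0 : ℝ⟦X⟧)) * W A (m - k) =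
      0 := by
    refine sum_eq_zero fun k _ => ?_
    rw [map_zero]
    ring
  rw [e, sub_zero]
  have hW := W_pos hA m
  calc |coeff m f| ≤ K * θ ^ m * W A m := hf m
    _ = K * (θ ^ m * W A m) := by ring
    _ ≤ |K| * (θ ^ m * W A m) := mul_le_mul_of_nonneg_right (le_abs_self _) (by positivity)
    _ ≤ |K| * (C₁ * W A (m - R)) := mul_le_mul_of_nonneg_left (h m hm) (abs_nonneg _)
    _ = |K| * C₁ * W A (m - R) := by ring

theorem hasExp_of_geom {A ρ K : ℝ} (hA : 0 < A) {f : ℝ⟦X⟧}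
    (hf : ∀ m, |coeff m f| ≤ K * ρ ^ m) : HasExp A f 0 0 := by
  obtain ⟨C₁, hC₁, h⟩ := W_conv hA ρ
  refine hasExp_of_small (θ := 1 / 2) (K := |K| * C₁) hA (by norm_num) (by norm_num)
    fun m => ?_
  calc |coeff m f| ≤ K * ρ ^ m := hf m
    _ ≤ |K * ρ ^ m| := le_abs_self _
    _ = |K| * |ρ| ^ m := by rw [abs_mul, abs_pow]
    _ ≤ |K| * (C₁ * (1 / 2) ^ m * W A m) := mul_le_mul_of_nonneg_left (h m) (abs_nonneg _)
    _ = |K| * C₁ * (1 / 2) ^ m * W A m := by ring

theorem hasExp_rescale {A : ℝ} {f a b : ℝ⟦X⟧} (hf : HasExp A f a b) :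
    HasExp A (rescale (-1 : ℝ) f) b a := by
  intro R
  obtain ⟨C₁, h₁⟩ := hf R
  refine ⟨C₁, fun m hm => ?_⟩
  have hs : ((-1 : ℝ) ^ m) * (-1) ^ m = 1 := by
    rw [← mul_pow]
    norm_num
  have e : coeff m (rescale (-1 : ℝ) f) - ∑ k ∈ range R, (coeff k b + (-1) ^ m * coeff k a) *
      W A (m - k) = (-1) ^ m *
      (coeff m f - ∑ k ∈ range R, (coeff k a + (-1) ^ m * coeff k b) * W A (m - k)) := by
    rw [mul_sub, mul_sum, coeff_rescale]
    congr 1
    refine sum_congr rfl fun k _ => ?_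
    linear_combination (-(coeff k b * W A (m - k))) * hs
  rw [e, abs_mul, abs_pow, abs_neg, abs_one, one_pow, one_mul]
  exact h₁ m hm

end Pool.Agent.H99.Seif
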