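import Pool.Agent.H99.Seif.Poles
import Pool.Agent.H99.Seif.HasExp

/-!
# The leading singularity of `V`

`poles` with `J = 1` (`zn p 1 = 0` because all `k ∈ p` are at least 2): `phi_m = Q (m) (pt 1)⁻¹ ^ m +
O (r ^ (-m))`, `r = 9 π ^ 2 < 16 π ^ 2`, `Q ≠ 0` of degree `N - 3`. With `P = ∏ k`,
`A = P / (4 π ^ 2)`, `pt 1 = - 4 π ^ 2`: `V_m = phi_m om m (-P) ^ m = Q (m) W A m + O ((4/9)^m W A m)`.
Write `Q (m) = ∑ k < N - 2, q k * ∏ i < k, (A (4 (m + i) + 6))` (the products are polynomials in `m`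
of degree `k` with leading coefficient `(4 A) ^ k`, so they form a basis; `q (N - 3) ≠ 0`), so
`Q (m) W A m = ∑ k < N - 2, q k * W A (m + k)` by `W_succ`. Hence for `m ≥ K`
`coeff m (X ^ K * V) = V_{m-K} = ∑ k, q k * W A (m - (K - k)) + small`, which is the expansion with
`a = ∑ k, C (q k) * X ^ (K - k)` (the terms with `R ≤ K - k` go to the error, `W_shift`).
`top_small`: `|V_m| ≤ C (P / r) ^ m om m` for every `r < 4 π ^ 2` (`poles` with `J = 0`), so it is
`≤ C θ ^ m W (P' / (4 π ^ 2)) m` with `θ < 1` if `P < P'`; the shift by `X ^ K` with `W_shift`.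
-/

open PowerSeries Finset

namespace Pool.Agent.H99.Seif

private theorem top_fin {A : ℝ} (hA : 0 < A) (F : ℕ → ℝ) (R M : ℕ)
    (h : ∃ C : ℝ, ∀ m, R ≤ m → M ≤ m → |F m| ≤ C * W A (m - R)) :
    ∃ C : ℝ, ∀ m ≥ R, |F m| ≤ C * W A (m - R) := by
  obtain ⟨C, hC⟩ := h
  refine ⟨|C| + ∑ m ∈ range M, |F m| / W A (m - R), fun m hm => ?_⟩
  have hW : ∀ m, 0 < W A (m - R) := fun m => W_pos hA _
  have hS : 0 ≤ ∑ m ∈ range M, |F m| / W A (m - R) :=
    sum_nonneg fun m _ => div_nonneg (abs_nonneg _) (hW m).le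
  by_cases hM : M ≤ m
  · refine (hC m hm hM).trans (mul_le_mul_of_nonneg_right ?_ (hW m).le)
    have := le_abs_self C
    linarith
  · have h1 : |F m| / W A (m - R) ≤ ∑ m ∈ range M, |F m| / W A (m - R) :=
      single_le_sum (f := fun m => |F m| / W A (m - R))
        (fun m _ => div_nonneg (abs_nonneg _) (hW m).le) (mem_range.2 (by omega))
    have h2 : |F m| / W A (m - R) ≤ |C| + ∑ m ∈ range M, |F m| / W A (m - R) := by
      have := abs_nonneg C
      linarith
    rwa [div_le_iff₀ (hW m)] at h2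

/-- small series, shifted -/
private theorem top_smallshift {A θ B : ℝ} (hA : 0 < A) (h0 : 0 < θ) (h1 : θ < 1) {g : ℝ⟦X⟧}
    (K : ℕ) (hg : ∀ m, |coeff m g| ≤ B * θ ^ m * W A m) : HasExp A (X ^ K * g) 0 0 := by
  intro R
  have hB : 0 ≤ B := by
    have h2 := (abs_nonneg _).trans (hg 0)
    rw [pow_zero, mul_one] at h2
    exact nonneg_of_mul_nonneg_left h2 (W_pos hA 0)
  apply top_fin hA _ R K
  have e1 : ∀ m, K ≤ m → coeff m (X ^ K * g) - ∑ k ∈ range R,
      (coeff k (0 : ℝ⟦X⟧) + (-1) ^ m * coeff k (0 : ℝ⟦X⟧)) * W A (m - k) = coeff (m - K) g := by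
    intro m hm
    rw [coeff_X_pow_mul', if_pos hm]
    simp
  rcases le_total R K with hRK | hKR
  · obtain ⟨C, hC0, hC⟩ := W_shift hA hRK
    refine ⟨B * C, fun m hm hK => ?_⟩
    rw [e1 m hK]
    refine (hg (m - K)).trans ?_
    have h3 : θ ^ (m - K) ≤ 1 := pow_le_one₀ h0.le h1.le
    have h4 := hC m hK
    have h5 : 0 < W A (m - K) := W_pos hA _
    calc B * θ ^ (m - K) * W A (m - K) ≤ B * 1 * W A (m - K) := by
          refine mul_le_mul_of_nonneg_right (mul_le_mul_of_nonneg_left h3 hB) h5.le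
      _ ≤ B * 1 * (C * W A (m - R)) := mul_le_mul_of_nonneg_left h4 (by linarith)
      _ = B * C * W A (m - R) := by ring
  · obtain ⟨C, hC0, hC⟩ := W_geom hA h0 h1 (R - K)
    refine ⟨B * C, fun m hm hK => ?_⟩
    rw [e1 m hK]
    refine (hg (m - K)).trans ?_
    have h4 := hC (m - K) (by omega)
    have h5 : m - K - (R - K) = m - R := by omega
    rw [h5] at h4
    calc B * θ ^ (m - K) * W A (m - K) = B * (θ ^ (m - K) * W A (m - K)) := by ring
      _ ≤ B * (C * W A (m - R)) := mul_le_mul_of_nonneg_left h4 hB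
      _ = B * C * W A (m - R) := by ring

/-- the polynomial `W A (m + k) / W A m` -/
private noncomputable def topF (A : ℝ) (k : ℕ) : Polynomial ℝ :=
  ∏ i ∈ range k, (Polynomial.C (4 * A) * Polynomial.X + Polynomial.C (A * (4 * i + 6)))

private theorem topF_eval (A : ℝ) (k m : ℕ) :
    (topF A k).eval (m : ℝ) * W A m = W A (m + k) := by
  induction k with
  | zero => simp [topF]
  | succ k ih =>
    have h1 : (topF A (k + 1)).eval (m : ℝ) =
        (topF A k).eval (m : ℝ) * (4 * A * m + A * (4 * k + 6)) := by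
      unfold topF
      rw [prod_range_succ]
      simp
    rw [h1, ← add_assoc, W_succ, ← ih]
    push_cast
    ring

private theorem topF_natDegree (A : ℝ) (k : ℕ) : (topF A k).natDegree ≤ k := by
  unfold topF
  refine (Polynomial.natDegree_prod_le _ _).trans ?_
  refine (sum_le_sum (g := fun _ => 1) fun i _ => Polynomial.natDegree_linear_le).trans ?_
  simp

private theorem topF_coeff (A : ℝ) (k : ℕ) : (topF A k).coeff k = (4 * A) ^ k := by
  induction k with
  | zero => simp [topF]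
  | succ k ih =>
    have h1 : topF A (k + 1) = topF A k *
        (Polynomial.C (4 * A) * Polynomial.X + Polynomial.C (A * (4 * k + 6))) := by
      unfold topF
      rw [prod_range_succ]
    rw [h1, mul_add, Polynomial.coeff_add]
    have h2 : (topF A k * (Polynomial.C (4 * A) * Polynomial.X)).coeff (k + 1) =
        (4 * A) ^ k * (4 * A) := by
      rw [← mul_assoc, Polynomial.coeff_mul_X, Polynomial.coeff_mul_C, ih]
    have h3 : (topF A k * Polynomial.C (A * (4 * k + 6))).coeff (k + 1) = 0 := by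
      rw [Polynomial.coeff_mul_C, Polynomial.coeff_eq_zero_of_natDegree_lt, zero_mul]
      exact Nat.lt_succ_of_le (topF_natDegree A k)
    rw [h2, h3, add_zero, pow_succ]

private theorem top_basis {A : ℝ} (hA : 0 < A) (d : ℕ) : ∀ Q : Polynomial ℝ, Q.natDegree ≤ d →
    ∃ q : ℕ → ℝ, q d = Q.coeff d / (4 * A) ^ d ∧
      ∀ m : ℕ, Q.eval (m : ℝ) * W A m = ∑ k ∈ range (d + 1), q k * W A (m + k) := by
  induction d with
  | zero =>
    intro Q hQ
    refine ⟨fun _ => Q.coeff 0, by simp, fun m => ?_⟩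
    rw [Polynomial.eq_C_of_natDegree_le_zero hQ]
    simp
  | succ d ih =>
    intro Q hQ
    set c : ℝ := Q.coeff (d + 1) / (4 * A) ^ (d + 1) with hc
    have hA4 : (4 * A) ^ (d + 1) ≠ 0 := by positivity
    have hdeg : (Q - Polynomial.C c * topF A (d + 1)).natDegree ≤ d := by
      rw [Polynomial.natDegree_le_iff_coeff_eq_zero]
      intro N hN
      rw [Polynomial.coeff_sub, Polynomial.coeff_C_mul]
      rcases Nat.lt_or_ge (d + 1) N with h | h
      · rw [Polynomial.coeff_eq_zero_of_natDegree_lt (lt_of_le_of_lt hQ h),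
          Polynomial.coeff_eq_zero_of_natDegree_lt (lt_of_le_of_lt (topF_natDegree A _) h)]
        simp
      · have hN' : N = d + 1 := by omega
        rw [hN', topF_coeff, hc, div_mul_cancel₀ _ hA4, sub_self]
    obtain ⟨q, _, hq⟩ := ih _ hdeg
    refine ⟨fun k => if k = d + 1 then c else q k, by simp [hc], fun m => ?_⟩
    rw [sum_range_succ]
    have h1 : ∑ k ∈ range (d + 1), (if k = d + 1 then c else q k) * W A (m + k) =
        ∑ k ∈ range (d + 1), q k * W A (m + k) := by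
      refine sum_congr rfl fun k hk => ?_
      rw [mem_range] at hk
      rw [if_neg (by omega)]
    have h2 : (fun k => if k = d + 1 then c else q k) (d + 1) = c := if_pos rfl
    rw [h1, ← hq m, h2, ← topF_eval A (d + 1) m]
    simp only [Polynomial.eval_sub, Polynomial.eval_mul, Polynomial.eval_C]
    ring

private theorem top_main {A : ℝ} (hA : 0 < A) (d K : ℕ) (hdK : d ≤ K) (q : ℕ → ℝ) (f : ℝ⟦X⟧)
    (hf : ∀ m, coeff m f = ∑ k ∈ range (d + 1), q k * W A (m + k)) :
    HasExp A (X ^ K * f) (∑ k ∈ range (d + 1), C (q k) * X ^ (K - k)) 0 := by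
  intro R
  apply top_fin hA _ R K
  have hsh : ∀ k, ∃ C : ℝ, 0 < C ∧ ∀ m, K - k ≤ m → R ≤ K - k →
      W A (m - (K - k)) ≤ C * W A (m - R) := by
    intro k
    by_cases h : R ≤ K - k
    · obtain ⟨C, hC0, hC⟩ := W_shift hA h
      exact ⟨C, hC0, fun m hm _ => hC m hm⟩
    · exact ⟨1, one_pos, fun m _ h' => absurd h' h⟩
  choose Cs hCs0 hCs using hsh
  refine ⟨∑ k ∈ range (d + 1), |q k| * Cs k, fun m hR hK => ?_⟩
  have e1 : coeff m (X ^ K * f) = ∑ k ∈ range (d + 1), q k * W A (m - (K - k)) := by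
    rw [coeff_X_pow_mul', if_pos hK, hf]
    refine sum_congr rfl fun k hk => ?_
    rw [mem_range] at hk
    have : m - K + k = m - (K - k) := by omega
    rw [this]
  have e2 : ∑ j ∈ range R, (coeff j (∑ k ∈ range (d + 1), C (q k) * X ^ (K - k)) +
      (-1) ^ m * coeff j (0 : ℝ⟦X⟧)) * W A (m - j) =
      ∑ k ∈ range (d + 1), q k * (if K - k < R then W A (m - (K - k)) else 0) := by
    have h1 : ∀ j ∈ range R, (coeff j (∑ k ∈ range (d + 1), C (q k) * X ^ (K - k)) +
        (-1) ^ m * coeff j (0 : ℝ⟦X⟧)) * W A (m - j) =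
        ∑ k ∈ range (d + 1), q k * (if j = K - k then W A (m - (K - k)) else 0) := by
      intro j _
      rw [map_zero, mul_zero, add_zero, map_sum, sum_mul]
      refine sum_congr rfl fun k _ => ?_
      rw [coeff_C_mul_X_pow]
      split_ifs with h
      · rw [h]
      · ring
    rw [sum_congr rfl h1, sum_comm]
    refine sum_congr rfl fun k _ => ?_
    rw [← mul_sum]
    congr 1
    rw [sum_ite_eq']
    simp only [mem_range]
  rw [e1, e2, ← sum_sub_distrib]
  refine (abs_sum_le_sum_abs _ _).trans ?_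
  rw [sum_mul]
  refine sum_le_sum fun k hk => ?_
  rw [mem_range] at hk
  rw [← mul_sub, abs_mul, mul_assoc]
  refine mul_le_mul_of_nonneg_left ?_ (abs_nonneg _)
  have hWR : 0 < W A (m - R) := W_pos hA _
  by_cases h : K - k < R
  · rw [if_pos h, sub_self, abs_zero]
    exact mul_nonneg (hCs0 k).le hWR.le
  · rw [if_neg h, sub_zero, abs_of_pos (W_pos hA _)]
    exact hCs k m (by omega) (by omega)

private theorem top_prod_pos {p : Finset ℕ} (hp : IsSeif p) : 0 < ∏ k ∈ p, (k : ℝ) :=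
  prod_pos fun k hk => by
    have := hp.2.1 k hk
    exact_mod_cast (by omega : 0 < k)

theorem top {p : Finset ℕ} (hp : IsSeif p) {K : ℕ} (hK : p.card ≤ K) : ∃ q : ℕ → ℝ,
    q (p.card - 3) ≠ 0 ∧ HasExp ((∏ k ∈ p, (k : ℝ)) / (4 * Real.pi ^ 2)) (X ^ K * V (-1) p)
      (∑ k ∈ range (p.card - 2), C (q k) * X ^ (K - k)) 0 := by
  have hcard := hp.1
  have hP := top_prod_pos hp
  set P : ℝ := ∏ k ∈ p, (k : ℝ) with hPdef
  have hpi : 0 < Real.pi := Real.pi_pos
  have hA : 0 < P / (4 * Real.pi ^ 2) := by positivity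
  set A : ℝ := P / (4 * Real.pi ^ 2) with hAdef
  obtain ⟨Q, hQ, hQ1⟩ := poles hp 1
  have hzn : zn p 1 = 0 := by
    unfold zn
    rw [card_eq_zero, filter_eq_empty_iff]
    intro k hk hk1
    have := hp.2.1 k hk
    have := Nat.le_of_dvd one_pos hk1
    omega
  obtain ⟨_, hQ2⟩ := hQ1 1 (by simp)
  rw [hzn] at hQ2
  obtain ⟨hQne, hQdeg⟩ := hQ2 (by omega)
  have hdeg : (Q 1).natDegree = p.card - 3 := by omega
  obtain ⟨q, hqd, hq⟩ := top_basis hA (p.card - 3) (Q 1) hdeg.le
  refine ⟨q, ?_, ?_⟩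
  · rw [hqd, ← hdeg]
    have h1 : (Q 1).leadingCoeff ≠ 0 := Polynomial.leadingCoeff_ne_zero.2 hQne
    exact div_ne_zero h1 (by positivity)
  · have hN : p.card - 2 = p.card - 3 + 1 := by omega
    rw [hN]
    set V0 : ℝ⟦X⟧ := PowerSeries.mk fun m => (Q 1).eval (m : ℝ) * W A m with hV0
    have hV0e : HasExp A (X ^ K * V0)
        (∑ k ∈ range (p.card - 3 + 1), C (q k) * X ^ (K - k)) 0 := by
      refine top_main hA _ K (by omega) q V0 fun m => ?_
      rw [hV0, coeff_mk]
      exact hq m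
    obtain ⟨C1, hC1⟩ := hQ (9 * Real.pi ^ 2) (by positivity) (by
      have : 0 < Real.pi ^ 2 := by positivity
      norm_num
      linarith)
    have hsmall : HasExp A (X ^ K * (V (-1) p - V0)) 0 0 := by
      refine top_smallshift hA (θ := 4 / 9) (B := C1) (by norm_num) (by norm_num) K fun m => ?_
      have h1 := hC1 m
      rw [map_sub, coeff_mk] at h1
      have hIcc : Icc 1 1 = {1} := rfl
      rw [hIcc, sum_singleton] at h1
      set e : ℝ := coeff m (phi p) - (Q 1).eval (m : ℝ) * ((pt 1)⁻¹) ^ m with he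
      have h2 : coeff m (V (-1) p - V0) = e * (om m * (-1 * P) ^ m) := by
        rw [map_sub, hV0, coeff_mk]
        unfold V
        rw [coeff_mk, he, sub_mul]
        have h3 : ((pt 1)⁻¹) ^ m * (-1 * P) ^ m = A ^ m := by
          rw [← mul_pow]
          congr 1
          unfold pt
          rw [hAdef]
          push_cast
          field_simp
        unfold W
        have h4 : (Q 1).eval (m : ℝ) * ((pt 1)⁻¹) ^ m * (om m * (-1 * P) ^ m) =
            (Q 1).eval (m : ℝ) * (om m * (((pt 1)⁻¹) ^ m * (-1 * P) ^ m)) := by ring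
        rw [h4, h3, hPdef]
        ring
      rw [h2, abs_mul, abs_mul, abs_of_pos (om_pos m), abs_pow]
      have h5 : |(-1 : ℝ) * P| = P := by
        rw [abs_mul, abs_neg, abs_one, one_mul, abs_of_pos hP]
      rw [h5]
      have h6 : (4 / 9 : ℝ) ^ m * W A m * (9 * Real.pi ^ 2) ^ m = om m * P ^ m := by
        unfold W
        have h7 : (4 / 9 : ℝ) ^ m * (om m * A ^ m) * (9 * Real.pi ^ 2) ^ m =
            om m * ((4 / 9 : ℝ) * A * (9 * Real.pi ^ 2)) ^ m := by
          rw [mul_pow ((4 / 9 : ℝ) * A), mul_pow (4 / 9 : ℝ) A]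
          generalize (4 / 9 : ℝ) ^ m = u
          generalize (9 * Real.pi ^ 2) ^ m = v
          ring
        rw [h7]
        congr 2
        rw [hAdef]
        field_simp
      rw [← h6]
      have h8 : 0 ≤ (4 / 9 : ℝ) ^ m * W A m := by
        have := W_pos hA m
        positivity
      calc |e| * ((4 / 9 : ℝ) ^ m * W A m * (9 * Real.pi ^ 2) ^ m)
          = |e| * (9 * Real.pi ^ 2) ^ m * ((4 / 9 : ℝ) ^ m * W A m) := by ring
        _ ≤ C1 * ((4 / 9 : ℝ) ^ m * W A m) := mul_le_mul_of_nonneg_right h1 h8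
        _ = C1 * (4 / 9) ^ m * W A m := by ring
    have hadd := hasExp_add hV0e hsmall
    rw [add_zero, add_zero, ← mul_add, add_sub_cancel] at hadd
    exact hadd

theorem top_small {p : Finset ℕ} (hp : IsSeif p) (K : ℕ) {s P : ℝ} (hs : |s| = 1)
    (hP : ∏ k ∈ p, (k : ℝ) < P) : HasExp (P / (4 * Real.pi ^ 2)) (X ^ K * V s p) 0 0 := by
  have hP0 := top_prod_pos hp
  set P0 : ℝ := ∏ k ∈ p, (k : ℝ) with hP0def
  have hPp : 0 < P := hP0.trans hP
  have hpi : 0 < Real.pi := Real.pi_pos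
  have hA : 0 < P / (4 * Real.pi ^ 2) := by positivity
  have hr : P0 / P < 1 := by rwa [div_lt_one hPp]
  have hr0 : 0 < P0 / P := by positivity
  set θ : ℝ := (P0 / P + 1) / 2 with hθ
  have hθ0 : 0 < θ := by positivity
  have hθ1 : θ < 1 := by rw [hθ]; linarith
  have hθr : P0 / P < θ := by rw [hθ]; linarith
  obtain ⟨Q, hQ, _⟩ := poles hp 0
  set r : ℝ := 4 * Real.pi ^ 2 * (P0 / P) / θ with hrdef
  have hrp : 0 < r := by positivity
  have hr4 : r < 4 * Real.pi ^ 2 * (((0 : ℕ) : ℝ) + 1) ^ 2 := by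
    rw [hrdef, div_lt_iff₀ hθ0]
    push_cast
    have : 0 < 4 * Real.pi ^ 2 := by positivity
    nlinarith
  obtain ⟨C1, hC1⟩ := hQ r hrp hr4
  refine top_smallshift hA (B := C1) hθ0 hθ1 K fun m => ?_
  have h1 := hC1 m
  rw [map_sub, coeff_mk] at h1
  have hIcc : Icc 1 0 = (∅ : Finset ℕ) := rfl
  rw [hIcc, sum_empty, sub_zero] at h1
  unfold V
  rw [coeff_mk, abs_mul, abs_mul, abs_of_pos (om_pos m), abs_pow, abs_mul, hs, one_mul,
    abs_of_pos hP0]
  have h6 : θ ^ m * W (P / (4 * Real.pi ^ 2)) m * r ^ m = om m * P0 ^ m := by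
    unfold W
    have h7 : θ ^ m * (om m * (P / (4 * Real.pi ^ 2)) ^ m) * r ^ m =
        om m * (θ * (P / (4 * Real.pi ^ 2)) * r) ^ m := by
      rw [mul_pow, mul_pow]
      ring
    rw [h7]
    congr 2
    rw [hrdef]
    field_simp
  rw [mul_assoc, ← h6]
  have h8 : 0 ≤ θ ^ m * W (P / (4 * Real.pi ^ 2)) m := by
    have := W_pos hA m
    positivity
  calc |coeff m (phi p)| * (θ ^ m * W (P / (4 * Real.pi ^ 2)) m * r ^ m)
      = |coeff m (phi p)| * r ^ m * (θ ^ m * W (P / (4 * Real.pi ^ 2)) m) := by ring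
    _ ≤ C1 * (θ ^ m * W (P / (4 * Real.pi ^ 2)) m) := mul_le_mul_of_nonneg_right h1 h8
    _ = C1 * θ ^ m * W (P / (4 * Real.pi ^ 2)) m := by ring

end Pool.Agent.H99.Seif
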