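import Pool.Agent.H99.Seif.Elim
import Pool.Agent.H99.Seif.Top
import Pool.Agent.H99.Seif.Dist

/-!
# The Ohtsuki series separates connected sums of Seifert fibred homology spheres
-/

open PowerSeries Finset

namespace Pool.Agent.H99.Seif

/-- The sign of an orientation. -/
noncomputable def sg (σ : Bool) : ℝ := if σ then 1 else -1

theorem abs_sg (σ : Bool) : |sg σ| = 1 := by
  unfold sg
  split_ifs <;> norm_num

theorem sg_not (σ : Bool) : sg (!σ) = -sg σ := by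
  unfold sg
  cases σ <;> simp

theorem rescale_V (s : ℝ) (p : Finset ℕ) : rescale (-1 : ℝ) (V s p) = V (-s) p := by
  ext m
  rw [coeff_rescale]
  unfold V
  rw [coeff_mk, coeff_mk, neg_mul, neg_pow (s * _)]
  ring

theorem constCoeff_V {p : Finset ℕ} (hp : IsSeif p) (s : ℝ) : constantCoeff (V s p) = 1 := by
  rw [← coeff_zero_eq_constantCoeff_apply]
  unfold V
  rw [coeff_mk, pow_zero, mul_one, coeff_zero_eq_constantCoeff_apply]
  have h1 : constantCoeff (phi p) = 1 := by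
    unfold phi
    rw [map_mul, map_prod, map_pow, PowerSeries.constantCoeff_inv, constCoeff_E le_rfl]
    rw [Finset.prod_congr rfl fun k hk => constCoeff_E (by have := hp.2.1 k hk; omega)]
    simp
  rw [h1]
  unfold om
  simp

theorem V_ne_zero {p : Finset ℕ} (hp : IsSeif p) (s : ℝ) : V s p ≠ 0 := by
  intro h
  have := constCoeff_V hp s
  rw [h, map_zero] at this
  exact zero_ne_one this

theorem hasExp_of_hol {A ρ : ℝ} (hA : 0 < A) (hρ : 0 < ρ) {f : ℝ⟦X⟧} (hf : Hol ρ f) :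
    HasExp A f 0 0 := by
  obtain ⟨K, hK⟩ := hf (ρ / 2) (by positivity) (by linarith)
  refine hasExp_of_geom (ρ := (ρ / 2)⁻¹) (K := K) hA fun m => ?_
  have h1 : 0 < (ρ / 2) ^ m := by positivity
  rw [inv_pow, ← div_eq_mul_inv, le_div_iff₀ h1]
  exact hK m

theorem hol_rescale {ρ : ℝ} {f : ℝ⟦X⟧} (hf : Hol ρ f) : Hol ρ (rescale (-1 : ℝ) f) := by
  intro r h0 h1
  obtain ⟨K, hK⟩ := hf r h0 h1
  refine ⟨K, fun m => ?_⟩
  rw [coeff_rescale, abs_mul, abs_pow, abs_neg, abs_one, one_pow, one_mul]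
  exact hK m

theorem hol_top {K N : ℕ} (q : ℕ → ℝ) :
    Hol 1 (∑ k ∈ range N, C (q k) * X ^ (K - k) : ℝ⟦X⟧) :=
  hol_sum _ fun _ _ => hol_mul (hol_C _ _) (hol_pow (hol_X _) _)

theorem top_ne_zero {K N k₀ : ℕ} {q : ℕ → ℝ} (hk : k₀ < N) (hN : N ≤ K) (hq : q k₀ ≠ 0) :
    (∑ k ∈ range N, C (q k) * X ^ (K - k) : ℝ⟦X⟧) ≠ 0 := by
  intro h
  have h1 := congrArg (coeff (K - k₀)) h
  rw [map_sum, Finset.sum_eq_single k₀, coeff_C_mul, coeff_X_pow, if_pos rfl, mul_one,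
    map_zero] at h1
  · exact hq h1
  · intro k hk' hne
    rw [mem_range] at hk'
    rw [coeff_C_mul, coeff_X_pow, if_neg (by omega), mul_zero]
  · intro hk'
    exact absurd (mem_range.2 hk) hk'

variable {ι : Type*} [Fintype ι] [DecidableEq ι]

/-- One half of the elimination step. -/
theorem step {σ : ι → Bool} {p : ι → Finset ℕ} (hp : ∀ i, IsSeif (p i))
    (hinj : ∀ i j, σ i = σ j → p i = p j → i = j) {c₁ c₂ : ℝ⟦X⟧} (h1 : c₁ ≠ 0) (h2 : c₂ ≠ 0)
    (hc₁ : Hol 1 c₁) (hc₂ : Hol 1 c₂) {n m : ι → ℕ}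
    (h : c₁ * ∏ i, V (sg (σ i)) (p i) ^ n i = c₂ * ∏ i, V (sg (σ i)) (p i) ^ m i) {i : ι}
    (hmax : ∀ j, ∏ k ∈ p j, k ≤ ∏ k ∈ p i, k) (hi : σ i = false) : n i = m i := by
  classical
  set P : ℕ := ∏ k ∈ p i, k with hP
  have hP0 : 0 < P := Finset.prod_pos fun k hk => by have := (hp i).2.1 k hk; omega
  set A : ℝ := (P : ℝ) / (4 * Real.pi ^ 2) with hA
  have hA0 : 0 < A := by positivity
  set K : ℕ := ∑ j, (p j).card with hK
  have hKj : ∀ j, (p j).card ≤ K := fun j =>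
    Finset.single_le_sum (f := fun j => (p j).card) (fun _ _ => Nat.zero_le _) (mem_univ j)
  have hex : ∀ j, ∃ q : ℕ → ℝ, q ((p j).card - 3) ≠ 0 ∧
      HasExp ((∏ k ∈ p j, (k : ℝ)) / (4 * Real.pi ^ 2)) (X ^ K * V (-1) (p j))
        (∑ k ∈ range ((p j).card - 2), C (q k) * X ^ (K - k)) 0 := fun j => top (hp j) (hKj j)
  choose q hq hqe using hex
  have hcast : ∀ j, ∏ k ∈ p j, (k : ℝ) = ((∏ k ∈ p j, k : ℕ) : ℝ) := fun j => by
    rw [Nat.cast_prod]
  set G : ι → ℝ⟦X⟧ := fun j => ∑ k ∈ range ((p j).card - 2), C (q j k) * X ^ (K - k) with hG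
  set v : ι → ℝ⟦X⟧ := fun j => X ^ K * V (sg (σ j)) (p j) with hv
  set g : ι → ℝ⟦X⟧ := fun j => if ∏ k ∈ p j, k = P ∧ σ j = false then G j else 0 with hg
  have hexp : ∀ j, ∃ b, HasExp A (v j) (g j) b := by
    intro j
    by_cases hj : ∏ k ∈ p j, k = P
    · have h3 := hqe j
      rw [hcast j, hj] at h3
      cases hs : σ j with
      | false =>
        refine ⟨0, ?_⟩
        simp only [hv, hg, hs, hj, and_self, if_true]
        have : sg false = -1 := by simp [sg]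
        rw [this]
        exact h3
      | true =>
        refine ⟨C ((-1) ^ K) * G j, ?_⟩
        simp only [hv, hg, hs, hj, Bool.true_eq_false, and_false, if_false]
        have h4 := hasExp_C_mul (hasExp_rescale h3) ((-1) ^ K)
        have h5 : C ((-1 : ℝ) ^ K) * rescale (-1 : ℝ) (X ^ K * V (-1) (p j)) =
            X ^ K * V (sg true) (p j) := by
          have h6 : sg true = -(-1) := by simp [sg]
          have h7 : rescale (-1 : ℝ) ((X : ℝ⟦X⟧) ^ K) = C ((-1 : ℝ) ^ K) * X ^ K := by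
            rw [map_pow, rescale_X, mul_pow, ← map_pow]
          rw [map_mul, rescale_V, h6, h7, ← mul_assoc, ← mul_assoc, ← map_mul, ← mul_pow]
          norm_num
        rw [h5, mul_zero] at h4
        exact h4
    · refine ⟨0, ?_⟩
      have h3 : g j = 0 := by
        simp only [hg]
        rw [if_neg fun h => hj h.1]
      rw [h3]
      refine top_small (hp j) K (abs_sg _) ?_
      rw [hcast j]
      exact_mod_cast lt_of_le_of_ne (hmax j) hj
  choose b hb using hexp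
  have hv0 : ∀ j, v j ≠ 0 := fun j => mul_ne_zero (pow_ne_zero _ X_ne_zero) (V_ne_zero (hp j) _)
  have hGne : ∀ j, G j ≠ 0 := fun j =>
    top_ne_zero (k₀ := (p j).card - 3) (by have := (hp j).1; omega)
      (by have := hKj j; omega) (hq j)
  have hgexp : ∀ j, HasExp A (g j) 0 0 := by
    intro j
    refine hasExp_of_hol hA0 one_pos ?_
    simp only [hg]
    split_ifs
    · exact hol_top _
    · have := hol_C (1 : ℝ) 0
      rwa [map_zero] at this
  have hdist : ∀ j l, j ≠ l → g j ≠ 0 → g l ≠ 0 → g j * v l ≠ g l * v j := by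
    intro j l hjl hj hl
    have hj' : ∏ k ∈ p j, k = P ∧ σ j = false := by
      by_contra hcon
      exact hj (if_neg hcon)
    have hl' : ∏ k ∈ p l, k = P ∧ σ l = false := by
      by_contra hcon
      exact hl (if_neg hcon)
    have hne : p j ≠ p l := fun h => hjl (hinj j l (hj'.2.trans hl'.2.symm) h)
    have h3 := dist (hp j) (hp l) hne (hj'.1.trans hl'.1.symm) (hKj j) (hKj l) (hq j) (hq l)
    intro hcon
    apply h3
    have hs : sg false = -1 := by simp [sg]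
    simp only [hg, hv, hj', hl', and_self, if_true, hs] at hcon
    have h4 : (X : ℝ⟦X⟧) ^ K * (G j * V (-1) (p l)) = X ^ K * (G l * V (-1) (p j)) := by
      linear_combination hcon
    exact mul_left_cancel₀ (pow_ne_zero _ X_ne_zero) h4
  have hrel : (c₁ * X ^ (K * ∑ j, m j)) * ∏ j, v j ^ n j =
      (c₂ * X ^ (K * ∑ j, n j)) * ∏ j, v j ^ m j := by
    have h3 : ∀ e : ι → ℕ, ∏ j, v j ^ e j =
        X ^ (K * ∑ j, e j) * ∏ j, V (sg (σ j)) (p j) ^ e j := by
      intro e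
      simp only [hv, mul_pow]
      rw [Finset.prod_mul_distrib, Finset.prod_pow_eq_pow_sum, ← pow_mul]
    rw [h3, h3]
    linear_combination (X ^ (K * ∑ j, m j) * X ^ (K * ∑ j, n j)) * h
  have hX : ∀ N : ℕ, HasExp A (c₁ * X ^ N) 0 0 := fun N =>
    hasExp_of_hol hA0 one_pos (hol_mul hc₁ (hol_pow (hol_X _) _))
  have hX' : ∀ N : ℕ, HasExp A (c₂ * X ^ N) 0 0 := fun N =>
    hasExp_of_hol hA0 one_pos (hol_mul hc₂ (hol_pow (hol_X _) _))
  refine elim hA0 hb hv0 hgexp hdist (mul_ne_zero h1 (pow_ne_zero _ X_ne_zero))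
    (mul_ne_zero h2 (pow_ne_zero _ X_ne_zero)) (hX _) (hX' _) hrel i ?_
  simp only [hg, hP, hi, and_self, if_true]
  exact hGne i

/-- The elimination step for both orientations. -/
theorem step_both {σ : ι → Bool} {p : ι → Finset ℕ} (hp : ∀ i, IsSeif (p i))
    (hinj : ∀ i j, σ i = σ j → p i = p j → i = j) {c₁ c₂ : ℝ⟦X⟧} (h1 : c₁ ≠ 0) (h2 : c₂ ≠ 0)
    (hc₁ : Hol 1 c₁) (hc₂ : Hol 1 c₂) {n m : ι → ℕ}
    (h : c₁ * ∏ i, V (sg (σ i)) (p i) ^ n i = c₂ * ∏ i, V (sg (σ i)) (p i) ^ m i) {i : ι}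
    (hmax : ∀ j, ∏ k ∈ p j, k ≤ ∏ k ∈ p i, k) : n i = m i := by
  cases hi : σ i with
  | false => exact step hp hinj h1 h2 hc₁ hc₂ h hmax hi
  | true =>
    have hr0 : ∀ {c : ℝ⟦X⟧}, c ≠ 0 → rescale (-1 : ℝ) c ≠ 0 := by
      intro c hc h0
      apply hc
      ext k
      have h3 := congrArg (coeff k) h0
      rw [coeff_rescale, map_zero] at h3
      rw [map_zero]
      exact (mul_eq_zero.1 h3).resolve_left (pow_ne_zero _ (by norm_num))
    refine step (σ := fun j => !(σ j)) hp (fun j l hjl => hinj j l (by simpa using hjl))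
      (hr0 h1) (hr0 h2) (hol_rescale hc₁) (hol_rescale hc₂) (n := n) (m := m) ?_ hmax
      (by simp [hi])
    have h3 := congrArg (rescale (-1 : ℝ)) h
    rw [map_mul, map_mul, map_prod, map_prod] at h3
    simp only [map_pow, rescale_V] at h3
    simp only [sg_not]
    exact h3

/-- Orientations and orders of the exceptional fibres. -/
abbrev Idx : Type := {x : Bool × Finset ℕ // IsSeif x.2}

theorem core (T : Finset Idx) : ∀ (n m : Idx → ℕ) (c₁ c₂ : ℝ⟦X⟧), c₁ ≠ 0 → c₂ ≠ 0 → Hol 1 c₁ →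
    Hol 1 c₂ → c₁ * ∏ x ∈ T, V (sg x.1.1) x.1.2 ^ n x = c₂ * ∏ x ∈ T, V (sg x.1.1) x.1.2 ^ m x →
    ∀ x ∈ T, n x = m x := by
  induction T using Finset.strongInduction with
  | H T ih =>
    intro n m c₁ c₂ h1 h2 hc₁ hc₂ h x hx
    obtain ⟨x₀, hx₀, hmax⟩ := Finset.exists_max_image T (fun y : Idx => ∏ k ∈ y.1.2, k) ⟨x, hx⟩
    have htop : ∀ y ∈ T, ∏ k ∈ y.1.2, k = ∏ k ∈ x₀.1.2, k → n y = m y := by
      intro y hy hyx
      have h3 := step_both (ι := {z // z ∈ T}) (σ := fun z => z.1.1.1) (p := fun z => z.1.1.2)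
        (fun z => z.1.2) (fun z w hs hp => Subtype.ext (Subtype.ext (Prod.ext hs hp))) h1 h2 hc₁ hc₂
        (n := fun z => n z.1) (m := fun z => m z.1)
        (by
          rw [Finset.prod_coe_sort T fun z => V (sg z.1.1) z.1.2 ^ n z,
            Finset.prod_coe_sort T fun z => V (sg z.1.1) z.1.2 ^ m z]
          exact h) (i := ⟨y, hy⟩) (fun z => (hmax z.1 z.2).trans hyx.symm.le)
      exact h3
    by_cases hxt : ∏ k ∈ x.1.2, k = ∏ k ∈ x₀.1.2, k
    · exact htop x hx hxt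
    · have hss : T.filter (fun y => ¬ ∏ k ∈ y.1.2, k = ∏ k ∈ x₀.1.2, k) ⊂ T :=
        Finset.filter_ssubset.2 ⟨x₀, hx₀, by simp⟩
      refine ih _ hss n m c₁ c₂ h1 h2 hc₁ hc₂ ?_ x (Finset.mem_filter.2 ⟨hx, hxt⟩)
      have h3 : ∀ e : Idx → ℕ, ∏ y ∈ T, V (sg y.1.1) y.1.2 ^ e y =
          (∏ y ∈ T.filter (fun y => ∏ k ∈ y.1.2, k = ∏ k ∈ x₀.1.2, k), V (sg y.1.1) y.1.2 ^ e y) *
          ∏ y ∈ T.filter (fun y => ¬ ∏ k ∈ y.1.2, k = ∏ k ∈ x₀.1.2, k),
            V (sg y.1.1) y.1.2 ^ e y := fun e =>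
        (Finset.prod_filter_mul_prod_filter_not _ _ _).symm
      have h4 : ∏ y ∈ T.filter (fun y => ∏ k ∈ y.1.2, k = ∏ k ∈ x₀.1.2, k),
          V (sg y.1.1) y.1.2 ^ n y =
          ∏ y ∈ T.filter (fun y => ∏ k ∈ y.1.2, k = ∏ k ∈ x₀.1.2, k),
          V (sg y.1.1) y.1.2 ^ m y := by
        refine Finset.prod_congr rfl fun y hy => ?_
        rw [Finset.mem_filter] at hy
        rw [htop y hy.1 hy.2]
      rw [h3, h3, h4] at h
      have h5 : ∏ y ∈ T.filter (fun y => ∏ k ∈ y.1.2, k = ∏ k ∈ x₀.1.2, k),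
          V (sg y.1.1) y.1.2 ^ m y ≠ 0 :=
        Finset.prod_ne_zero_iff.2 fun y _ => pow_ne_zero _ (V_ne_zero y.2 _)
      refine mul_left_cancel₀ h5 ?_
      linear_combination h

/-- `sinh (ħ / 2) / (ħ / 2)`. -/
noncomputable def sinhc : ℝ⟦X⟧ :=
  PowerSeries.mk fun n => if Even n then (1 / 2) ^ n / (n + 1).factorial else 0

theorem hol_sinhc : Hol 1 sinhc := by
  intro r h0 h1
  refine ⟨1, fun m => ?_⟩
  unfold sinhc
  rw [coeff_mk]
  have h2 : r ^ m ≤ 1 := pow_le_one₀ h0.le h1.le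
  have h3 : |(if Even m then (1 / 2 : ℝ) ^ m / (m + 1).factorial else 0)| ≤ 1 := by
    split_ifs
    · rw [abs_of_nonneg (by positivity)]
      rw [div_le_one (by positivity)]
      have h4 : (1 / 2 : ℝ) ^ m ≤ 1 := pow_le_one₀ (by norm_num) (by norm_num)
      have h5 : (1 : ℝ) ≤ (m + 1).factorial := by
        exact_mod_cast Nat.one_le_iff_ne_zero.2 (Nat.factorial_ne_zero _)
      linarith
    · simp
  calc _ ≤ (1 : ℝ) * 1 := mul_le_mul h3 h2 (by positivity) zero_le_one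
    _ = 1 := one_mul 1

theorem constCoeff_sinhc : constantCoeff sinhc = 1 := by
  rw [← coeff_zero_eq_constantCoeff_apply]
  unfold sinhc
  rw [coeff_mk]
  simp

theorem sinhc_ne_zero : sinhc ≠ 0 := by
  intro h
  have := constCoeff_sinhc
  rw [h, map_zero] at this
  exact zero_ne_one this

theorem hol_exp (κ : ℝ) : Hol 1 (rescale κ (exp ℝ)) := by
  intro r h0 h1
  refine ⟨Real.exp |κ|, fun m => ?_⟩
  rw [coeff_rescale, coeff_exp, abs_mul, abs_pow]
  have h2 : r ^ m ≤ 1 := pow_le_one₀ h0.le h1.le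
  have h3 : |κ| ^ m / m.factorial ≤ Real.exp |κ| := Real.pow_div_factorial_le_exp _ (abs_nonneg _) _
  have h4 : |κ| ^ m * |(algebraMap ℚ ℝ) (1 / (m.factorial : ℚ))| = |κ| ^ m / m.factorial := by
    have h5 : (0 : ℝ) ≤ 1 / (m.factorial : ℝ) := by positivity
    rw [map_div₀, map_one, map_natCast, abs_of_nonneg h5, mul_one_div]
  rw [h4]
  calc _ ≤ Real.exp |κ| * 1 := mul_le_mul h3 h2 (by positivity) (by positivity)
    _ = _ := mul_one _

theorem exp_ne_zero (κ : ℝ) : rescale κ (exp ℝ) ≠ 0 := by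
  intro h
  have h1 := congrArg (coeff 0) h
  rw [coeff_rescale, coeff_exp, map_zero] at h1
  simp at h1

/-- The Ohtsuki series of a Seifert fibred homology sphere. -/
noncomputable def ohtsuki (κ : ℝ) (σ : Bool) (p : Finset ℕ) : ℝ⟦X⟧ :=
  rescale κ (exp ℝ) * V (sg σ) p * sinhc⁻¹

theorem separation (κ : Idx → ℝ) (a b : Idx →₀ ℕ)
    (h : a.prod (fun x e => ohtsuki (κ x) x.1.1 x.1.2 ^ e) =
      b.prod (fun x e => ohtsuki (κ x) x.1.1 x.1.2 ^ e)) : a = b := by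
  classical
  set T : Finset Idx := a.support ∪ b.support with hT
  have hS : sinhc * sinhc⁻¹ = 1 :=
    PowerSeries.mul_inv_cancel _ (by rw [constCoeff_sinhc]; exact one_ne_zero)
  have hp : ∀ c : Idx →₀ ℕ, c.support ⊆ T →
      c.prod (fun x e => ohtsuki (κ x) x.1.1 x.1.2 ^ e) * sinhc ^ (∑ x ∈ T, c x) =
        (∏ x ∈ T, rescale (κ x) (exp ℝ) ^ c x) * ∏ x ∈ T, V (sg x.1.1) x.1.2 ^ c x := by
    intro c hc
    rw [Finsupp.prod_of_support_subset _ hc _ (fun x _ => pow_zero _),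
      ← Finset.prod_pow_eq_pow_sum, ← Finset.prod_mul_distrib, ← Finset.prod_mul_distrib]
    refine Finset.prod_congr rfl fun x _ => ?_
    rw [← mul_pow, ← mul_pow]
    congr 1
    unfold ohtsuki
    linear_combination (rescale (κ x) (exp ℝ) * V (sg x.1.1) x.1.2) * hS
  have ha := hp a Finset.subset_union_left
  have hb := hp b Finset.subset_union_right
  have hne : ∀ c : Idx →₀ ℕ, ∏ x ∈ T, rescale (κ x) (exp ℝ) ^ c x ≠ 0 := fun c =>
    Finset.prod_ne_zero_iff.2 fun x _ => pow_ne_zero _ (exp_ne_zero _)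
  have hhol : ∀ c : Idx →₀ ℕ, Hol 1 (∏ x ∈ T, rescale (κ x) (exp ℝ) ^ c x) := fun c =>
    hol_prod _ fun x _ => hol_pow (hol_exp _) _
  have key := core T (fun x => a x) (fun x => b x)
    (sinhc ^ (∑ x ∈ T, b x) * ∏ x ∈ T, rescale (κ x) (exp ℝ) ^ a x)
    (sinhc ^ (∑ x ∈ T, a x) * ∏ x ∈ T, rescale (κ x) (exp ℝ) ^ b x)
    (mul_ne_zero (pow_ne_zero _ sinhc_ne_zero) (hne a))
    (mul_ne_zero (pow_ne_zero _ sinhc_ne_zero) (hne b))
    (hol_mul (hol_pow hol_sinhc _) (hhol a)) (hol_mul (hol_pow hol_sinhc _) (hhol b))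
    (by
      rw [mul_assoc, mul_assoc, ← ha, ← hb, h]
      ring)
  ext x
  by_cases hx : x ∈ T
  · exact key x hx
  · have h1 : x ∉ a.support := fun h => hx (Finset.mem_union_left _ h)
    have h2 : x ∉ b.support := fun h => hx (Finset.mem_union_right _ h)
    rw [Finsupp.notMem_support_iff] at h1 h2
    rw [h1, h2]

end Pool.Agent.H99.Seif
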