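import Mathlib

/-!
# The Ohtsuki series of Seifert fibred integral homology spheres
-/

open PowerSeries Finset

namespace Pool.Agent.H99.Seif

/-- The orders of the exceptional fibres: at least three pairwise coprime integers `≥ 2`. -/
def IsSeif (p : Finset ℕ) : Prop :=
  3 ≤ p.card ∧ (∀ k ∈ p, 2 ≤ k) ∧ (p : Set ℕ).Pairwise Nat.Coprime

/-- `sinh (x / (2 k)) / (x / (2 k))` as a power series in `y = x ^ 2`. -/
noncomputable def E (k : ℕ) : ℝ⟦X⟧ :=
  PowerSeries.mk fun m => 1 / ((2 * k : ℝ) ^ (2 * m) * (2 * m + 1).factorial)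

/-- `∏ k ∈ p, sinhc (x / (2 k)) / sinhc (x / 2) ^ (|p| - 2)` as a power series in `y = x ^ 2`. -/
noncomputable def phi (p : Finset ℕ) : ℝ⟦X⟧ := (∏ k ∈ p, E k) * ((E 1)⁻¹) ^ (p.card - 2)

/-- The weights `(2 m + 1)! / m!`. -/
noncomputable def om (m : ℕ) : ℝ := (2 * m + 1).factorial / m.factorial

/-- The Gaussian transform of `phi p`. -/
noncomputable def V (s : ℝ) (p : Finset ℕ) : ℝ⟦X⟧ :=
  PowerSeries.mk fun m => coeff m (phi p) * om m * (s * ∏ k ∈ p, (k : ℝ)) ^ m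

/-- The weights `om m * A ^ m`. -/
noncomputable def W (A : ℝ) (m : ℕ) : ℝ := om m * A ^ m

/-- Asymptotic expansion of the coefficients of `f`: for every `R`
`f_m = ∑ k < R, (a_k + (-1) ^ m b_k) W (m - k) + O (W (m - R))`. -/
def HasExp (A : ℝ) (f a b : ℝ⟦X⟧) : Prop :=
  ∀ R : ℕ, ∃ C : ℝ, ∀ m ≥ R,
    |coeff m f - ∑ k ∈ range R, (coeff k a + (-1) ^ m * coeff k b) * W A (m - k)| ≤
      C * W A (m - R)

/-- Power series which converge in the open disc of radius `ρ`. -/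
def Hol (ρ : ℝ) (f : ℝ⟦X⟧) : Prop :=
  ∀ r : ℝ, 0 < r → r < ρ → ∃ C : ℝ, ∀ m, |coeff m f| * r ^ m ≤ C

/-- The value of a power series. -/
noncomputable def ev (f : ℝ⟦X⟧) (y : ℝ) : ℝ := ∑' m, coeff m f * y ^ m

/-- The poles of `phi p`: `-4 π ^ 2 j ^ 2`. -/
noncomputable def pt (j : ℕ) : ℝ := -(4 * Real.pi ^ 2 * (j : ℝ) ^ 2)

/-- The power series `1 - y / c`. -/
noncomputable def lin (c : ℝ) : ℝ⟦X⟧ := 1 - C c⁻¹ * X

/-- The number of elements of `p` which divide `j`. -/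
def zn (p : Finset ℕ) (j : ℕ) : ℕ := (p.filter (· ∣ j)).card

end Pool.Agent.H99.Seif
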