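import Pool.Agent.H99.Seif.HasExpMul

/-!
# Elimination

Write `D f = a` for `∃ b, HasExp A f a b`. By `hasExp_mul`, `hasExp_unique` this is a well defined
derivation: `D (f g) = f D g + g D f`, `D (c) = 0`, `D (v i) = g i`, `D (g i) = 0`, `D c₁ = D c₂ = 0`.
Let `v̂ i = ∏ j ≠ i, v j` and `z i = g i * v̂ i`, `e i = (n i : ℝ) - m i`.
(1) `D (∏ v ^ n) * ∏ j, v j = (∏ v ^ n) * ∑ i, n i * z i`; apply `D` to the relation, multiply by
`∏ j, v j` and cancel the common value of the two sides (not zero): `∑ i, e i * z i = 0`.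
(2) for all `r ≥ 1`: `∑ i, e i * z i ^ r = 0`. Induction: `(∏ j, v j) * D (v̂ i) = v̂ i * (Σ - z i)`
with `Σ = ∑ j, z j`, so `(∏ v) * D (∑ i, e i g i ^ r v̂ i ^ r) = r Σ (∑ e i z i ^ r) -
r ∑ e i z i ^ (r + 1)`; the series on the left is `0`, so its `D` is `0` by uniqueness.
(3) For `i ≠ j` with `g i ≠ 0`, `g j ≠ 0` we have `z i ≠ z j` (else `g i v j = g j v i`, because
`v̂ i = v j * w`, `v̂ j = v i * w` with `w = ∏ l ≠ i, j, v l ≠ 0`). For `i` with `g i ≠ 0` apply (2) to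
the polynomial `T * ∏ (T - z j)` over the `j ≠ i` with `g j ≠ 0` (a combination of `T ^ r`, `r ≥ 1`):
`e i * z i * ∏ (z i - z j) = 0`, so `e i = 0`.
-/

open PowerSeries Finset

namespace Pool.Agent.H99.Seif

/-- `f` has an expansion whose even part is `u * f`. -/
private def LD (A : ℝ) (f : ℝ⟦X⟧) (u : FractionRing ℝ⟦X⟧) : Prop :=
  ∃ a b, HasExp A f a b ∧
    algebraMap ℝ⟦X⟧ (FractionRing ℝ⟦X⟧) a = u * algebraMap ℝ⟦X⟧ (FractionRing ℝ⟦X⟧) f

private lemma am_inj {a b : ℝ⟦X⟧}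
    (h : algebraMap ℝ⟦X⟧ (FractionRing ℝ⟦X⟧) a = algebraMap ℝ⟦X⟧ (FractionRing ℝ⟦X⟧) b) :
    a = b := IsFractionRing.injective ℝ⟦X⟧ (FractionRing ℝ⟦X⟧) h

private lemma am_ne {a : ℝ⟦X⟧} (h : a ≠ 0) :
    algebraMap ℝ⟦X⟧ (FractionRing ℝ⟦X⟧) a ≠ 0 := by
  intro h'
  exact h (am_inj (by simpa using h'))

private lemma LD_mul {A : ℝ} (hA : 0 < A) {f g : ℝ⟦X⟧} {u w : FractionRing ℝ⟦X⟧}
    (hf : LD A f u) (hg : LD A g w) : LD A (f * g) (u + w) := by
  obtain ⟨a, b, h1, h2⟩ := hf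
  obtain ⟨a', b', h1', h2'⟩ := hg
  refine ⟨_, _, hasExp_mul hA h1 h1', ?_⟩
  rw [map_add, map_mul, map_mul, map_mul, h2, h2']
  ring

private lemma hasExp_one {A : ℝ} (hA : 0 < A) : HasExp A 1 0 0 := by
  refine hasExp_of_geom (ρ := 1) (K := 1) hA ?_
  intro m
  rw [PowerSeries.coeff_one]
  split_ifs <;> simp

private lemma hasExp_zero {A : ℝ} (hA : 0 < A) : HasExp A 0 0 0 := by
  have h := hasExp_C_mul (hasExp_one hA) 0
  simpa using h

private lemma LD_one {A : ℝ} (hA : 0 < A) : LD A 1 0 :=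
  ⟨0, 0, hasExp_one hA, by simp⟩

private lemma LD_const {A : ℝ} {f : ℝ⟦X⟧} (hf : HasExp A f 0 0) : LD A f 0 :=
  ⟨0, 0, hf, by simp⟩

private lemma LD_pow {A : ℝ} (hA : 0 < A) {f : ℝ⟦X⟧} {u : FractionRing ℝ⟦X⟧}
    (hf : LD A f u) (n : ℕ) : LD A (f ^ n) (n * u) := by
  induction n with
  | zero => simpa using LD_one hA
  | succ k ih =>
    rw [pow_succ]
    have h := LD_mul hA ih hf
    have e : ((k + 1 : ℕ) : FractionRing ℝ⟦X⟧) * u = k * u + u := by push_cast; ring
    rw [e]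
    exact h

private lemma LD_prod {ι : Type*} [DecidableEq ι] {A : ℝ} (hA : 0 < A) {f : ι → ℝ⟦X⟧}
    {u : ι → FractionRing ℝ⟦X⟧} (s : Finset ι) (hf : ∀ i ∈ s, LD A (f i) (u i)) :
    LD A (∏ i ∈ s, f i) (∑ i ∈ s, u i) := by
  induction s using Finset.induction_on with
  | empty => simpa using LD_one hA
  | insert a s ha ih =>
    rw [Finset.prod_insert ha, Finset.sum_insert ha]
    exact LD_mul hA (hf a (Finset.mem_insert_self a s))
      (ih fun i hi => hf i (Finset.mem_insert_of_mem hi))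

private lemma LD_unique {A : ℝ} (hA : 0 < A) {f : ℝ⟦X⟧} (h0 : f ≠ 0)
    {u w : FractionRing ℝ⟦X⟧} (hu : LD A f u) (hw : LD A f w) : u = w := by
  obtain ⟨a, b, h1, h2⟩ := hu
  obtain ⟨a', b', h1', h2'⟩ := hw
  obtain ⟨e, -⟩ := hasExp_unique hA h1 h1'
  rw [e, h2'] at h2
  exact (mul_right_cancel₀ (am_ne h0) h2).symm

private lemma exp_sum {ι : Type*} [DecidableEq ι] {A : ℝ} (hA : 0 < A) {f a b : ι → ℝ⟦X⟧}
    (e : ι → ℝ) (s : Finset ι) (hf : ∀ i ∈ s, HasExp A (f i) (a i) (b i)) :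
    HasExp A (∑ i ∈ s, C (e i) * f i) (∑ i ∈ s, C (e i) * a i) (∑ i ∈ s, C (e i) * b i) := by
  induction s using Finset.induction_on with
  | empty => simpa using hasExp_zero hA
  | insert x s hx ih =>
    rw [Finset.sum_insert hx, Finset.sum_insert hx, Finset.sum_insert hx]
    exact hasExp_add (hasExp_C_mul (hf x (Finset.mem_insert_self x s)) (e x))
      (ih fun i hi => hf i (Finset.mem_insert_of_mem hi))

/-- If a combination of series with logarithmic derivatives vanishes, so does the derived one. -/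
private lemma sum_derive {ι : Type*} [DecidableEq ι] {A : ℝ} (hA : 0 < A) {f : ι → ℝ⟦X⟧}
    {u : ι → FractionRing ℝ⟦X⟧} (e : ι → ℝ) (s : Finset ι) (hf : ∀ i ∈ s, LD A (f i) (u i))
    (h : ∑ i ∈ s, C (e i) * f i = 0) :
    ∑ i ∈ s, algebraMap ℝ⟦X⟧ (FractionRing ℝ⟦X⟧) (C (e i)) *
      (u i * algebraMap ℝ⟦X⟧ (FractionRing ℝ⟦X⟧) (f i)) = 0 := by
  classical
  choose! a b h1 h2 using hf
  have h3 := exp_sum hA e s h1
  rw [h] at h3
  obtain ⟨e1, -⟩ := hasExp_unique hA h3 (hasExp_zero hA)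
  have h4 := congrArg (algebraMap ℝ⟦X⟧ (FractionRing ℝ⟦X⟧)) e1
  rw [map_sum, map_zero] at h4
  rw [← h4]
  refine Finset.sum_congr rfl fun i hi => ?_
  rw [map_mul, h2 i hi]

/-- The vanishing of all power sums with weights: the weights of distinct nonzero numbers vanish. -/
private lemma vand {R ι : Type*} [CommRing R] [IsDomain R] [Fintype ι] [DecidableEq ι]
    {e z : ι → R} (h : ∀ r : ℕ, 1 ≤ r → ∑ i, e i * z i ^ r = 0)
    (hz : ∀ i j, i ≠ j → z i ≠ 0 → z j ≠ 0 → z i ≠ z j) (i : ι) (hi : z i ≠ 0) : e i = 0 := by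
  classical
  have key : ∀ p : Polynomial R, ∑ k, e k * (z k * p.eval (z k)) = 0 := by
    intro p
    have : ∀ k, e k * (z k * p.eval (z k)) =
        ∑ n ∈ p.support, p.coeff n * (e k * z k ^ (n + 1)) := by
      intro k
      rw [Polynomial.eval_eq_sum, Polynomial.sum_def, Finset.mul_sum, Finset.mul_sum]
      refine Finset.sum_congr rfl fun n _ => ?_
      ring
    simp_rw [this]
    rw [Finset.sum_comm]
    refine Finset.sum_eq_zero fun n _ => ?_
    rw [← Finset.mul_sum, h (n + 1) (by omega), mul_zero]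
  have h1 := key (∏ j ∈ (Finset.univ.filter fun j => z j ≠ 0).erase i,
    (Polynomial.X - Polynomial.C (z j)))
  rw [Finset.sum_eq_single i] at h1
  · rw [Polynomial.eval_prod] at h1
    have h2 : ∏ j ∈ (Finset.univ.filter fun j => z j ≠ 0).erase i,
        Polynomial.eval (z i) (Polynomial.X - Polynomial.C (z j)) ≠ 0 := by
      refine Finset.prod_ne_zero_iff.2 fun j hj => ?_
      rw [Finset.mem_erase, Finset.mem_filter] at hj
      simp only [Polynomial.eval_sub, Polynomial.eval_X, Polynomial.eval_C]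
      exact sub_ne_zero.2 (hz i j (Ne.symm hj.1) hi hj.2.2)
    rcases mul_eq_zero.1 h1 with h3 | h3
    · exact h3
    · rcases mul_eq_zero.1 h3 with h4 | h4
      · exact absurd h4 hi
      · exact absurd h4 h2
  · intro k _ hk
    by_cases hk0 : z k = 0
    · rw [hk0]; ring
    · have : Polynomial.eval (z k) (∏ j ∈ (Finset.univ.filter fun j => z j ≠ 0).erase i,
          (Polynomial.X - Polynomial.C (z j))) = 0 := by
        rw [Polynomial.eval_prod]
        refine Finset.prod_eq_zero (i := k) ?_ ?_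
        · rw [Finset.mem_erase, Finset.mem_filter]
          exact ⟨hk, Finset.mem_univ _, hk0⟩
        · simp
      rw [this, mul_zero, mul_zero]
  · intro hk
    exact absurd (Finset.mem_univ i) hk

theorem elim {ι : Type*} [Fintype ι] [DecidableEq ι] {A : ℝ} (hA : 0 < A) {v g b : ι → ℝ⟦X⟧}
    (hv : ∀ i, HasExp A (v i) (g i) (b i)) (hv0 : ∀ i, v i ≠ 0)
    (hg : ∀ i, HasExp A (g i) 0 0)
    (hd : ∀ i j, i ≠ j → g i ≠ 0 → g j ≠ 0 → g i * v j ≠ g j * v i) {c₁ c₂ : ℝ⟦X⟧}
    (h1 : c₁ ≠ 0) (h2 : c₂ ≠ 0) (hc₁ : HasExp A c₁ 0 0) (hc₂ : HasExp A c₂ 0 0) {n m : ι → ℕ}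
    (h : c₁ * ∏ i, v i ^ n i = c₂ * ∏ i, v i ^ m i) (i : ι) (hi : g i ≠ 0) : n i = m i := by
  classical
  set K := FractionRing ℝ⟦X⟧ with hK
  set φ := algebraMap ℝ⟦X⟧ K with hφ
  set w : ι → K := fun i => φ (g i) / φ (v i) with hw
  have hφv : ∀ i, φ (v i) ≠ 0 := fun i => am_ne (hv0 i)
  have hLv : ∀ i, LD A (v i) (w i) := by
    intro i
    refine ⟨_, _, hv i, ?_⟩
    exact (div_mul_cancel₀ _ (hφv i)).symm
  have hLg : ∀ i, LD A (g i) 0 := fun i => LD_const (hg i)
  have hprod : ∀ n : ι → ℕ, LD A (∏ i, v i ^ n i) (∑ i, (n i : K) * w i) := fun n =>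
    LD_prod hA Finset.univ fun i _ => LD_pow hA (hLv i) (n i)
  have hne : c₁ * ∏ i, v i ^ n i ≠ 0 :=
    mul_ne_zero h1 (Finset.prod_ne_zero_iff.2 fun i _ => pow_ne_zero _ (hv0 i))
  have hs1 : ∑ i, (n i : K) * w i = ∑ i, (m i : K) * w i := by
    have ha := LD_mul hA (LD_const hc₁) (hprod n)
    have hb := LD_mul hA (LD_const hc₂) (hprod m)
    rw [← h] at hb
    have := LD_unique hA hne ha hb
    simpa using this
  set P : ℝ⟦X⟧ := ∏ j, v j with hP
  have hP0 : P ≠ 0 := Finset.prod_ne_zero_iff.2 fun i _ => hv0 i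
  set z : ι → ℝ⟦X⟧ := fun i => g i * ∏ j ∈ Finset.univ.erase i, v j with hz
  set e : ι → ℝ := fun i => (n i : ℝ) - m i with he
  have hzP : ∀ i, φ (z i) = w i * φ P := by
    intro i
    have h2 : P = v i * ∏ j ∈ Finset.univ.erase i, v j :=
      (Finset.mul_prod_erase _ _ (Finset.mem_univ i)).symm
    have h3 : w i * φ (v i) = φ (g i) := div_mul_cancel₀ _ (hφv i)
    rw [h2, hz, map_mul, map_mul, ← mul_assoc, h3]
  have hLz : ∀ i, LD A (z i) (∑ j ∈ Finset.univ.erase i, w j) := by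
    intro i
    have := LD_mul hA (hLg i) (LD_prod hA (Finset.univ.erase i) fun j _ => hLv j)
    rwa [zero_add] at this
  have hsum : ∀ r : ℕ, 1 ≤ r → ∑ i, C (e i) * z i ^ r = 0 := by
    intro r hr
    induction r, hr using Nat.le_induction with
    | base =>
      apply am_inj
      rw [map_sum, map_zero]
      have : ∀ i, φ (C (e i) * z i ^ 1) = ((n i : K) * w i - (m i : K) * w i) * φ P := by
        intro i
        rw [pow_one, map_mul, hzP i, he]
        simp only [map_sub, map_natCast]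
        ring
      rw [Finset.sum_congr rfl fun i _ => this i, ← Finset.sum_mul, Finset.sum_sub_distrib, hs1,
        sub_self, zero_mul]
    | succ r hr ih =>
      have h2 := sum_derive hA e Finset.univ
        (fun i (_ : i ∈ Finset.univ) => LD_pow hA (hLz i) r) ih
      have h3 : ∀ i, φ (C (e i)) * ((r : K) * (∑ j ∈ Finset.univ.erase i, w j) * φ (z i ^ r)) =
          (r : K) * (∑ j, w j) * φ (C (e i) * z i ^ r) -
            (r : K) * (w i * φ (C (e i) * z i ^ r)) := by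
        intro i
        rw [← Finset.add_sum_erase Finset.univ w (Finset.mem_univ i), map_mul]
        ring
      have h4 : (r : K) * (∑ j, w j) * φ (∑ i, C (e i) * z i ^ r) -
          (r : K) * ∑ i, w i * φ (C (e i) * z i ^ r) = 0 := by
        have h7 : (r : K) * (∑ j, w j) * φ (∑ i, C (e i) * z i ^ r) =
            ∑ i, (r : K) * (∑ j, w j) * φ (C (e i) * z i ^ r) := by
          rw [map_sum, ← Finset.mul_sum]
        have h8 : (r : K) * ∑ i, w i * φ (C (e i) * z i ^ r) =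
            ∑ i, (r : K) * (w i * φ (C (e i) * z i ^ r)) := Finset.mul_sum _ _ _
        rw [h7, h8, ← Finset.sum_sub_distrib, ← h2]
        exact Finset.sum_congr rfl fun i _ => (h3 i).symm
      rw [ih, map_zero, mul_zero, zero_sub, neg_eq_zero] at h4
      have hr0 : (r : K) ≠ 0 := by
        have : φ (r : ℝ⟦X⟧) ≠ 0 := am_ne (by
          have : (r : ℝ⟦X⟧) = C (r : ℝ) := by simp
          rw [this]
          intro h5
          have h6 := congrArg (PowerSeries.coeff 0) h5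
          simp at h6
          omega)
        simpa using this
      have h5 := (mul_eq_zero.1 h4).resolve_left hr0
      apply am_inj
      rw [map_sum, map_zero]
      have h6 : ∀ i, φ (C (e i) * z i ^ (r + 1)) = (w i * φ (C (e i) * z i ^ r)) * φ P := by
        intro i
        rw [pow_succ, ← mul_assoc, map_mul φ (C (e i) * z i ^ r), hzP i]
        ring
      rw [Finset.sum_congr rfl fun i _ => h6 i, ← Finset.sum_mul, h5, zero_mul]
  have hzd : ∀ i j, i ≠ j → z i ≠ 0 → z j ≠ 0 → z i ≠ z j := by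
    intro i j hij hi0 hj0 hcon
    have hgi : g i ≠ 0 := by
      rintro h0
      apply hi0
      simp [hz, h0]
    have hgj : g j ≠ 0 := by
      rintro h0
      apply hj0
      simp [hz, h0]
    apply hd i j hij hgi hgj
    apply am_inj
    have h2 := congrArg φ hcon
    rw [hzP i, hzP j] at h2
    have h3 := mul_right_cancel₀ (am_ne hP0) h2
    simp only [hw] at h3
    rw [div_eq_div_iff (hφv i) (hφv j)] at h3
    change φ _ = φ _
    rw [map_mul, map_mul, h3]
  have hzi : z i ≠ 0 := mul_ne_zero hi (Finset.prod_ne_zero_iff.2 fun j _ => hv0 j)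
  have hfin := vand (e := fun i => C (e i)) hsum hzd i hzi
  have h7 := congrArg (PowerSeries.coeff 0) hfin
  simp only [he, map_sub, map_zero] at h7
  simp at h7
  have h8 : (n i : ℝ) = m i := sub_eq_zero.1 h7
  exact_mod_cast h8

end Pool.Agent.H99.Seif
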