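import Pool.Agent.H99.Seif.HasExp

/-!
# Asymptotic expansions: products

Fix `R` and put `T = R + 1`. `(f g)_m = ∑ j ≤ m, f_j g_{m - j}`. For `m ≥ 2 T` split into `j < T`,
`m - j < T` and the middle `T ≤ j ≤ m - T`.
Middle: `|f_j| ≤ C W j`, `|g_i| ≤ C W i` (the expansions with `R = 0`), so by `W_mul_le` with `T` the
middle sum is at most `C ^ 2 (m + 1) W T W (m - T) = O (W (m - R))` by `W_step`.
`j < T` (only `j ≤ R` occur): `g_{m-j} = ∑ k < R - j, (a'_k + (-1)^(m-j) b'_k) W (m - j - k) +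
O (W (m - j - (R - j)))`; for `j = R` this is `g_{m-R} = O (W (m - R))`. So the sum over `j ≤ R` is
`∑ l < R, (∑ j + k = l, f_j a'_k + (-1) ^ m ∑ j + k = l, (-1) ^ j f_j b'_k) W (m - l) +
O (W (m - R))`. The same with `f` and `g` exchanged. The finitely many `m` with `R ≤ m < 2 T` are
absorbed in the constant.
-/

open PowerSeries Finset

namespace Pool.Agent.H99.Seif

private theorem absorb {A : ℝ} (hA : 0 < A) (e : ℕ → ℝ) (R N : ℕ) (C : ℝ)
    (h : ∀ m ≥ N, |e m| ≤ C * W A (m - R)) : ∃ C' : ℝ, ∀ m ≥ R, |e m| ≤ C' * W A (m - R) := by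
  refine ⟨|C| + ∑ m ∈ range N, |e m| / W A (m - R), fun m _ => ?_⟩
  have hW := W_pos hA (m - R)
  have hnn : 0 ≤ ∑ m ∈ range N, |e m| / W A (m - R) :=
    sum_nonneg fun k _ => div_nonneg (abs_nonneg _) (W_pos hA _).le
  rcases Nat.lt_or_ge m N with h1 | h1
  · have h2 : |e m| / W A (m - R) ≤ ∑ m ∈ range N, |e m| / W A (m - R) :=
      single_le_sum (f := fun k => |e k| / W A (k - R))
        (fun k _ => div_nonneg (abs_nonneg _) (W_pos hA _).le) (mem_range.2 h1)
    have h3 : |e m| = |e m| / W A (m - R) * W A (m - R) := by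
      field_simp
    calc |e m| = |e m| / W A (m - R) * W A (m - R) := h3
      _ ≤ (|C| + ∑ m ∈ range N, |e m| / W A (m - R)) * W A (m - R) := by
          refine mul_le_mul_of_nonneg_right ?_ hW.le
          have := abs_nonneg C
          linarith
  · calc |e m| ≤ C * W A (m - R) := h m h1
      _ ≤ (|C| + ∑ m ∈ range N, |e m| / W A (m - R)) * W A (m - R) := by
          refine mul_le_mul_of_nonneg_right ?_ hW.le
          have := le_abs_self C
          linarith

private theorem side {A : ℝ} {f g a b : ℝ⟦X⟧} (hg : HasExp A g a b) (R : ℕ) :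
    ∃ C : ℝ, ∀ m ≥ R, |∑ j ∈ range (R + 1), coeff j f * coeff (m - j) g -
      ∑ l ∈ range R, (coeff l (f * a) + (-1) ^ m * coeff l (rescale (-1 : ℝ) f * b)) *
        W A (m - l)| ≤ C * W A (m - R) := by
  choose C hC using fun j => hg (R - j)
  refine ⟨∑ j ∈ range (R + 1), |coeff j f| * C j, fun m hm => ?_⟩
  have h1 : ∑ l ∈ range R, (coeff l (f * a) + (-1) ^ m * coeff l (rescale (-1 : ℝ) f * b)) *
        W A (m - l) = ∑ j ∈ range (R + 1), coeff j f * ∑ k ∈ range (R - j),
          (coeff k a + (-1) ^ (m - j) * coeff k b) * W A (m - j - k) := by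
    rw [sum_range_succ]
    have h0 : R - R = 0 := Nat.sub_self R
    rw [h0, range_zero, sum_empty, mul_zero, add_zero]
    have h2 : ∀ l ∈ range R,
        (coeff l (f * a) + (-1) ^ m * coeff l (rescale (-1 : ℝ) f * b)) * W A (m - l) =
        ∑ k ∈ range (l + 1), (fun j k => coeff j f * ((coeff k a + (-1) ^ (m - j) * coeff k b) *
          W A (m - j - k))) k (l - k) := by
      intro l hl
      rw [mem_range] at hl
      rw [coeff_mul, coeff_mul, Nat.sum_antidiagonal_eq_sum_range_succ_mk,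
        Nat.sum_antidiagonal_eq_sum_range_succ_mk, mul_sum, ← sum_add_distrib, sum_mul]
      refine sum_congr rfl fun k hk => ?_
      rw [mem_range] at hk
      have e1 : m - k - (l - k) = m - l := by omega
      have e2 : ((-1 : ℝ)) ^ (m - k) = (-1) ^ m * (-1) ^ k := by
        have e3 : m = (m - k) + k := by omega
        have e4 : ((-1 : ℝ)) ^ m = (-1) ^ (m - k) * (-1) ^ k := by
          rw [← pow_add, ← e3]
        rw [e4, mul_assoc, ← mul_pow]
        norm_num
      simp only [coeff_rescale, e1, e2]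
      ring
    refine (sum_congr rfl h2).trans ((sum_range_diag_flip R (fun j k => coeff j f *
      ((coeff k a + (-1) ^ (m - j) * coeff k b) * W A (m - j - k)))).trans ?_)
    refine sum_congr rfl fun j _ => ?_
    rw [mul_sum]
  rw [h1, ← sum_sub_distrib, sum_mul]
  refine (abs_sum_le_sum_abs _ _).trans (sum_le_sum fun j hj => ?_)
  rw [mem_range] at hj
  rw [← mul_sub, abs_mul, mul_assoc]
  refine mul_le_mul_of_nonneg_left ?_ (abs_nonneg _)
  have h3 := hC j (m - j) (by omega)
  have e : m - j - (R - j) = m - R := by omega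
  rw [e] at h3
  exact h3

theorem hasExp_mul {A : ℝ} (hA : 0 < A) {f g a b a' b' : ℝ⟦X⟧} (hf : HasExp A f a b)
    (hg : HasExp A g a' b') :
    HasExp A (f * g) (f * a' + g * a) (rescale (-1 : ℝ) f * b' + rescale (-1 : ℝ) g * b) := by
  intro R
  obtain ⟨C₁, h₁⟩ := side (f := f) hg R
  obtain ⟨C₂, h₂⟩ := side (f := g) hf R
  obtain ⟨Cf, hCf⟩ := hf 0
  obtain ⟨Cg, hCg⟩ := hg 0
  obtain ⟨C₃, hC₃, h₃⟩ := W_step hA
  refine absorb hA _ R (2 * R + 2) (C₁ + |Cf| * |Cg| * W A (R + 1) * C₃ + C₂) fun m hm => ?_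
  have hsplit : coeff m (f * g) = ∑ j ∈ range (R + 1), coeff j f * coeff (m - j) g +
      ∑ j ∈ Ico (R + 1) (m - R), coeff j f * coeff (m - j) g +
      ∑ j ∈ range (R + 1), coeff j g * coeff (m - j) f := by
    rw [coeff_mul, Nat.sum_antidiagonal_eq_sum_range_succ_mk]
    have e1 : ∑ j ∈ range (R + 1), coeff j g * coeff (m - j) f =
        ∑ j ∈ Ico (m - R) (m + 1), coeff j f * coeff (m - j) g := by
      have e2 := sum_Ico_reflect (fun j => coeff j f * coeff (m - j) g) 0
        (show R + 1 ≤ m + 1 by omega)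
      rw [show m + 1 - (R + 1) = m - R by omega, show m + 1 - 0 = m + 1 by omega,
        ← range_eq_Ico] at e2
      rw [← e2]
      refine sum_congr rfl fun j hj => ?_
      rw [mem_range] at hj
      have e3 : m - (m - j) = j := by omega
      rw [e3]
      ring
    rw [e1, range_eq_Ico, range_eq_Ico, sum_Ico_consecutive _ (by omega) (by omega),
      sum_Ico_consecutive _ (by omega) (by omega)]
  have hexp : ∑ k ∈ range R, (coeff k (f * a' + g * a) + (-1) ^ m *
      coeff k (rescale (-1 : ℝ) f * b' + rescale (-1 : ℝ) g * b)) * W A (m - k) =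
      ∑ l ∈ range R, (coeff l (f * a') + (-1) ^ m * coeff l (rescale (-1 : ℝ) f * b')) *
        W A (m - l) +
      ∑ l ∈ range R, (coeff l (g * a) + (-1) ^ m * coeff l (rescale (-1 : ℝ) g * b)) *
        W A (m - l) := by
    rw [← sum_add_distrib]
    refine sum_congr rfl fun k _ => ?_
    rw [map_add, map_add]
    ring
  have hmid : |∑ j ∈ Ico (R + 1) (m - R), coeff j f * coeff (m - j) g| ≤
      |Cf| * |Cg| * W A (R + 1) * C₃ * W A (m - R) := by
    have hb : ∀ j ∈ Ico (R + 1) (m - R), |coeff j f * coeff (m - j) g| ≤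
        |Cf| * |Cg| * (W A (R + 1) * W A (m - (R + 1))) := by
      intro j hj
      rw [mem_Ico] at hj
      have e1 := hCf j (by omega)
      have e2 := hCg (m - j) (by omega)
      rw [range_zero, sum_empty, sub_zero, Nat.sub_zero] at e1 e2
      have e3 := W_mul_le hA (R := R + 1) (i := j) (j := m - j) (by omega) (by omega)
      rw [show j + (m - j) - (R + 1) = m - (R + 1) by omega] at e3
      have w1 := (W_pos hA j).le
      have w2 := (W_pos hA (m - j)).le
      rw [abs_mul]
      calc |coeff j f| * |coeff (m - j) g| ≤ (|Cf| * W A j) * (|Cg| * W A (m - j)) := by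
            refine mul_le_mul (e1.trans ?_) (e2.trans ?_) (abs_nonneg _)
              (mul_nonneg (abs_nonneg _) w1)
            · exact mul_le_mul_of_nonneg_right (le_abs_self _) w1
            · exact mul_le_mul_of_nonneg_right (le_abs_self _) w2
        _ = |Cf| * |Cg| * (W A j * W A (m - j)) := by ring
        _ ≤ _ := mul_le_mul_of_nonneg_left e3 (mul_nonneg (abs_nonneg _) (abs_nonneg _))
    have hs : |∑ j ∈ Ico (R + 1) (m - R), coeff j f * coeff (m - j) g| ≤
        ((m - R - (R + 1) : ℕ) : ℝ) * (|Cf| * |Cg| * (W A (R + 1) * W A (m - (R + 1)))) := by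
      refine (abs_sum_le_sum_abs _ _).trans ((sum_le_sum hb).trans ?_)
      rw [sum_const, Nat.card_Ico, nsmul_eq_mul]
    have h4 := h₃ (m - R) (by omega)
    rw [show m - R - 1 = m - (R + 1) by omega] at h4
    have w1 := (W_pos hA (R + 1)).le
    have w2 := (W_pos hA (m - (R + 1))).le
    have h5 : ((m - R - (R + 1) : ℕ) : ℝ) ≤ ((m - R : ℕ) : ℝ) := by
      exact_mod_cast Nat.sub_le _ _
    have h6 : 0 ≤ |Cf| * |Cg| * (W A (R + 1) * W A (m - (R + 1))) :=
      mul_nonneg (mul_nonneg (abs_nonneg _) (abs_nonneg _)) (mul_nonneg w1 w2)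
    calc _ ≤ ((m - R - (R + 1) : ℕ) : ℝ) *
          (|Cf| * |Cg| * (W A (R + 1) * W A (m - (R + 1)))) := hs
      _ ≤ ((m - R : ℕ) : ℝ) * (|Cf| * |Cg| * (W A (R + 1) * W A (m - (R + 1)))) :=
          mul_le_mul_of_nonneg_right h5 h6
      _ = |Cf| * |Cg| * W A (R + 1) * (((m - R : ℕ) : ℝ) * W A (m - (R + 1))) := by ring
      _ ≤ |Cf| * |Cg| * W A (R + 1) * (C₃ * W A (m - R)) :=
          mul_le_mul_of_nonneg_left h4 (mul_nonneg (mul_nonneg (abs_nonneg _) (abs_nonneg _)) w1)
      _ = _ := by ring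
  have g1 := h₁ m (by omega)
  have g2 := h₂ m (by omega)
  rw [hsplit, hexp]
  have e : ∀ x y z u v : ℝ, x + y + z - (u + v) = (x - u) + y + (z - v) := by
    intros; ring
  rw [e]
  refine (abs_add_le _ _).trans ?_
  rw [add_mul, add_mul]
  refine add_le_add ((abs_add_le _ _).trans (add_le_add g1 hmid)) g2

end Pool.Agent.H99.Seif
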