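import Pool.Agent.H99.Seif.Defs

/-!
# Power series which converge in a disc

`Hol ρ f`: `|f_m| r ^ m` is bounded for every `0 < r < ρ`. Products: for `r < r' < ρ`,
`|(f g)_m| r ^ m ≤ ∑ |f_i| r ^ i |g_j| r ^ j ≤ (m + 1) C C' (r / r') ^ m`, bounded.
`hol_div`: `g_m = ∑ i ≤ m, f_i c⁻¹ ^ (m - i)` is the quotient by `lin c` in `ℝ⟦X⟧`; as
`∑ i, f_i c ^ i = 0` it equals `- c⁻¹ ^ m ∑ i > m, f_i c ^ i`, which is `O (r ^ (-m))` for
`|c| < r < ρ` (then for smaller `r` as well).
-/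

open PowerSeries Finset

namespace Pool.Agent.H99.Seif

private theorem sum_of_hol {ρ r : ℝ} {f : ℝ⟦X⟧} (hf : Hol ρ f) (hr0 : 0 ≤ r) (hr : r < ρ) :
    Summable fun m => |coeff m f| * r ^ m := by
  have hρ : 0 < ρ := lt_of_le_of_lt hr0 hr
  set r' : ℝ := (r + ρ) / 2 with hr'
  have h1 : r < r' := by rw [hr']; linarith
  have h2 : r' < ρ := by rw [hr']; linarith
  have h3 : 0 < r' := lt_of_le_of_lt hr0 h1
  obtain ⟨C, hC⟩ := hf r' h3 h2
  have hC0 : 0 ≤ C := le_trans (by positivity) (hC 0)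
  have hq0 : 0 ≤ r / r' := div_nonneg hr0 h3.le
  have hq1 : r / r' < 1 := (div_lt_one h3).2 h1
  refine Summable.of_nonneg_of_le (fun m => by positivity) (fun m => ?_)
    ((summable_geometric_of_lt_one hq0 hq1).mul_left C)
  have h4 : r ^ m = r' ^ m * (r / r') ^ m := by
    rw [← mul_pow, mul_div_cancel₀ r h3.ne']
  rw [h4, ← mul_assoc]
  exact mul_le_mul_of_nonneg_right (hC m) (by positivity)

private theorem hol_of_sum {ρ : ℝ} {f : ℝ⟦X⟧}
    (h : ∀ r : ℝ, 0 < r → r < ρ → Summable fun m => |coeff m f| * r ^ m) : Hol ρ f := by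
  intro r hr0 hr
  refine ⟨∑' m, |coeff m f| * r ^ m, fun m => ?_⟩
  exact (h r hr0 hr).le_tsum m (fun j _ => by positivity)

theorem hol_mono {ρ ρ' : ℝ} (h : ρ' ≤ ρ) {f : ℝ⟦X⟧} (hf : Hol ρ f) : Hol ρ' f := by
  intro r hr0 hr
  exact hf r hr0 (lt_of_lt_of_le hr h)

theorem hol_add {ρ : ℝ} {f g : ℝ⟦X⟧} (hf : Hol ρ f) (hg : Hol ρ g) : Hol ρ (f + g) := by
  intro r hr0 hr
  obtain ⟨C, hC⟩ := hf r hr0 hr
  obtain ⟨D, hD⟩ := hg r hr0 hr
  refine ⟨C + D, fun m => ?_⟩
  have h1 : |coeff m (f + g)| ≤ |coeff m f| + |coeff m g| := by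
    rw [map_add]
    exact abs_add_le _ _
  calc |coeff m (f + g)| * r ^ m ≤ (|coeff m f| + |coeff m g|) * r ^ m :=
        mul_le_mul_of_nonneg_right h1 (by positivity)
    _ = |coeff m f| * r ^ m + |coeff m g| * r ^ m := by ring
    _ ≤ C + D := add_le_add (hC m) (hD m)

private theorem hol_neg {ρ : ℝ} {f : ℝ⟦X⟧} (hf : Hol ρ f) : Hol ρ (-f) := by
  intro r hr0 hr
  obtain ⟨C, hC⟩ := hf r hr0 hr
  refine ⟨C, fun m => ?_⟩
  rw [map_neg, abs_neg]
  exact hC m

theorem hol_sub {ρ : ℝ} {f g : ℝ⟦X⟧} (hf : Hol ρ f) (hg : Hol ρ g) : Hol ρ (f - g) := by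
  rw [sub_eq_add_neg]
  exact hol_add hf (hol_neg hg)

theorem hol_mul {ρ : ℝ} {f g : ℝ⟦X⟧} (hf : Hol ρ f) (hg : Hol ρ g) : Hol ρ (f * g) := by
  refine hol_of_sum fun r hr0 hr => ?_
  have h1 := sum_of_hol hf hr0.le hr
  have h2 := sum_of_hol hg hr0.le hr
  have h1' : Summable fun m => ‖|coeff m f| * r ^ m‖ := by
    refine h1.congr fun m => ?_
    rw [Real.norm_of_nonneg (by positivity)]
  have h2' : Summable fun m => ‖|coeff m g| * r ^ m‖ := by
    refine h2.congr fun m => ?_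
    rw [Real.norm_of_nonneg (by positivity)]
  have h3 := summable_norm_sum_mul_antidiagonal_of_summable_norm h1' h2'
  refine Summable.of_nonneg_of_le (fun m => by positivity) (fun m => ?_) h3
  rw [coeff_mul]
  refine le_trans ?_ (le_abs_self _)
  calc |∑ p ∈ antidiagonal m, coeff p.1 f * coeff p.2 g| * r ^ m
      ≤ (∑ p ∈ antidiagonal m, |coeff p.1 f * coeff p.2 g|) * r ^ m :=
        mul_le_mul_of_nonneg_right (Finset.abs_sum_le_sum_abs _ _) (by positivity)
    _ = ∑ p ∈ antidiagonal m, |coeff p.1 f| * r ^ p.1 * (|coeff p.2 g| * r ^ p.2) := by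
        rw [Finset.sum_mul]
        refine Finset.sum_congr rfl fun p hp => ?_
        rw [← mem_antidiagonal.1 hp, pow_add, abs_mul]
        ring

theorem hol_C (ρ c : ℝ) : Hol ρ (C c) := by
  intro r hr0 _
  refine ⟨|c|, fun m => ?_⟩
  rw [coeff_C]
  split_ifs with h
  · subst h
    simp
  · simp

theorem hol_X (ρ : ℝ) : Hol ρ X := by
  intro r hr0 _
  refine ⟨r, fun m => ?_⟩
  rw [coeff_X]
  split_ifs with h
  · subst h
    simp
  · simp [hr0.le]

theorem hol_lin (ρ c : ℝ) : Hol ρ (lin c) := by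
  unfold lin
  have h1 : Hol ρ (1 : ℝ⟦X⟧) := by
    have := hol_C ρ 1
    simpa using this
  exact hol_sub h1 (hol_mul (hol_C _ _) (hol_X _))

theorem hol_pow {ρ : ℝ} {f : ℝ⟦X⟧} (hf : Hol ρ f) (n : ℕ) : Hol ρ (f ^ n) := by
  induction n with
  | zero =>
    rw [pow_zero]
    have := hol_C ρ 1
    simpa using this
  | succ n ih =>
    rw [pow_succ]
    exact hol_mul ih hf

theorem hol_prod {ρ : ℝ} {ι : Type*} (s : Finset ι) {f : ι → ℝ⟦X⟧} (hf : ∀ i ∈ s, Hol ρ (f i)) :
    Hol ρ (∏ i ∈ s, f i) := by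
  classical
  induction s using Finset.induction_on with
  | empty =>
    rw [Finset.prod_empty]
    have := hol_C ρ 1
    simpa using this
  | insert a s ha ih =>
    rw [Finset.prod_insert ha]
    exact hol_mul (hf a (mem_insert_self _ _)) (ih fun i hi => hf i (mem_insert_of_mem hi))

theorem hol_sum {ρ : ℝ} {ι : Type*} (s : Finset ι) {f : ι → ℝ⟦X⟧} (hf : ∀ i ∈ s, Hol ρ (f i)) :
    Hol ρ (∑ i ∈ s, f i) := by
  classical
  induction s using Finset.induction_on with
  | empty =>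
    rw [Finset.sum_empty]
    have := hol_C ρ 0
    simpa using this
  | insert a s ha ih =>
    rw [Finset.sum_insert ha]
    exact hol_add (hf a (mem_insert_self _ _)) (ih fun i hi => hf i (mem_insert_of_mem hi))

theorem hol_summable {ρ y : ℝ} {f : ℝ⟦X⟧} (hf : Hol ρ f) (hy : |y| < ρ) :
    Summable fun m => |coeff m f * y ^ m| := by
  refine (sum_of_hol hf (abs_nonneg y) hy).congr fun m => ?_
  rw [abs_mul, abs_pow]

theorem ev_add {ρ y : ℝ} {f g : ℝ⟦X⟧} (hf : Hol ρ f) (hg : Hol ρ g) (hy : |y| < ρ) :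
    ev (f + g) y = ev f y + ev g y := by
  unfold ev
  rw [← Summable.tsum_add (hol_summable hf hy).of_abs (hol_summable hg hy).of_abs]
  refine tsum_congr fun m => ?_
  rw [map_add, add_mul]

theorem ev_mul {ρ y : ℝ} {f g : ℝ⟦X⟧} (hf : Hol ρ f) (hg : Hol ρ g) (hy : |y| < ρ) :
    ev (f * g) y = ev f y * ev g y := by
  unfold ev
  rw [tsum_mul_tsum_eq_tsum_sum_antidiagonal_of_summable_norm
    (f := fun m => coeff m f * y ^ m) (g := fun m => coeff m g * y ^ m)
    (hol_summable hf hy) (hol_summable hg hy)]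
  refine tsum_congr fun m => ?_
  rw [coeff_mul, Finset.sum_mul]
  refine Finset.sum_congr rfl fun p hp => ?_
  rw [← mem_antidiagonal.1 hp, pow_add]
  ring

theorem ev_C (c y : ℝ) : ev (C c) y = c := by
  unfold ev
  rw [tsum_eq_single 0]
  · simp
  · intro m hm
    rw [coeff_C, if_neg hm, zero_mul]

theorem ev_lin (c y : ℝ) : ev (lin c) y = 1 - c⁻¹ * y := by
  unfold ev lin
  rw [tsum_eq_sum (s := range 2)]
  · simp [Finset.sum_range_succ, coeff_X, coeff_one, sub_eq_add_neg]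
  · intro m hm
    have hm2 : 2 ≤ m := not_lt.1 fun h => hm (mem_range.2 h)
    have h0 : m ≠ 0 := by omega
    have h1 : m ≠ 1 := by omega
    rw [map_sub, coeff_C_mul, coeff_one, coeff_X, if_neg h0, if_neg h1]
    simp

theorem ev_pow {ρ y : ℝ} {f : ℝ⟦X⟧} (hf : Hol ρ f) (hy : |y| < ρ) (n : ℕ) :
    ev (f ^ n) y = ev f y ^ n := by
  induction n with
  | zero =>
    rw [pow_zero, pow_zero]
    have := ev_C 1 y
    simpa using this
  | succ n ih =>
    rw [pow_succ, ev_mul (hol_pow hf n) hf hy, ih, pow_succ]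

theorem ev_prod {ρ y : ℝ} {ι : Type*} (s : Finset ι) {f : ι → ℝ⟦X⟧} (hf : ∀ i ∈ s, Hol ρ (f i))
    (hy : |y| < ρ) : ev (∏ i ∈ s, f i) y = ∏ i ∈ s, ev (f i) y := by
  classical
  induction s using Finset.induction_on with
  | empty =>
    rw [Finset.prod_empty, Finset.prod_empty]
    have := ev_C 1 y
    simpa using this
  | insert a s ha ih =>
    rw [Finset.prod_insert ha, Finset.prod_insert ha,
      ev_mul (hf a (mem_insert_self _ _)) (hol_prod s fun i hi => hf i (mem_insert_of_mem hi)) hy,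
      ih fun i hi => hf i (mem_insert_of_mem hi)]

private theorem lin_mul_geom (a : ℝ) : (1 - C a * X) * PowerSeries.mk (fun n => a ^ n) = 1 := by
  ext n
  rw [sub_mul, one_mul, map_sub, mul_assoc, coeff_C_mul]
  cases n with
  | zero => simp
  | succ n =>
    rw [coeff_succ_X_mul]
    simp [coeff_one, pow_succ, mul_comm]

theorem hol_div {ρ c : ℝ} (hc : c ≠ 0) (hcρ : |c| < ρ) {f : ℝ⟦X⟧} (hf : Hol ρ f)
    (h0 : ev f c = 0) : ∃ g : ℝ⟦X⟧, Hol ρ g ∧ f = lin c * g := by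
  set g : ℝ⟦X⟧ := f * PowerSeries.mk (fun n => c⁻¹ ^ n) with hg
  have hfg : f = lin c * g := by
    rw [hg, mul_left_comm]
    unfold lin
    rw [lin_mul_geom, mul_one]
  have hsum : Summable fun m => coeff m f * c ^ m := (hol_summable hf hcρ).of_abs
  have hcoef : ∀ m, coeff m g = -(c⁻¹ ^ m * ∑' i, coeff (i + (m + 1)) f * c ^ (i + (m + 1))) := by
    intro m
    have h1 : coeff m g = c⁻¹ ^ m * ∑ i ∈ range (m + 1), coeff i f * c ^ i := by
      rw [hg, coeff_mul, Finset.Nat.sum_antidiagonal_eq_sum_range_succ_mk, Finset.mul_sum]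
      refine Finset.sum_congr rfl fun i hi => ?_
      have hi' : i ≤ m := by
        have := Finset.mem_range.1 hi
        omega
      rw [coeff_mk]
      have h2 : c⁻¹ ^ m = c⁻¹ ^ (m - i) * c⁻¹ ^ i := by
        rw [← pow_add]
        congr 1
        omega
      rw [h2]
      have h3 : c⁻¹ ^ i * c ^ i = 1 := by
        rw [← mul_pow, inv_mul_cancel₀ hc, one_pow]
      linear_combination (-(coeff i f * c⁻¹ ^ (m - i))) * h3
    have h4 := hsum.sum_add_tsum_nat_add (m + 1)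
    have h5 : (∑' i, coeff i f * c ^ i) = 0 := h0
    rw [h5] at h4
    rw [h1]
    linear_combination c⁻¹ ^ m * h4
  have hcpos : 0 < |c| := abs_pos.2 hc
  have key : ∀ r : ℝ, |c| < r → r < ρ → ∃ D : ℝ, ∀ m, |coeff m g| * r ^ m ≤ D := by
    intro r hr1 hr2
    have hr0 : 0 < r := lt_trans hcpos hr1
    obtain ⟨D, hD⟩ := hf r hr0 hr2
    have hD0 : 0 ≤ D := le_trans (by positivity) (hD 0)
    set q : ℝ := |c| / r with hq
    have hq0 : 0 < q := div_pos hcpos hr0
    have hq1 : q < 1 := (div_lt_one hr0).2 hr1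
    have hb : ∀ i, |coeff i f * c ^ i| ≤ D * q ^ i := by
      intro i
      rw [abs_mul, abs_pow, hq, div_pow]
      have : |coeff i f| ≤ D / r ^ i := by
        rw [le_div_iff₀ (by positivity)]
        exact hD i
      calc |coeff i f| * |c| ^ i ≤ D / r ^ i * |c| ^ i :=
            mul_le_mul_of_nonneg_right this (by positivity)
        _ = D * (|c| ^ i / r ^ i) := by ring
    refine ⟨D * q * (1 - q)⁻¹, fun m => ?_⟩
    have hgeo : Summable fun i : ℕ => D * q ^ (m + 1) * q ^ i :=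
      (summable_geometric_of_lt_one hq0.le hq1).mul_left _
    have hb2 : |∑' i, coeff (i + (m + 1)) f * c ^ (i + (m + 1))| ≤
        D * q ^ (m + 1) * (1 - q)⁻¹ := by
      have h6 : ∑' i : ℕ, D * q ^ (m + 1) * q ^ i = D * q ^ (m + 1) * (1 - q)⁻¹ := by
        rw [tsum_mul_left, tsum_geometric_of_lt_one hq0.le hq1]
      rw [← h6]
      have h7 := tsum_of_norm_bounded (f := fun i => coeff (i + (m + 1)) f * c ^ (i + (m + 1)))
        hgeo.hasSum (fun i => by
          have := hb (i + (m + 1))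
          rw [Real.norm_eq_abs]
          refine this.trans (le_of_eq ?_)
          rw [pow_add]
          ring)
      simpa [Real.norm_eq_abs] using h7
    have h8 : |coeff m g| = |c|⁻¹ ^ m * |∑' i, coeff (i + (m + 1)) f * c ^ (i + (m + 1))| := by
      rw [hcoef m, abs_neg, abs_mul, abs_pow, abs_inv]
    rw [h8]
    have h9 : |c|⁻¹ ^ m * r ^ m * q ^ m = 1 := by
      rw [hq, div_pow, inv_pow]
      field_simp
    calc |c|⁻¹ ^ m * |∑' i, coeff (i + (m + 1)) f * c ^ (i + (m + 1))| * r ^ m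
        ≤ |c|⁻¹ ^ m * (D * q ^ (m + 1) * (1 - q)⁻¹) * r ^ m := by
          refine mul_le_mul_of_nonneg_right ?_ (by positivity)
          exact mul_le_mul_of_nonneg_left hb2 (by positivity)
      _ = D * q * (1 - q)⁻¹ * (|c|⁻¹ ^ m * r ^ m * q ^ m) := by
          rw [pow_succ]
          ring
      _ = D * q * (1 - q)⁻¹ := by rw [h9, mul_one]
  refine ⟨g, ?_, hfg⟩
  intro r hr0 hr
  rcases lt_or_ge |c| r with h | h
  · exact key r h hr
  · set r1 : ℝ := (|c| + ρ) / 2 with hr1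
    have h1 : |c| < r1 := by rw [hr1]; linarith
    have h2 : r1 < ρ := by rw [hr1]; linarith
    obtain ⟨D, hD⟩ := key r1 h1 h2
    refine ⟨D, fun m => ?_⟩
    have h3 : r ^ m ≤ r1 ^ m := pow_le_pow_left₀ hr0.le (by linarith) m
    exact le_trans (mul_le_mul_of_nonneg_left h3 (abs_nonneg _)) (hD m)

end Pool.Agent.H99.Seif
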