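import Pool.Agent.H99.Seif.Hol

/-!
# The inverse of `E 1`

`coeff_inv_E`: for `m ≥ 1` the coefficient `m` of `(E 1)⁻¹` (the series of `(x / 2) / sinh (x / 2)` in
`y = x ^ 2`) is `B_{2m}(1/2) / (2 m)!`, because `∑ B_n(1/2) x ^ n / n! = x e^(x/2) / (e^x - 1)`
(`Polynomial.bernoulli_generating_function`; the odd coefficients vanish because the function is
even, or compare `E 1 * f = 1` directly through the substitution `y = x ^ 2`), and
`hasSum_one_div_nat_pow_mul_cos` at `x = 1 / 2` gives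
`B_{2m}(1/2) / (2 m)! = 2 (-1) ^ (m + 1) / (2 π) ^ (2 m) ∑ n ≥ 1, (-1) ^ n / n ^ (2 m)`, which is the
claim with `n = j + 1` (`pt n = -4 π ^ 2 n ^ 2`). Check: `m = 1` gives `-1 / 24`.
`hol_inv`: `(E 1)⁻¹ = ∑ j ∈ Icc 1 J, C (2 (-1) ^ (j + 1)) * (lin (pt j))⁻¹ + S` where the coefficients
`m ≥ 1` of `S` are the tails of the sum above; the tail is at most
`2 |pt (J + 1)| ^ (-m) ∑ n > J, ((J + 1) / n) ^ 2`, so `Hol |pt (J + 1)| S`; multiply
by the product of the `lin (pt j)`.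
-/

open PowerSeries Finset

namespace Pool.Agent.H99.Seif

private theorem two_ne : (2 : ℕ) ≠ 0 := two_ne_zero

/-- The generating function of the Bernoulli polynomials at `1 / 2`. -/
private noncomputable def genF : ℝ⟦X⟧ :=
  PowerSeries.mk fun n => Polynomial.aeval (1 / 2 : ℝ)
    ((1 / (n.factorial : ℚ) : ℚ) • Polynomial.bernoulli n)

private theorem expo_sub :
    rescale (1 / 2 : ℝ) (PowerSeries.exp ℝ) - rescale (-(1 / 2) : ℝ) (PowerSeries.exp ℝ) =
      X * PowerSeries.expand 2 two_ne (E 1) := by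
  ext n
  rw [map_sub, coeff_rescale, coeff_rescale, PowerSeries.coeff_exp]
  cases n with
  | zero => simp
  | succ k =>
    rw [PowerSeries.coeff_succ_X_mul, PowerSeries.coeff_expand]
    by_cases h : 2 ∣ k
    · obtain ⟨m, rfl⟩ := h
      rw [if_pos (dvd_mul_right 2 m), Nat.mul_div_cancel_left m (by norm_num)]
      unfold E
      rw [PowerSeries.coeff_mk]
      have h1 : (-(1 / 2) : ℝ) ^ (2 * m + 1) = -((1 / 2 : ℝ) ^ (2 * m + 1)) := by
        rw [Odd.neg_pow ⟨m, rfl⟩]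
      rw [h1]
      have h2 : (algebraMap ℚ ℝ) (1 / ((2 * m + 1).factorial : ℚ)) =
          1 / ((2 * m + 1).factorial : ℝ) := by
        simp
      rw [h2]
      have h3 : ((2 * m + 1).factorial : ℝ) ≠ 0 := by positivity
      have h4 : (1 / 2 : ℝ) ^ (2 * m + 1) = 1 / (2 ^ (2 * m) * 2) := by
        rw [one_div, inv_pow, pow_succ, one_div]
      rw [h4]
      push_cast
      field_simp
      ring
    · rw [if_neg h]
      have hev : Even (k + 1) := by
        rcases Nat.even_or_odd k with hk | hk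
        · exact absurd hk.two_dvd h
        · exact hk.add_one
      rw [hev.neg_pow]
      ring

private theorem genF_mul : genF * PowerSeries.expand 2 two_ne (E 1) = 1 := by
  have h1 := Polynomial.bernoulli_generating_function (1 / 2 : ℝ)
  have h2 : genF * (PowerSeries.exp ℝ - 1) = X * rescale (1 / 2 : ℝ) (PowerSeries.exp ℝ) := h1
  have h3 : (PowerSeries.exp ℝ - 1) * rescale (-(1 / 2) : ℝ) (PowerSeries.exp ℝ) =
      X * PowerSeries.expand 2 two_ne (E 1) := by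
    rw [← expo_sub, sub_mul, one_mul]
    have h4 := PowerSeries.exp_mul_exp_eq_exp_add (1 : ℝ) (-(1 / 2) : ℝ)
    rw [PowerSeries.rescale_one, RingHom.id_apply] at h4
    rw [h4]
    norm_num
  have h5 : rescale (1 / 2 : ℝ) (PowerSeries.exp ℝ) * rescale (-(1 / 2) : ℝ) (PowerSeries.exp ℝ)
      = 1 := by
    rw [PowerSeries.exp_mul_exp_eq_exp_add]
    simp
  have h6 : X * (genF * PowerSeries.expand 2 two_ne (E 1)) = X * 1 := by
    calc X * (genF * PowerSeries.expand 2 two_ne (E 1))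
        = genF * (X * PowerSeries.expand 2 two_ne (E 1)) := by ring
      _ = (genF * (PowerSeries.exp ℝ - 1)) * rescale (-(1 / 2) : ℝ) (PowerSeries.exp ℝ) := by
          rw [← h3]; ring
      _ = X * (rescale (1 / 2 : ℝ) (PowerSeries.exp ℝ) *
            rescale (-(1 / 2) : ℝ) (PowerSeries.exp ℝ)) := by rw [h2]; ring
      _ = X * 1 := by rw [h5]
  exact mul_left_cancel₀ PowerSeries.X_ne_zero h6

private theorem constCoeff_E_one : constantCoeff (E 1) ≠ 0 := by
  rw [← PowerSeries.coeff_zero_eq_constantCoeff_apply]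
  unfold E
  rw [PowerSeries.coeff_mk]
  norm_num

private theorem genF_eq : genF = PowerSeries.expand 2 two_ne (E 1)⁻¹ := by
  have h1 : PowerSeries.expand 2 two_ne (E 1) * PowerSeries.expand 2 two_ne (E 1)⁻¹ = 1 := by
    rw [← map_mul, PowerSeries.mul_inv_cancel _ constCoeff_E_one, map_one]
  calc genF = genF * (PowerSeries.expand 2 two_ne (E 1) *
        PowerSeries.expand 2 two_ne (E 1)⁻¹) := by rw [h1, mul_one]
    _ = PowerSeries.expand 2 two_ne (E 1)⁻¹ := by rw [← mul_assoc, genF_mul, one_mul]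

private theorem coeff_inv_bern (m : ℕ) : coeff m (E 1)⁻¹ =
    ((Polynomial.bernoulli (2 * m)).map (algebraMap ℚ ℝ)).eval (1 / 2) /
      ((2 * m).factorial : ℝ) := by
  have h1 : coeff (2 * m) genF = coeff m (E 1)⁻¹ := by
    rw [genF_eq, PowerSeries.coeff_expand, if_pos (dvd_mul_right 2 m),
      Nat.mul_div_cancel_left m (by norm_num)]
  rw [← h1]
  unfold genF
  rw [PowerSeries.coeff_mk, map_smul, Polynomial.eval_map, ← Polynomial.aeval_def,
    Algebra.smul_def]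
  simp [div_eq_mul_inv, mul_comm]

theorem coeff_inv_E {m : ℕ} (hm : 1 ≤ m) :
    HasSum (fun j : ℕ => 2 * (-1) ^ j * ((pt (j + 1))⁻¹) ^ m) (coeff m (E 1)⁻¹) := by
  have h1 := hasSum_one_div_nat_pow_mul_cos (k := m) (by omega) (x := (1 / 2 : ℝ))
    ⟨by norm_num, by norm_num⟩
  have h2 := (hasSum_nat_add_iff' 1).mpr h1
  have h3 := h2.mul_left (2 * (-1) ^ (m + 1) / (2 * Real.pi) ^ (2 * m))
  have hpi : (2 * Real.pi) ^ (2 * m) ≠ 0 := by positivity
  have hfun : (fun j : ℕ => 2 * (-1 : ℝ) ^ j * ((pt (j + 1))⁻¹) ^ m) = fun j : ℕ =>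
      2 * (-1) ^ (m + 1) / (2 * Real.pi) ^ (2 * m) *
        (1 / ((j + 1 : ℕ) : ℝ) ^ (2 * m) * Real.cos (2 * Real.pi * ((j + 1 : ℕ) : ℝ) * (1 / 2))) := by
    funext j
    have hc : Real.cos (2 * Real.pi * ((j + 1 : ℕ) : ℝ) * (1 / 2)) = (-1) ^ (j + 1) := by
      rw [show 2 * Real.pi * ((j + 1 : ℕ) : ℝ) * (1 / 2) = ((j + 1 : ℕ) : ℝ) * Real.pi by ring]
      exact Real.cos_nat_mul_pi (j + 1)
    rw [hc]
    unfold pt
    have h4 : (-(4 * Real.pi ^ 2 * ((j + 1 : ℕ) : ℝ) ^ 2))⁻¹ ^ m =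
        (-1) ^ m / ((2 * Real.pi) ^ (2 * m) * ((j + 1 : ℕ) : ℝ) ^ (2 * m)) := by
      rw [inv_neg, neg_pow, inv_pow, div_eq_mul_inv, pow_mul, pow_mul, ← mul_pow]
      congr 3
      ring
    rw [h4]
    have h5 : (((j + 1 : ℕ) : ℝ)) ^ (2 * m) ≠ 0 := by positivity
    rw [pow_succ, pow_succ]
    field_simp
  have hval : coeff m (E 1)⁻¹ = 2 * (-1) ^ (m + 1) / (2 * Real.pi) ^ (2 * m) *
      ((-1) ^ (m + 1) * (2 * Real.pi) ^ (2 * m) / 2 / ((2 * m).factorial : ℝ) *
          Polynomial.eval (1 / 2) (Polynomial.map (algebraMap ℚ ℝ) (Polynomial.bernoulli (2 * m))) -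
        ∑ i ∈ range 1, 1 / (i : ℝ) ^ (2 * m) * Real.cos (2 * Real.pi * (i : ℝ) * (1 / 2))) := by
    rw [coeff_inv_bern]
    have h6 : ((2 * m).factorial : ℝ) ≠ 0 := by positivity
    rw [Finset.sum_range_one]
    have h7 : ((0 : ℕ) : ℝ) ^ (2 * m) = 0 := by
      rw [Nat.cast_zero]
      exact zero_pow (by omega)
    rw [h7, div_zero, zero_mul, sub_zero]
    have h8 : ((-1 : ℝ) ^ (m + 1)) * (-1) ^ (m + 1) = 1 := by
      rw [← mul_pow]; norm_num
    generalize Polynomial.eval (1 / 2 : ℝ) (Polynomial.map (algebraMap ℚ ℝ)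
      (Polynomial.bernoulli (2 * m))) = B
    calc B / ((2 * m).factorial : ℝ) = (((-1 : ℝ) ^ (m + 1)) * (-1) ^ (m + 1)) *
          (B / ((2 * m).factorial : ℝ)) := by rw [h8, one_mul]
      _ = _ := by field_simp
  rw [hval, hfun]
  exact h3

private theorem lin_mul_geo (c : ℝ) : lin c * PowerSeries.mk (fun m => (c⁻¹) ^ m) = 1 := by
  ext n
  unfold lin
  rw [sub_mul, one_mul, mul_assoc, map_sub, PowerSeries.coeff_C_mul]
  cases n with
  | zero => simp
  | succ k =>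
    rw [PowerSeries.coeff_succ_X_mul, PowerSeries.coeff_mk, PowerSeries.coeff_mk,
      PowerSeries.coeff_one, if_neg (by omega), pow_succ']
    ring

private noncomputable def tailS (J : ℕ) : ℝ⟦X⟧ :=
  (E 1)⁻¹ - ∑ j ∈ range J, C (2 * (-1) ^ j) * PowerSeries.mk (fun m => ((pt (j + 1))⁻¹) ^ m)

private theorem pt_abs (j : ℕ) : |pt (j + 1)| = 4 * Real.pi ^ 2 * ((j : ℝ) + 1) ^ 2 := by
  unfold pt
  rw [abs_neg, abs_of_nonneg (by positivity)]
  push_cast
  ring

private theorem hol_tail (J : ℕ) : Hol (4 * Real.pi ^ 2 * ((J : ℝ) + 1) ^ 2) (tailS J) := by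
  intro r hr hrρ
  have hsumm : Summable fun j : ℕ => 2 * (r / (4 * Real.pi ^ 2 * (((j + J : ℕ) : ℝ) + 1) ^ 2)) := by
    have h1 : Summable fun n : ℕ => 1 / (n : ℝ) ^ 2 := Real.summable_one_div_nat_pow.2 (by norm_num)
    have h2 := (summable_nat_add_iff (J + 1)).2 h1
    have h3 := h2.mul_left (2 * (r / (4 * Real.pi ^ 2)))
    refine h3.congr ?_
    intro j
    push_cast
    have : (j : ℝ) + J + 1 ≠ 0 := by positivity
    have hpi : Real.pi ≠ 0 := Real.pi_ne_zero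
    rw [← add_assoc]
    field_simp
  refine ⟨|coeff 0 (tailS J)| +
    ∑' j : ℕ, 2 * (r / (4 * Real.pi ^ 2 * (((j + J : ℕ) : ℝ) + 1) ^ 2)), ?_⟩
  have hnn : 0 ≤ ∑' j : ℕ, 2 * (r / (4 * Real.pi ^ 2 * (((j + J : ℕ) : ℝ) + 1) ^ 2)) :=
    tsum_nonneg (fun j => by positivity)
  intro m
  rcases Nat.eq_zero_or_pos m with rfl | hm
  · rw [pow_zero, mul_one]
    linarith
  · have h1 := (hasSum_nat_add_iff' J).mpr (coeff_inv_E (m := m) hm)
    have h2 : coeff m (tailS J) = coeff m (E 1)⁻¹ -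
        ∑ j ∈ range J, 2 * (-1) ^ j * ((pt (j + 1))⁻¹) ^ m := by
      unfold tailS
      rw [map_sub, map_sum]
      congr 1
      apply Finset.sum_congr rfl
      intro j _
      rw [PowerSeries.coeff_C_mul, PowerSeries.coeff_mk]
    rw [← h2] at h1
    have h3 := h1.mul_right (r ^ m)
    have h4 := h3.norm_le_of_bounded hsumm.hasSum (by
      intro j
      have h5 : |pt (j + J + 1)| = 4 * Real.pi ^ 2 * (((j + J : ℕ) : ℝ) + 1) ^ 2 := pt_abs (j + J)
      set a : ℝ := 4 * Real.pi ^ 2 * (((j + J : ℕ) : ℝ) + 1) ^ 2 with ha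
      have hapos : 0 < a := by positivity
      have hra : r ≤ a := by
        refine hrρ.le.trans ?_
        rw [ha]
        apply mul_le_mul_of_nonneg_left _ (by positivity)
        apply pow_le_pow_left₀ (by positivity)
        push_cast
        have : (0 : ℝ) ≤ j := Nat.cast_nonneg j
        linarith
      rw [Real.norm_eq_abs, abs_mul, abs_mul, abs_mul, abs_pow, abs_pow, abs_pow, abs_inv, h5,
        abs_neg, abs_one, one_pow, mul_one, abs_of_pos hr, abs_two, mul_assoc, ← mul_pow]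
      apply mul_le_mul_of_nonneg_left _ (by norm_num)
      have h6 : a⁻¹ * r = r / a := by rw [div_eq_mul_inv, mul_comm]
      rw [h6]
      have h7 : r / a ≤ 1 := (div_le_one hapos).2 hra
      have h8 : 0 ≤ r / a := by positivity
      calc (r / a) ^ m ≤ (r / a) ^ 1 := pow_le_pow_of_le_one h8 h7 hm
        _ = r / a := pow_one _)
    rw [Real.norm_eq_abs, abs_mul, abs_pow, abs_of_pos hr] at h4
    have := abs_nonneg (coeff 0 (tailS J))
    linarith

theorem hol_inv (J : ℕ) :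
    Hol (4 * Real.pi ^ 2 * ((J : ℝ) + 1) ^ 2) ((∏ j ∈ Icc 1 J, lin (pt j)) * (E 1)⁻¹) := by
  have h1 : (E 1)⁻¹ = tailS J +
      ∑ j ∈ range J, C (2 * (-1) ^ j) * PowerSeries.mk (fun m => ((pt (j + 1))⁻¹) ^ m) := by
    unfold tailS
    ring
  have hB : Hol (4 * Real.pi ^ 2 * ((J : ℝ) + 1) ^ 2) (∏ j ∈ Icc 1 J, lin (pt j)) :=
    hol_prod _ (fun i _ => hol_lin _ _)
  rw [h1, mul_add, Finset.mul_sum]
  refine hol_add (hol_mul hB (hol_tail J)) (hol_sum _ ?_)
  intro j hj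
  have hj' : j + 1 ∈ Icc 1 J := by
    rw [Finset.mem_Icc]
    have := Finset.mem_range.1 hj
    omega
  have h2 : (∏ i ∈ Icc 1 J, lin (pt i)) *
      (C (2 * (-1) ^ j) * PowerSeries.mk (fun m => ((pt (j + 1))⁻¹) ^ m)) =
      C (2 * (-1) ^ j) * ∏ i ∈ (Icc 1 J).erase (j + 1), lin (pt i) := by
    rw [← Finset.mul_prod_erase _ _ hj']
    calc lin (pt (j + 1)) * (∏ i ∈ (Icc 1 J).erase (j + 1), lin (pt i)) *
        (C (2 * (-1) ^ j) * PowerSeries.mk (fun m => ((pt (j + 1))⁻¹) ^ m))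
        = (lin (pt (j + 1)) * PowerSeries.mk (fun m => ((pt (j + 1))⁻¹) ^ m)) *
          (C (2 * (-1) ^ j) * ∏ i ∈ (Icc 1 J).erase (j + 1), lin (pt i)) := by ring
      _ = _ := by rw [lin_mul_geo, one_mul]
  rw [h2]
  exact hol_mul (hol_C _ _) (hol_prod _ (fun i _ => hol_lin _ _))

end Pool.Agent.H99.Seif
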