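import Pool.Agent.H99.Seif.Hol

/-!
# One pole

`G * (lin c)⁻¹ ^ r` has the coefficients `Q (m) c⁻¹ ^ m` up to a series which converges in the larger
disc. Induction on `r`: `r = 0` is trivial (`Q = 0`). For the step write `G = C (ev G c) + lin c * g`
(`hol_div` for `G - C (ev G c)`), so
`G * (lin c)⁻¹ ^ (r + 1) = C (ev G c) * (lin c)⁻¹ ^ (r + 1) + g * (lin c)⁻¹ ^ r`; the coefficients of
`(lin c)⁻¹ ^ (r + 1)` are `(m + r).choose r * c⁻¹ ^ m`, a polynomial in `m` of degree exactly `r`.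
The case `ev g c = 0` must be allowed in the induction, so first prove the version without
`ev G c ≠ 0` and with `Q = 0 ∨ Q.natDegree < r` (`degree < r`), and then the statement.
-/

open PowerSeries Finset

namespace Pool.Agent.H99.Seif

private theorem lin_inv (c : ℝ) : (lin c)⁻¹ = rescale c⁻¹ (PowerSeries.mk (1 : ℕ → ℝ)) := by
  have h0 : constantCoeff (lin c) ≠ 0 := by simp [lin]
  rw [PowerSeries.inv_eq_iff_mul_eq_one h0]
  have h1 : lin c = rescale c⁻¹ (1 - X) := by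
    rw [map_sub, map_one, rescale_X]
    rfl
  rw [h1, ← map_mul, PowerSeries.mk_one_mul_one_sub_eq_one, map_one]

private theorem lin_mul_inv (c : ℝ) : lin c * (lin c)⁻¹ = 1 := by
  have h0 : constantCoeff (lin c) ≠ 0 := by simp [lin]
  exact PowerSeries.mul_inv_cancel _ h0

private theorem lin_inv_pow (c : ℝ) (r : ℕ) : (lin c)⁻¹ ^ (r + 1) =
    PowerSeries.mk fun m => (((r + m).choose r : ℕ) : ℝ) * (c⁻¹) ^ m := by
  rw [lin_inv, ← map_pow, PowerSeries.mk_one_pow_eq_mk_choose_add]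
  ext m
  rw [coeff_rescale, coeff_mk, coeff_mk, mul_comm]

private theorem exists_choose_poly (r : ℕ) : ∃ P : Polynomial ℝ, P.degree = r ∧
    ∀ m : ℕ, P.eval (m : ℝ) = (((r + m).choose r : ℕ) : ℝ) := by
  refine ⟨Polynomial.C ((r.factorial : ℝ)⁻¹) * (ascPochhammer ℝ r).comp (Polynomial.X + 1), ?_, ?_⟩
  · have hr : ((r.factorial : ℝ)⁻¹) ≠ 0 := by
      have : (r.factorial : ℝ) ≠ 0 := by exact_mod_cast r.factorial_ne_zero
      exact inv_ne_zero this
    have hq : (Polynomial.X + 1 : Polynomial ℝ).natDegree = 1 := by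
      simpa using Polynomial.natDegree_X_add_C (1 : ℝ)
    rw [Polynomial.degree_C_mul hr, Polynomial.degree_eq_natDegree, Polynomial.natDegree_comp,
      ascPochhammer_natDegree, hq, mul_one]
    intro h
    have h1 := congrArg (Polynomial.eval (0 : ℝ)) h
    rw [Polynomial.eval_comp] at h1
    simp only [Polynomial.eval_add, Polynomial.eval_X, Polynomial.eval_one, zero_add,
      Polynomial.eval_zero] at h1
    have h2 : 0 < (ascPochhammer ℝ r).eval 1 := ascPochhammer_pos r 1 one_pos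
    linarith
  · intro m
    rw [Polynomial.eval_mul, Polynomial.eval_C, Polynomial.eval_comp]
    simp only [Polynomial.eval_add, Polynomial.eval_X, Polynomial.eval_one]
    have h1 : (ascPochhammer ℝ r).eval ((m : ℝ) + 1) = (((m + 1).ascFactorial r : ℕ) : ℝ) := by
      have h2 := ascPochhammer_nat_eq_natCast_ascFactorial ℝ (m + 1) r
      rw [← h2]
      push_cast
      rfl
    rw [h1, Nat.ascFactorial_eq_factorial_mul_choose, Nat.cast_mul, add_comm m r, ← mul_assoc,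
      inv_mul_cancel₀ (by exact_mod_cast r.factorial_ne_zero), one_mul]

private theorem step {ρ c : ℝ} (hc : c ≠ 0) (hcρ : |c| < ρ) {G : ℝ⟦X⟧} (hG : Hol ρ G) (r : ℕ)
    {P : Polynomial ℝ} (hP : ∀ m : ℕ, P.eval (m : ℝ) = (((r + m).choose r : ℕ) : ℝ)) :
    ∃ g : ℝ⟦X⟧, Hol ρ g ∧ ∀ Q : Polynomial ℝ,
      G * ((lin c)⁻¹) ^ (r + 1) - PowerSeries.mk (fun m : ℕ =>
        (Polynomial.C (ev G c) * P + Q).eval (m : ℝ) * (c⁻¹) ^ m) =
      g * ((lin c)⁻¹) ^ r - PowerSeries.mk (fun m : ℕ => Q.eval (m : ℝ) * (c⁻¹) ^ m) := by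
  have h0 : ev (G - C (ev G c)) c = 0 := by
    have h1 := ev_add (hol_sub hG (hol_C ρ (ev G c))) (hol_C ρ (ev G c)) hcρ
    rw [sub_add_cancel, ev_C] at h1
    linarith
  obtain ⟨g, hg, hgG⟩ := hol_div hc hcρ (hol_sub hG (hol_C ρ (ev G c))) h0
  refine ⟨g, hg, fun Q => ?_⟩
  have hG' : G = C (ev G c) + lin c * g := by rw [← hgG]; ring
  have e1 : G * ((lin c)⁻¹) ^ (r + 1) =
      C (ev G c) * ((lin c)⁻¹) ^ (r + 1) + g * ((lin c)⁻¹) ^ r := by
    conv_lhs => rw [hG']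
    have : lin c * g * ((lin c)⁻¹) ^ (r + 1) = (lin c * (lin c)⁻¹) * (g * ((lin c)⁻¹) ^ r) := by
      ring
    rw [add_mul, this, lin_mul_inv, one_mul]
  have e2 : PowerSeries.mk (fun m : ℕ =>
        (Polynomial.C (ev G c) * P + Q).eval (m : ℝ) * (c⁻¹) ^ m) =
      C (ev G c) * ((lin c)⁻¹) ^ (r + 1) +
        PowerSeries.mk (fun m : ℕ => Q.eval (m : ℝ) * (c⁻¹) ^ m) := by
    rw [lin_inv_pow]
    ext m
    rw [coeff_mk, map_add, coeff_C_mul, coeff_mk, coeff_mk, Polynomial.eval_add,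
      Polynomial.eval_mul, Polynomial.eval_C, hP]
    ring
  rw [e1, e2]
  ring

private theorem one_point_weak {ρ c : ℝ} (hc : c ≠ 0) (hcρ : |c| < ρ) (r : ℕ) :
    ∀ G : ℝ⟦X⟧, Hol ρ G → ∃ Q : Polynomial ℝ, Q.degree < r ∧
      Hol ρ (G * ((lin c)⁻¹) ^ r - PowerSeries.mk fun m => Q.eval (m : ℝ) * (c⁻¹) ^ m) := by
  induction r with
  | zero =>
    intro G hG
    refine ⟨0, by simp, ?_⟩
    have : (PowerSeries.mk fun m : ℕ => (0 : Polynomial ℝ).eval (m : ℝ) * (c⁻¹) ^ m) = 0 := by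
      ext m; simp
    rw [this, pow_zero, mul_one, sub_zero]
    exact hG
  | succ r ih =>
    intro G hG
    obtain ⟨P, hPd, hP⟩ := exists_choose_poly r
    obtain ⟨g, hg, hgQ⟩ := step hc hcρ hG r hP
    obtain ⟨Q, hQd, hQ⟩ := ih g hg
    refine ⟨Polynomial.C (ev G c) * P + Q, ?_, ?_⟩
    · have h1 : (Polynomial.C (ev G c) * P).degree ≤ r := by
        refine (Polynomial.degree_mul_le _ _).trans ?_
        rw [hPd]
        calc (Polynomial.C (ev G c)).degree + (r : WithBot ℕ) ≤ 0 + (r : WithBot ℕ) :=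
              add_le_add_left Polynomial.degree_C_le _
          _ = r := zero_add _
      refine lt_of_le_of_lt (Polynomial.degree_add_le _ _) ?_
      refine lt_of_le_of_lt (max_le h1 hQd.le) ?_
      exact_mod_cast Nat.lt_succ_self r
    · rw [hgQ Q]
      exact hQ

theorem one_point {ρ c : ℝ} (hc : c ≠ 0) (hcρ : |c| < ρ) {G : ℝ⟦X⟧} (hG : Hol ρ G)
    (hG0 : ev G c ≠ 0) {r : ℕ} (hr : 0 < r) : ∃ Q : Polynomial ℝ, Q ≠ 0 ∧ Q.natDegree + 1 = r ∧
      Hol ρ (G * ((lin c)⁻¹) ^ r - PowerSeries.mk fun m => Q.eval (m : ℝ) * (c⁻¹) ^ m) := by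
  obtain ⟨r, rfl⟩ : ∃ s, r = s + 1 := ⟨r - 1, by omega⟩
  obtain ⟨P, hPd, hP⟩ := exists_choose_poly r
  obtain ⟨g, hg, hgQ⟩ := step hc hcρ hG r hP
  obtain ⟨Q, hQd, hQ⟩ := one_point_weak hc hcρ r g hg
  have h1 : (Polynomial.C (ev G c) * P).degree = r := by
    rw [Polynomial.degree_C_mul hG0, hPd]
  have h2 : (Polynomial.C (ev G c) * P + Q).degree = r := by
    rw [Polynomial.degree_add_eq_left_of_degree_lt (by rw [h1]; exact hQd), h1]
  refine ⟨Polynomial.C (ev G c) * P + Q, ?_, ?_, ?_⟩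
  · intro h
    rw [h, Polynomial.degree_zero] at h2
    exact absurd h2 (by simp)
  · rw [Polynomial.natDegree_eq_of_degree_eq_some h2]
  · rw [hgQ Q]
    exact hQ

end Pool.Agent.H99.Seif
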