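import Pool.Agent.H99.Seif.SinhSer
import Pool.Agent.H99.Seif.InvE

/-!
# The orders of the zeros

Let `ρ = 4 π ^ 2 (J + 1) ^ 2`, `t j = lin (pt j)`, `B = ∏ j ∈ Icc 1 J, t j`,
`u = B * (E 1)⁻¹` (`Hol ρ`, `hol_inv`).
(a) simple zeros of `E 1`: `E 1 * u = B`; at `pt j` (`1 ≤ j ≤ J`) the right side vanishes and
`ev (E 1) (pt j) = 0`; write `E 1 = t j * e` (`hol_div`, any radius), cancel `t j`:
`e * u = ∏ l ≠ j, t l`, which is not zero at `pt j`; so `ev u (pt j) ≠ 0` and `ev e (pt j) ≠ 0`.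
(b) `E k = rescale (1 / k ^ 2) (E 1)` (coefficientwise), and `pt j / k ^ 2 = pt (j / k)` for `k ∣ j`;
so for `k ∣ j`: `E k = t j * (rescale (1 / k ^ 2) e')` with `E 1 = lin (pt (j / k)) * e'`, because
`rescale (1 / k ^ 2) (lin c) = lin (c k ^ 2)`, and `ev (rescale a f) y = ev f (a y)`; its value at
`pt j` is `ev e' (pt (j / k)) ≠ 0` by (a). For `k ∤ j`: `ev (E k) (pt j) ≠ 0`
(`ev_E_eq_zero_iff`). All these series are `Hol ρ` for every `ρ`
(or for all large ones: `e'` is `Hol` in every disc, `hol_div` with a large radius and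
uniqueness of the quotient, or estimate directly).
(c) Take the product over `k ∈ p` and multiply by `u ^ n`.
-/

open PowerSeries Finset

namespace Pool.Agent.H99.Seif

private theorem pt_ne {i j : ℕ} (hj : 1 ≤ j) (h : i ≠ j) (hi : 1 ≤ i) : 1 - (pt i)⁻¹ * pt j ≠ 0 := by
  have hpi : (4 : ℝ) * Real.pi ^ 2 ≠ 0 := by positivity
  have hi0 : (0 : ℝ) < (i : ℝ) := by exact_mod_cast hi
  have hj0 : (0 : ℝ) < (j : ℝ) := by exact_mod_cast hj
  have hpt : pt i ≠ 0 := by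
    unfold pt
    have : (4 : ℝ) * Real.pi ^ 2 * (i : ℝ) ^ 2 ≠ 0 := by positivity
    exact neg_ne_zero.2 this
  intro h0
  have h1 : (pt i)⁻¹ * pt j = 1 := by linarith
  have h2 : pt j = pt i := by
    have := congrArg (fun x => pt i * x) h1
    simp only [mul_one] at this
    rw [← mul_assoc, mul_inv_cancel₀ hpt, one_mul] at this
    exact this
  unfold pt at h2
  have h3 : (j : ℝ) ^ 2 = (i : ℝ) ^ 2 := by
    have h4 : (4 : ℝ) * Real.pi ^ 2 * (j : ℝ) ^ 2 = 4 * Real.pi ^ 2 * (i : ℝ) ^ 2 := by linarith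
    exact mul_left_cancel₀ hpi h4
  have h5 : (j : ℝ) = i := by
    exact (pow_left_inj₀ hj0.le hi0.le (by norm_num)).1 h3
  exact h (by exact_mod_cast h5.symm)

private theorem abs_pt (j : ℕ) : |pt j| = 4 * Real.pi ^ 2 * (j : ℝ) ^ 2 := by
  unfold pt
  rw [abs_neg, abs_of_nonneg (by positivity)]

private theorem pt_ne_zero {j : ℕ} (hj : 1 ≤ j) : pt j ≠ 0 := by
  have hj0 : (0 : ℝ) < (j : ℝ) := by exact_mod_cast hj
  unfold pt
  have : (4 : ℝ) * Real.pi ^ 2 * (j : ℝ) ^ 2 ≠ 0 := by positivity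
  exact neg_ne_zero.2 this

private theorem lin_ne_zero (c : ℝ) : lin c ≠ 0 := by
  intro h
  have h1 : constantCoeff (lin c) = 1 := by
    unfold lin
    simp
  rw [h] at h1
  simp at h1

private theorem abs_pt_lt {J j : ℕ} (hj : j ≤ J) : |pt j| < 4 * Real.pi ^ 2 * ((J : ℝ) + 1) ^ 2 := by
  rw [abs_pt]
  have h1 : (j : ℝ) < (J : ℝ) + 1 := by
    have : (j : ℝ) ≤ J := by exact_mod_cast hj
    linarith
  have h2 : (j : ℝ) ^ 2 < ((J : ℝ) + 1) ^ 2 := pow_lt_pow_left₀ h1 (by positivity) (by norm_num)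
  exact mul_lt_mul_of_pos_left h2 (by positivity)

/-- the quotient of `E 1` by the linear factor at `pt j` -/
private theorem quot_one {j : ℕ} (hj : 1 ≤ j) :
    ∃ e : ℝ⟦X⟧, (∀ R, Hol R e) ∧ E 1 = lin (pt j) * e := by
  have hex : ∀ R, |pt j| < R → ∃ g : ℝ⟦X⟧, Hol R g ∧ E 1 = lin (pt j) * g := by
    intro R hR
    exact hol_div (pt_ne_zero hj) hR (hol_E le_rfl R)
      ((ev_E_eq_zero_iff le_rfl hj).2 (one_dvd j))
  obtain ⟨e, -, he⟩ := hex (|pt j| + 1) (by linarith)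
  refine ⟨e, ?_, he⟩
  intro R
  obtain ⟨g, hg, hg'⟩ := hex (max R (|pt j| + 1)) (lt_of_lt_of_le (by linarith) (le_max_right _ _))
  have : g = e := by
    apply mul_left_cancel₀ (lin_ne_zero (pt j))
    rw [← hg', ← he]
  rw [← this]
  exact hol_mono (le_max_left _ _) hg

private theorem ev_u {J j : ℕ} (hj : j ∈ Icc 1 J) {e : ℝ⟦X⟧} (he : ∀ R, Hol R e)
    (h : E 1 = lin (pt j) * e) :
    ev e (pt j) ≠ 0 ∧ ev ((∏ i ∈ Icc 1 J, lin (pt i)) * (E 1)⁻¹) (pt j) ≠ 0 := by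
  have hj' := Finset.mem_Icc.1 hj
  set ρ : ℝ := 4 * Real.pi ^ 2 * ((J : ℝ) + 1) ^ 2 with hρ
  set u : ℝ⟦X⟧ := (∏ i ∈ Icc 1 J, lin (pt i)) * (E 1)⁻¹ with hu
  have hE : constantCoeff (E 1) ≠ 0 := by
    rw [constCoeff_E le_rfl]; norm_num
  have h1 : E 1 * u = ∏ i ∈ Icc 1 J, lin (pt i) := by
    rw [hu, mul_comm, mul_assoc, PowerSeries.inv_mul_cancel _ hE, mul_one]
  have h2 : e * u = ∏ i ∈ (Icc 1 J).erase j, lin (pt i) := by
    apply mul_left_cancel₀ (lin_ne_zero (pt j))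
    rw [← mul_assoc, ← h, h1, ← Finset.mul_prod_erase _ _ hj]
  have hlt := abs_pt_lt hj'.2
  have h3 : ev (e * u) (pt j) = ev e (pt j) * ev u (pt j) :=
    ev_mul (he ρ) (hol_inv J) hlt
  have h4 : ev (∏ i ∈ (Icc 1 J).erase j, lin (pt i)) (pt j) =
      ∏ i ∈ (Icc 1 J).erase j, ev (lin (pt i)) (pt j) :=
    ev_prod _ (fun i _ => hol_lin ρ (pt i)) hlt
  have h5 : ev e (pt j) * ev u (pt j) ≠ 0 := by
    rw [← h3, h2, h4]
    apply Finset.prod_ne_zero_iff.2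
    intro i hi
    rw [ev_lin]
    have hi' := Finset.mem_erase.1 hi
    exact pt_ne hj'.1 hi'.1 (Finset.mem_Icc.1 hi'.2).1
  exact ⟨left_ne_zero_of_mul h5, right_ne_zero_of_mul h5⟩

private theorem hol_rescale {f : ℝ⟦X⟧} (hf : ∀ R, Hol R f) {a : ℝ} (ha : 0 < a) (R : ℝ) :
    Hol R (rescale a f) := by
  intro r hr _
  obtain ⟨K, hK⟩ := hf (a * r + 1) (a * r) (by positivity) (by linarith)
  refine ⟨K, fun m => ?_⟩
  have h1 := hK m
  rw [coeff_rescale, abs_mul, abs_pow, abs_of_pos ha]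
  rw [mul_pow] at h1
  calc a ^ m * |coeff m f| * r ^ m = |coeff m f| * (a ^ m * r ^ m) := by ring
    _ ≤ K := h1

private theorem E_rescale {k : ℕ} (hk : 1 ≤ k) : E k = rescale (((k : ℝ) ^ 2)⁻¹) (E 1) := by
  ext m
  have hk0 : (k : ℝ) ≠ 0 := by
    have : (0 : ℝ) < (k : ℝ) := by exact_mod_cast hk
    exact this.ne'
  rw [coeff_rescale]
  unfold E
  rw [coeff_mk, coeff_mk]
  have hf : ((2 * m + 1).factorial : ℝ) ≠ 0 := by exact_mod_cast (Nat.factorial_pos _).ne'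
  rw [inv_pow, ← pow_mul, mul_pow, mul_pow]
  field_simp
  simp

private theorem ev_rescale (f : ℝ⟦X⟧) (a y : ℝ) : ev (rescale a f) y = ev f (a * y) := by
  unfold ev
  congr 1
  ext m
  rw [coeff_rescale, mul_pow]
  ring

private theorem rescale_lin {k : ℕ} (hk : 1 ≤ k) (c : ℝ) :
    rescale (((k : ℝ) ^ 2)⁻¹) (lin c) = lin (c * (k : ℝ) ^ 2) := by
  ext m
  rw [coeff_rescale]
  unfold lin
  have h0 : ∀ d : ℝ, coeff m (1 - C d * X : ℝ⟦X⟧) = (if m = 0 then 1 else 0) -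
      (if m = 1 then d else 0) := by
    intro d
    rw [map_sub, coeff_one, coeff_C_mul, coeff_X]
    simp
  rw [h0, h0]
  rcases Nat.eq_zero_or_pos m with rfl | hm
  · simp
  · by_cases h1 : m = 1
    · subst h1
      simp only [if_true, pow_one, one_ne_zero, if_false]
      rw [mul_inv]
      ring
    · simp [h1, hm.ne']

/-- the quotient of `E k` by the linear factor at `pt j` -/
private theorem quot_k {k j : ℕ} (hk : 1 ≤ k) (hj : 1 ≤ j) (hd : k ∣ j) :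
    ∃ e : ℝ⟦X⟧, (∀ R, Hol R e) ∧ E k = lin (pt j) * e ∧ ev e (pt j) ≠ 0 := by
  obtain ⟨i, rfl⟩ := hd
  have hi : 1 ≤ i := by
    rcases Nat.eq_zero_or_pos i with rfl | h
    · simp at hj
    · exact h
  have hk0 : (0 : ℝ) < (k : ℝ) := by exact_mod_cast hk
  obtain ⟨e, he, h⟩ := quot_one hi
  have hne := (ev_u (J := i) (Finset.mem_Icc.2 ⟨hi, le_rfl⟩) he h).1
  have hpt : pt i * (k : ℝ) ^ 2 = pt (k * i) := by
    unfold pt
    push_cast
    ring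
  refine ⟨rescale (((k : ℝ) ^ 2)⁻¹) e, fun R => hol_rescale he (by positivity) R, ?_, ?_⟩
  · rw [E_rescale hk, h, map_mul, rescale_lin hk, hpt]
  · rw [ev_rescale, ← hpt]
    have : ((k : ℝ) ^ 2)⁻¹ * (pt i * (k : ℝ) ^ 2) = pt i := by
      field_simp
    rw [this]
    exact hne

theorem factor {p : Finset ℕ} (hp : IsSeif p) {J j : ℕ} (hj : j ∈ Icc 1 J) (n : ℕ) :
    ∃ G : ℝ⟦X⟧, Hol (4 * Real.pi ^ 2 * ((J : ℝ) + 1) ^ 2) G ∧ ev G (pt j) ≠ 0 ∧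
      (∏ k ∈ p, E k) * ((∏ i ∈ Icc 1 J, lin (pt i)) * (E 1)⁻¹) ^ n = lin (pt j) ^ zn p j * G := by
  classical
  have hj' := Finset.mem_Icc.1 hj
  set ρ : ℝ := 4 * Real.pi ^ 2 * ((J : ℝ) + 1) ^ 2 with hρ
  set u : ℝ⟦X⟧ := (∏ i ∈ Icc 1 J, lin (pt i)) * (E 1)⁻¹ with hu
  have hlt := abs_pt_lt hj'.2
  have hk1 : ∀ k ∈ p, 1 ≤ k := fun k hk => le_trans (by norm_num) (hp.2.1 k hk)
  -- quotients
  have hq : ∀ k : ℕ, ∃ e : ℝ⟦X⟧, (k ∈ p ∧ k ∣ j) →
      (∀ R, Hol R e) ∧ E k = lin (pt j) * e ∧ ev e (pt j) ≠ 0 := by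
    intro k
    by_cases h : k ∈ p ∧ k ∣ j
    · obtain ⟨e, he⟩ := quot_k (hk1 k h.1) hj'.1 h.2
      exact ⟨e, fun _ => he⟩
    · exact ⟨0, fun h' => (h h').elim⟩
  choose e he using hq
  obtain ⟨e1, he1, h1⟩ := quot_one hj'.1
  have hune := (ev_u hj he1 h1).2
  set P1 := p.filter (· ∣ j) with hP1
  set P2 := p.filter (fun k => ¬ k ∣ j) with hP2
  have hmem1 : ∀ k ∈ P1, k ∈ p ∧ k ∣ j := fun k hk => Finset.mem_filter.1 hk
  have hmem2 : ∀ k ∈ P2, k ∈ p ∧ ¬ k ∣ j := fun k hk => Finset.mem_filter.1 hk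
  have hH1 : Hol ρ (∏ k ∈ P1, e k) := hol_prod _ fun k hk => (he k (hmem1 k hk)).1 ρ
  have hH2 : Hol ρ (∏ k ∈ P2, E k) := hol_prod _ fun k hk => hol_E (hk1 k (hmem2 k hk).1) ρ
  have hHu : Hol ρ (u ^ n) := hol_pow (hol_inv J) n
  refine ⟨(∏ k ∈ P1, e k) * (∏ k ∈ P2, E k) * u ^ n, hol_mul (hol_mul hH1 hH2) hHu, ?_, ?_⟩
  · rw [ev_mul (hol_mul hH1 hH2) hHu hlt, ev_mul hH1 hH2 hlt,
      ev_prod _ (fun k hk => (he k (hmem1 k hk)).1 ρ) hlt,
      ev_prod _ (fun k hk => hol_E (hk1 k (hmem2 k hk).1) ρ) hlt, ev_pow (hol_inv J) hlt]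
    refine mul_ne_zero (mul_ne_zero ?_ ?_) (pow_ne_zero _ hune)
    · exact Finset.prod_ne_zero_iff.2 fun k hk => (he k (hmem1 k hk)).2.2
    · refine Finset.prod_ne_zero_iff.2 fun k hk => ?_
      intro h0
      exact (hmem2 k hk).2 ((ev_E_eq_zero_iff (hk1 k (hmem2 k hk).1) hj'.1).1 h0)
  · have hsplit : ∏ k ∈ p, E k = (∏ k ∈ P1, E k) * (∏ k ∈ P2, E k) :=
      (Finset.prod_filter_mul_prod_filter_not p (· ∣ j) _).symm
    have hP : ∏ k ∈ P1, E k = lin (pt j) ^ zn p j * ∏ k ∈ P1, e k := by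
      rw [Finset.prod_congr rfl fun k hk => (he k (hmem1 k hk)).2.1, Finset.prod_mul_distrib,
        Finset.prod_const]
      rfl
    rw [hsplit, hP]
    ring

end Pool.Agent.H99.Seif
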