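import Pool.Agent.H99.Seif.OnePt
import Pool.Agent.H99.Seif.ZeroOrd

/-!
# The poles of `phi p`

Let `N = p.card`, `n = N - 2`, `ρ = 4 π ^ 2 (J + 1) ^ 2`, `t j = lin (pt j)`, `B = ∏ j ∈ Icc 1 J, t j`,
`u = B * (E 1)⁻¹`, `G = (∏ k ∈ p, E k) * u ^ n`, so `phi p = G * B⁻¹ ^ n` and `Hol ρ G`
(`hol_E`, `hol_inv`). By `factor`: `G = t j ^ (zn p j) * G'` with `Hol ρ G'`, `ev G' (pt j) ≠ 0`.
Partial fractions: the `t j ^ n` are pairwise coprime in `ℝ[X]`
(`Polynomial` versions; `exists_sum_eq_one_iff_pairwise_coprime`), so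
`1 = ∑ j, μ j * ∏ l ≠ j, t l ^ n` with polynomials `μ j`, `ev (μ j) (pt j) ≠ 0` (evaluate at `pt j`).
Hence `phi p = ∑ j, μ j * G * (t j)⁻¹ ^ n` (for `J = 0` directly: `Hol ρ (phi p)`). The `j`-th term is
`μ j * G' * (t j)⁻¹ ^ (n - zn p j)` if `zn p j < n` (then `one_point` gives `Q j` of degree
`n - zn p j - 1 = N - 3 - zn p j`) and `Hol ρ` otherwise (`Q j = 0`).
-/

open PowerSeries Finset

namespace Pool.Agent.H99.Seif

/-- The polynomial `1 - X / c`. -/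
private noncomputable def plin (c : ℝ) : Polynomial ℝ := 1 - Polynomial.C c⁻¹ * Polynomial.X

private theorem plin_coe (c : ℝ) : ((plin c : Polynomial ℝ) : ℝ⟦X⟧) = lin c := by
  rw [plin, lin]
  simp

private theorem eval_plin_self {c : ℝ} (hc : c ≠ 0) : (plin c).eval c = 0 := by
  rw [plin]
  simp [hc]

private theorem plin_coprime {a b : ℝ} (ha : a ≠ 0) (hb : b ≠ 0) (hab : a ≠ b) :
    IsCoprime (plin a) (plin b) := by
  have hab' : a - b ≠ 0 := sub_ne_zero.2 hab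
  refine ⟨Polynomial.C (a / (a - b)), Polynomial.C (-b / (a - b)), ?_⟩
  have h1 : Polynomial.C (a / (a - b)) * Polynomial.C a⁻¹ = Polynomial.C (1 / (a - b)) := by
    rw [← Polynomial.C_mul]; congr 1; field_simp
  have h2 : Polynomial.C (-b / (a - b)) * Polynomial.C b⁻¹ = -Polynomial.C (1 / (a - b)) := by
    rw [← Polynomial.C_mul, ← Polynomial.C_neg]; congr 1; field_simp
  have h3 : Polynomial.C (a / (a - b)) + Polynomial.C (-b / (a - b)) = 1 := by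
    rw [← Polynomial.C_add, ← Polynomial.C_1]; congr 1; field_simp; ring
  rw [plin, plin]
  linear_combination h3 - Polynomial.X * h1 - Polynomial.X * h2

private theorem hol_poly (ρ : ℝ) (μ : Polynomial ℝ) : Hol ρ (μ : ℝ⟦X⟧) := by
  have h : (μ : ℝ⟦X⟧) = ∑ i ∈ range (μ.natDegree + 1), C (μ.coeff i) * X ^ i := by
    conv_lhs => rw [μ.as_sum_range_C_mul_X_pow]
    rw [← Polynomial.coeToPowerSeries.ringHom_apply, map_sum]
    refine Finset.sum_congr rfl fun i _ => ?_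
    rw [map_mul, map_pow]
    simp
  rw [h]
  exact hol_sum _ fun i _ => hol_mul (hol_C _ _) (hol_pow (hol_X _) _)

private theorem ev_poly (μ : Polynomial ℝ) (y : ℝ) : ev (μ : ℝ⟦X⟧) y = μ.eval y := by
  rw [ev, Polynomial.eval_eq_sum_range]
  rw [tsum_eq_sum (s := range (μ.natDegree + 1))]
  · refine Finset.sum_congr rfl fun i _ => ?_
    rw [Polynomial.coeff_coe]
  · intro i hi
    rw [Polynomial.coeff_coe, Polynomial.coeff_eq_zero_of_natDegree_lt, zero_mul]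
    simpa using hi

private theorem pt_ne_zero {j : ℕ} (hj : 1 ≤ j) : pt j ≠ 0 := by
  have h : (0 : ℝ) < (j : ℝ) := by exact_mod_cast hj
  have := Real.pi_pos
  rw [pt, neg_ne_zero]
  positivity

private theorem abs_pt (j : ℕ) : |pt j| = 4 * Real.pi ^ 2 * (j : ℝ) ^ 2 := by
  rw [pt, abs_neg, abs_of_nonneg (by positivity)]

private theorem abs_pt_lt {j J : ℕ} (hj : j ∈ Icc 1 J) :
    |pt j| < 4 * Real.pi ^ 2 * ((J : ℝ) + 1) ^ 2 := by
  rw [abs_pt]
  have h1 : (j : ℝ) ≤ J := by exact_mod_cast (Finset.mem_Icc.1 hj).2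
  have h2 : (j : ℝ) ^ 2 < ((J : ℝ) + 1) ^ 2 := by
    apply pow_lt_pow_left₀ (by linarith) (by positivity) (by norm_num)
  have := Real.pi_pos
  exact mul_lt_mul_of_pos_left h2 (by positivity)

private theorem pt_inj {i j : ℕ} (h : pt i = pt j) : i = j := by
  have h1 := congrArg abs h
  rw [abs_pt, abs_pt] at h1
  have h2 : (4 * Real.pi ^ 2) ≠ 0 := by have := Real.pi_pos; positivity
  have h3 := mul_left_cancel₀ h2 h1
  have h4 : (i : ℝ) = j := by
    rwa [sq_eq_sq₀ (by positivity) (by positivity)] at h3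
  exact_mod_cast h4

private theorem lin_inv_mul (c : ℝ) : lin c * (lin c)⁻¹ = 1 := by
  apply PowerSeries.mul_inv_cancel
  rw [lin]
  simp

private theorem one_term {p : Finset ℕ} (hp : IsSeif p) {J j : ℕ} (hj : j ∈ Icc 1 J)
    (μ : Polynomial ℝ) (hμ : μ.eval (pt j) ≠ 0) : ∃ Q : Polynomial ℝ,
    Hol (4 * Real.pi ^ 2 * ((J : ℝ) + 1) ^ 2) ((μ : ℝ⟦X⟧) * ((lin (pt j))⁻¹) ^ (p.card - 2) *
      ((∏ k ∈ p, E k) * ((∏ i ∈ Icc 1 J, lin (pt i)) * (E 1)⁻¹) ^ (p.card - 2)) -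
      PowerSeries.mk fun m => Q.eval (m : ℝ) * ((pt j)⁻¹) ^ m) ∧
    (p.card - 2 ≤ zn p j → Q = 0) ∧
      (zn p j < p.card - 2 → Q ≠ 0 ∧ Q.natDegree + zn p j + 3 = p.card) := by
  obtain ⟨G, hG, hG0, hfac⟩ := factor hp hj (p.card - 2)
  have hc := pt_ne_zero (Finset.mem_Icc.1 hj).1
  have hlt := abs_pt_lt hj
  rw [hfac]
  by_cases hz : zn p j < p.card - 2
  · obtain ⟨r, hr⟩ : ∃ r, p.card - 2 = zn p j + r := ⟨p.card - 2 - zn p j, by omega⟩
    have hμG : Hol (4 * Real.pi ^ 2 * ((J : ℝ) + 1) ^ 2) ((μ : ℝ⟦X⟧) * G) :=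
      hol_mul (hol_poly _ μ) hG
    have hμG0 : ev ((μ : ℝ⟦X⟧) * G) (pt j) ≠ 0 := by
      rw [ev_mul (hol_poly _ μ) hG hlt, ev_poly]
      exact mul_ne_zero hμ hG0
    obtain ⟨Q, hQ0, hQd, hQ⟩ := one_point hc hlt hμG hμG0 (r := r) (by omega)
    refine ⟨Q, ?_, fun h => absurd h (by omega), fun _ => ⟨hQ0, by omega⟩⟩
    have h1 : (μ : ℝ⟦X⟧) * ((lin (pt j))⁻¹) ^ (p.card - 2) * (lin (pt j) ^ zn p j * G) =
        (μ : ℝ⟦X⟧) * G * ((lin (pt j))⁻¹) ^ r := by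
      have h2 : (lin (pt j) * (lin (pt j))⁻¹) ^ zn p j = 1 := by rw [lin_inv_mul, one_pow]
      rw [mul_pow] at h2
      rw [hr, pow_add]
      linear_combination ((μ : ℝ⟦X⟧) * G * ((lin (pt j))⁻¹) ^ r) * h2
    rw [h1]
    exact hQ
  · obtain ⟨r, hr⟩ : ∃ r, zn p j = p.card - 2 + r := ⟨zn p j - (p.card - 2), by omega⟩
    refine ⟨0, ?_, fun _ => rfl, fun h => absurd h hz⟩
    have h1 : (μ : ℝ⟦X⟧) * ((lin (pt j))⁻¹) ^ (p.card - 2) * (lin (pt j) ^ zn p j * G) =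
        (μ : ℝ⟦X⟧) * lin (pt j) ^ r * G := by
      have h2 : (lin (pt j) * (lin (pt j))⁻¹) ^ (p.card - 2) = 1 := by rw [lin_inv_mul, one_pow]
      rw [mul_pow] at h2
      rw [hr, pow_add]
      linear_combination ((μ : ℝ⟦X⟧) * lin (pt j) ^ r * G) * h2
    have h3 : (PowerSeries.mk fun m : ℕ => (0 : Polynomial ℝ).eval (m : ℝ) * ((pt j)⁻¹) ^ m) = 0 := by
      ext m; simp
    rw [h1, h3, sub_zero]
    exact hol_mul (hol_mul (hol_poly _ _) (hol_pow (hol_lin _ _) _)) hG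

private theorem bezout (J n : ℕ) (hn : 0 < n) (hJ : 1 ≤ J) : ∃ μ : ℕ → Polynomial ℝ,
    (∑ j ∈ Icc 1 J, μ j * ∏ l ∈ Icc 1 J \ {j}, plin (pt l) ^ n) = 1 ∧
    ∀ j ∈ Icc 1 J, (μ j).eval (pt j) ≠ 0 := by
  have hne : (Icc 1 J).Nonempty := ⟨1, Finset.mem_Icc.2 ⟨le_rfl, hJ⟩⟩
  have hcop : Pairwise (Function.onFun IsCoprime fun i : Icc 1 J => plin (pt i) ^ n) := by
    intro i j hij
    apply IsCoprime.pow
    apply plin_coprime (pt_ne_zero (Finset.mem_Icc.1 i.2).1) (pt_ne_zero (Finset.mem_Icc.1 j.2).1)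
    intro h
    exact hij (Subtype.ext (pt_inj h))
  obtain ⟨μ, hμ⟩ := (exists_sum_eq_one_iff_pairwise_coprime (s := fun l => plin (pt l) ^ n)
    hne).2 hcop
  refine ⟨μ, hμ, ?_⟩
  intro j hj h0
  have h1 := congrArg (Polynomial.eval (pt j)) hμ
  rw [Polynomial.eval_finsetSum, Polynomial.eval_one] at h1
  rw [Finset.sum_eq_zero] at h1
  · exact zero_ne_one h1
  · intro i hi
    rw [Polynomial.eval_mul]
    by_cases hij : i = j
    · rw [hij, h0, zero_mul]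
    · rw [Polynomial.eval_prod, Finset.prod_eq_zero (i := j), mul_zero]
      · simp only [Finset.mem_sdiff, Finset.mem_singleton]
        exact ⟨hj, fun h => hij h.symm⟩
      · rw [Polynomial.eval_pow, eval_plin_self (pt_ne_zero (Finset.mem_Icc.1 hj).1),
          zero_pow hn.ne']

theorem poles {p : Finset ℕ} (hp : IsSeif p) (J : ℕ) : ∃ Q : ℕ → Polynomial ℝ,
    Hol (4 * Real.pi ^ 2 * ((J : ℝ) + 1) ^ 2) (phi p - PowerSeries.mk fun m =>
      ∑ j ∈ Icc 1 J, (Q j).eval (m : ℝ) * ((pt j)⁻¹) ^ m) ∧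
    ∀ j ∈ Icc 1 J, (p.card - 2 ≤ zn p j → Q j = 0) ∧
      (zn p j < p.card - 2 → Q j ≠ 0 ∧ (Q j).natDegree + zn p j + 3 = p.card) := by
  have hcard := hp.1
  rcases Nat.eq_zero_or_pos J with hJ | hJ
  · subst hJ
    refine ⟨fun _ => 0, ?_, fun j hj => absurd hj (by simp)⟩
    have h1 : (PowerSeries.mk fun m : ℕ => ∑ j ∈ Icc 1 0, (0 : Polynomial ℝ).eval (m : ℝ) *
        ((pt j)⁻¹) ^ m) = 0 := by
      ext m; simp
    rw [h1, sub_zero]
    have h2 := hol_inv 0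
    simp only [Finset.Icc_eq_empty_of_lt Nat.zero_lt_one, Finset.prod_empty, one_mul] at h2
    exact hol_mul (hol_prod _ fun k hk => hol_E (by have := hp.2.1 k hk; omega) _) (hol_pow h2 _)
  · obtain ⟨μ, hμ1, hμ2⟩ := bezout J (p.card - 2) (by omega) hJ
    have hterm : ∀ j : ℕ, ∃ Q : Polynomial ℝ, j ∈ Icc 1 J →
        Hol (4 * Real.pi ^ 2 * ((J : ℝ) + 1) ^ 2)
          ((μ j : ℝ⟦X⟧) * ((lin (pt j))⁻¹) ^ (p.card - 2) *
            ((∏ k ∈ p, E k) * ((∏ i ∈ Icc 1 J, lin (pt i)) * (E 1)⁻¹) ^ (p.card - 2)) -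
            PowerSeries.mk fun m => Q.eval (m : ℝ) * ((pt j)⁻¹) ^ m) ∧
          (p.card - 2 ≤ zn p j → Q = 0) ∧
          (zn p j < p.card - 2 → Q ≠ 0 ∧ Q.natDegree + zn p j + 3 = p.card) := by
      intro j
      by_cases hj : j ∈ Icc 1 J
      · obtain ⟨Q, hQ⟩ := one_term hp hj (μ j) (hμ2 j hj)
        exact ⟨Q, fun _ => hQ⟩
      · exact ⟨0, fun h => absurd h hj⟩
    choose Q hQ using hterm
    refine ⟨Q, ?_, fun j hj => (hQ j hj).2⟩
    have hphi : phi p = ∑ j ∈ Icc 1 J, (μ j : ℝ⟦X⟧) * ((lin (pt j))⁻¹) ^ (p.card - 2) *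
        ((∏ k ∈ p, E k) * ((∏ i ∈ Icc 1 J, lin (pt i)) * (E 1)⁻¹) ^ (p.card - 2)) := by
      have h1 : ((∑ j ∈ Icc 1 J, μ j * ∏ l ∈ Icc 1 J \ {j}, plin (pt l) ^ (p.card - 2) :
          Polynomial ℝ) : ℝ⟦X⟧) = 1 := by rw [hμ1]; simp
      rw [← Polynomial.coeToPowerSeries.ringHom_apply, map_sum] at h1
      calc phi p = 1 * phi p := by rw [one_mul]
        _ = _ := by
          rw [← h1, Finset.sum_mul]
          refine Finset.sum_congr rfl fun j hj => ?_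
          rw [map_mul, map_prod, Polynomial.coeToPowerSeries.ringHom_apply, mul_assoc, mul_assoc]
          congr 1
          have h2 : (∏ i ∈ Icc 1 J, lin (pt i)) =
              lin (pt j) * ∏ l ∈ Icc 1 J \ {j}, lin (pt l) := by
            rw [← Finset.prod_sdiff (Finset.singleton_subset_iff.2 hj), Finset.prod_singleton,
              mul_comm]
          have h3 : (∏ l ∈ Icc 1 J \ {j}, Polynomial.coeToPowerSeries.ringHom
              (plin (pt l) ^ (p.card - 2))) = (∏ l ∈ Icc 1 J \ {j}, lin (pt l)) ^ (p.card - 2) := by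
            rw [← Finset.prod_pow]
            refine Finset.prod_congr rfl fun l _ => ?_
            rw [map_pow, Polynomial.coeToPowerSeries.ringHom_apply, plin_coe]
          have h4 : (lin (pt j) * (lin (pt j))⁻¹) ^ (p.card - 2) = 1 := by
            rw [lin_inv_mul, one_pow]
          rw [mul_pow] at h4
          rw [h3, h2, phi, mul_pow, mul_pow]
          linear_combination (-(∏ l ∈ Icc 1 J \ {j}, lin (pt l)) ^ (p.card - 2) *
            ((∏ k ∈ p, E k) * ((E 1)⁻¹) ^ (p.card - 2))) * h4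
    have hmk : (PowerSeries.mk fun m : ℕ => ∑ j ∈ Icc 1 J, (Q j).eval (m : ℝ) * ((pt j)⁻¹) ^ m) =
        ∑ j ∈ Icc 1 J, PowerSeries.mk fun m : ℕ => (Q j).eval (m : ℝ) * ((pt j)⁻¹) ^ m := by
      ext m
      rw [PowerSeries.coeff_mk, map_sum]
      refine Finset.sum_congr rfl fun j _ => ?_
      rw [PowerSeries.coeff_mk]
    rw [hphi, hmk, ← Finset.sum_sub_distrib]
    exact hol_sum _ fun j hj => (hQ j hj).1

end Pool.Agent.H99.Seif
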