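import Pool.Agent.H99.Seif.Hol

/-!
# The series `E k`

`coeff m (E k) * (pt j) ^ m = (-1) ^ m (π j / k) ^ (2 m) / (2 m + 1)!`, so
`ev (E k) (pt j) = sin (π j / k) / (π j / k)` (`Real.hasSum_sin`). It is zero iff `j / k` is an integer
(`Real.sin_eq_zero_iff`).
-/

open PowerSeries Finset

namespace Pool.Agent.H99.Seif

private theorem coeff_E_nonneg (k m : ℕ) : 0 ≤ coeff m (E k) := by
  unfold E
  rw [coeff_mk]
  positivity

private theorem coeff_E_le {k : ℕ} (hk : 1 ≤ k) (m : ℕ) :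
    coeff m (E k) ≤ 1 / (m.factorial : ℝ) := by
  unfold E
  rw [coeff_mk]
  have hk' : (1 : ℝ) ≤ (k : ℝ) := by exact_mod_cast hk
  have h1 : (1 : ℝ) ≤ (2 * k : ℝ) ^ (2 * m) := one_le_pow₀ (by linarith)
  have h2 : (m.factorial : ℝ) ≤ ((2 * m + 1).factorial : ℝ) := by
    exact_mod_cast Nat.factorial_le (by omega)
  have h3 : (0 : ℝ) < (m.factorial : ℝ) := by exact_mod_cast Nat.factorial_pos m
  apply one_div_le_one_div_of_le h3
  nlinarith

theorem hol_E {k : ℕ} (hk : 1 ≤ k) (ρ : ℝ) : Hol ρ (E k) := by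
  intro r hr _
  refine ⟨Real.exp r, fun m => ?_⟩
  rw [abs_of_nonneg (coeff_E_nonneg k m)]
  have h1 := coeff_E_le hk m
  have h2 := Real.pow_div_factorial_le_exp r hr.le m
  have h3 : coeff m (E k) * r ^ m ≤ 1 / (m.factorial : ℝ) * r ^ m :=
    mul_le_mul_of_nonneg_right h1 (pow_nonneg hr.le m)
  have h4 : 1 / (m.factorial : ℝ) * r ^ m = r ^ m / (m.factorial : ℝ) := by ring
  linarith

theorem constCoeff_E {k : ℕ} (hk : 1 ≤ k) : constantCoeff (E k) = 1 := by
  rw [← coeff_zero_eq_constantCoeff_apply]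
  unfold E
  rw [coeff_mk]
  norm_num

private theorem ev_E {k j : ℕ} (hk : 1 ≤ k) (hj : 1 ≤ j) :
    ev (E k) (pt j) = Real.sin (Real.pi * j / k) / (Real.pi * j / k) := by
  have hk' : (0 : ℝ) < (k : ℝ) := by exact_mod_cast hk
  have hj' : (0 : ℝ) < (j : ℝ) := by exact_mod_cast hj
  have hx : (0 : ℝ) < Real.pi * j / k := by positivity
  have h := (Real.hasSum_sin (Real.pi * j / k)).div_const (Real.pi * j / k)
  have h2 : (fun m : ℕ => coeff m (E k) * pt j ^ m) =
      fun n : ℕ => (-1 : ℝ) ^ n * (Real.pi * j / k) ^ (2 * n + 1) /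
        ((2 * n + 1).factorial : ℝ) / (Real.pi * j / k) := by
    funext m
    unfold E pt
    rw [coeff_mk]
    have hf : ((2 * m + 1).factorial : ℝ) ≠ 0 := by
      exact_mod_cast Nat.factorial_ne_zero _
    have e1 : (-(4 * Real.pi ^ 2 * (j : ℝ) ^ 2)) ^ m =
        (-1) ^ m * ((2 * Real.pi * j) ^ (2 * m)) := by
      rw [pow_mul, ← mul_pow]
      congr 1
      ring
    have e2 : (Real.pi * j / k) ^ (2 * m + 1) =
        (Real.pi * j / k) * ((2 * Real.pi * j) ^ (2 * m) / (2 * k : ℝ) ^ (2 * m)) := by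
      rw [pow_succ, ← div_pow, mul_comm]
      congr 2
      field_simp
    rw [e1, e2]
    have h2k : (2 * k : ℝ) ^ (2 * m) ≠ 0 := by positivity
    field_simp
  unfold ev
  rw [h2]
  exact h.tsum_eq

theorem ev_E_eq_zero_iff {k j : ℕ} (hk : 1 ≤ k) (hj : 1 ≤ j) :
    ev (E k) (pt j) = 0 ↔ k ∣ j := by
  have hk' : (0 : ℝ) < (k : ℝ) := by exact_mod_cast hk
  have hj' : (0 : ℝ) < (j : ℝ) := by exact_mod_cast hj
  have hx : (0 : ℝ) < Real.pi * j / k := by positivity
  rw [ev_E hk hj, div_eq_zero_iff]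
  constructor
  · rintro (h | h)
    · rw [Real.sin_eq_zero_iff] at h
      obtain ⟨n, hn⟩ := h
      have h1 : (n : ℝ) * k = j := by
        have hpi := Real.pi_pos
        have h2 : (n : ℝ) * Real.pi * k = Real.pi * j := by
          rw [hn]; field_simp
        have h3 : Real.pi * ((n : ℝ) * k - j) = 0 := by linarith
        rcases mul_eq_zero.mp h3 with h4 | h4
        · exact absurd h4 hpi.ne'
        · linarith
      have h2 : (n : ℤ) * k = j := by exact_mod_cast h1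
      have h3 : (k : ℤ) ∣ (j : ℤ) := ⟨n, by rw [← h2]; ring⟩
      exact_mod_cast h3
    · exact absurd h hx.ne'
  · rintro ⟨n, rfl⟩
    left
    rw [Real.sin_eq_zero_iff]
    refine ⟨n, ?_⟩
    push_cast
    field_simp

end Pool.Agent.H99.Seif
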